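import Pool.Agent.Work.MP_c4e502_gt.Defs

namespace Pool.Agent.Work.MP_c4e502_gt

open scoped ContDiff Topology
open Filter Set MeasureTheory

section integral
variable {P : Type} [NormedAddCommGroup P] [NormedSpace ℝ P] [FiniteDimensional ℝ P]

theorem contDiff_int_nat (m : ℕ) : ∀ {F : Type} [NormedAddCommGroup F] [NormedSpace ℝ F]
    [CompleteSpace F] (g : P × ℝ → F), ContDiff ℝ ∞ g →
    ContDiff ℝ m fun p => ∫ s in (0 : ℝ)..1, g (p, s) := by
  induction m with
  | zero =>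
    intro F _ _ _ g hg
    exact contDiff_zero.2 (intervalIntegral.continuous_parametric_intervalIntegral_of_continuous'
      (f := fun p s => g (p, s)) hg.continuous 0 1)
  | succ m ih =>
    intro F _ _ _ g hg
    have h1 : ContDiff ℝ ∞ fun w : P × ℝ => fderiv ℝ (fun p => g (p, w.2)) w.1 :=
      ContDiff.fderiv (m := ∞) (f := fun (w : P × ℝ) p => g (p, w.2))
        (hg.comp (f := fun p : (P × ℝ) × P => (p.2, p.1.2)) (by fun_prop)) (by fun_prop) le_rfl
    have := FiniteDimensional.proper_real P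
    rw [Nat.cast_succ, contDiff_succ_iff_hasFDerivAt]
    refine ⟨_, ih _ h1, fun p => ?_⟩
    obtain ⟨C, hC⟩ := ((isCompact_closedBall p 1).prod (isCompact_Icc (a := (0 : ℝ)) (b := 1))
      ).exists_bound_of_continuousOn h1.continuous.continuousOn
    have hc := hg.continuous
    have hc1 := h1.continuous
    refine intervalIntegral.hasFDerivAt_integral_of_dominated_of_fderiv_le
      (F := fun p s => g (p, s)) (F' := fun p s => fderiv ℝ (fun p => g (p, s)) p)
      (bound := fun _ => C) (Metric.closedBall_mem_nhds p one_pos)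
      (Eventually.of_forall fun x => Continuous.aestronglyMeasurable (by fun_prop))
      (Continuous.intervalIntegrable (by fun_prop) _ _)
      (Continuous.aestronglyMeasurable (hc1.comp (f := fun s => (p, s)) (by fun_prop)))
      (Eventually.of_forall fun t ht x hx => hC (x, t) ⟨hx, ?_⟩) intervalIntegrable_const
      (Eventually.of_forall fun t _ x _ => ?_)
    · rw [uIoc_of_le zero_le_one] at ht
      exact Ioc_subset_Icc_self ht
    · exact (((hg.differentiable (by simp)).comp (f := fun p => (p, t)) (by fun_prop)) x).hasFDerivAt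

variable {F : Type} [NormedAddCommGroup F] [NormedSpace ℝ F] [CompleteSpace F]

/-- primitive in the first variable -/
noncomputable def prim (g : ℝ × P → F) (w : ℝ × P) : F := ∫ s in (0 : ℝ)..w.1, g (s, w.2)

theorem contDiff_prim {g : ℝ × P → F} (hg : ContDiff ℝ ∞ g) : ContDiff ℝ ∞ (prim g) := by
  have h1 : prim g = fun w => w.1 • ∫ s in (0 : ℝ)..1, g (w.1 * s, w.2) := by
    funext w
    have := intervalIntegral.smul_integral_comp_mul_left (fun s => g (s, w.2)) w.1 (a := 0) (b := 1)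
    simp only [mul_zero, mul_one] at this
    exact this.symm
  rw [h1]
  refine contDiff_fst.smul (contDiff_infty.2 fun m => ?_)
  exact contDiff_int_nat m (fun u : (ℝ × P) × ℝ => g (u.1.1 * u.2, u.1.2)) (by fun_prop)

omit [FiniteDimensional ℝ P] in
theorem hasDerivAt_prim {g : ℝ × P → F} (hg : ContDiff ℝ ∞ g) (t : ℝ) (p : P) :
    HasDerivAt (fun s => prim g (s, p)) (g (t, p)) t := by
  have hc := hg.continuous
  have hc2 : Continuous fun s => g (s, p) := by fun_prop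
  exact intervalIntegral.integral_hasDerivAt_right (hc2.intervalIntegrable _ _)
    (hc2.stronglyMeasurableAtFilter _ _) hc2.continuousAt

omit [FiniteDimensional ℝ P] [CompleteSpace F] in
theorem hasDerivAt_fderiv {Z W : ℝ × P → F} (hZ : ContDiff ℝ ∞ Z)
    (h : ∀ t p, HasDerivAt (fun s => Z (s, p)) (W (t, p)) t) (t : ℝ) (p : P) :
    HasDerivAt (fun s => fderiv ℝ (fun r => Z (s, r)) p) (fderiv ℝ (fun r => W (t, r)) p) t := by
  have hd := hZ.differentiable (by simp)
  have hd1 := (hZ.fderiv_right (m := ∞) le_rfl).differentiable (by simp)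
  have e1 : ∀ s, fderiv ℝ (fun r => Z (s, r)) p =
      (fderiv ℝ Z (s, p)).comp (ContinuousLinearMap.inr ℝ ℝ P) := fun s =>
    ((hd _).hasFDerivAt.comp p (hasFDerivAt_prodMk_right s p)).fderiv
  have e2 : ∀ r, W (t, r) = fderiv ℝ Z (t, r) (1, 0) := fun r => by
    refine (h t r).unique ((hd (t, r)).hasFDerivAt.comp_hasDerivAt t ?_)
    exact (hasDerivAt_id t).prodMk (hasDerivAt_const t r)
  have e3 : HasFDerivAt (fun r => fderiv ℝ Z (t, r) (1, 0)) _ p :=
    ((hd1 _).hasFDerivAt.comp p (hasFDerivAt_prodMk_right t p)).clm_apply (hasFDerivAt_const _ _)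
  simp only [e1, e2, e3.fderiv]
  have e4 : HasDerivAt (fun s => fderiv ℝ Z (s, p)) (fderiv ℝ (fderiv ℝ Z) (t, p) (1, 0)) t :=
    (hd1 (t, p)).hasFDerivAt.comp_hasDerivAt t ((hasDerivAt_id t).prodMk (hasDerivAt_const t p))
  refine (e4.clm_comp (hasDerivAt_const t _)).congr_deriv ?_
  ext v
  have := (hZ.contDiffAt (x := (t, p))).isSymmSndFDerivAt
    (by simp only [minSmoothness_of_isRCLikeNormedField]; exact WithTop.coe_le_coe.2 (le_top (a := (2 : ℕ∞))))
    (1, 0) (0, v)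
  simp [this]

end integral

theorem lin_unique {E : Type} [NormedAddCommGroup E] [NormedSpace ℝ E] (M : E →L[ℝ] E)
    {f g r : ℝ → E} (hf : ∀ t, HasDerivAt f (M (f t) + r t) t)
    (hg : ∀ t, HasDerivAt g (M (g t) + r t) t) (h0 : f 0 = g 0) : f = g :=
  ODE_solution_unique_univ (v := fun t y => M y + r t) (s := fun _ => univ) (K := ‖M‖₊) (t₀ := 0)
    (fun t => by
      have := (M.lipschitz.add (LipschitzWith.const (r t))).lipschitzOnWith (s := univ)
      simpa using this)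
    (fun t => ⟨hf t, trivial⟩) (fun t => ⟨hg t, trivial⟩) h0

theorem int_unique {E : Type} [NormedAddCommGroup E] [NormedSpace ℝ E]
    {f g r : ℝ → E} (hf : ∀ t, HasDerivAt f (r t) t)
    (hg : ∀ t, HasDerivAt g (r t) t) (h0 : f 0 = g 0) : f = g :=
  lin_unique 0 (r := r) (by simpa using hf) (by simpa using hg) h0

section cone
variable {E : Type} [NormedAddCommGroup E] [NormedSpace ℝ E]

theorem cone_pos {φ : E → ℝ} {x a : E} {B : E →L[ℝ] E →L[ℝ] ℝ}
    (hd : ∀ᶠ y in 𝓝 x, DifferentiableAt ℝ φ y) (hB : HasFDerivAt (fderiv ℝ φ) B x)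
    (h1 : fderiv ℝ φ x = 0) (h2 : 0 < B a a) :
    ∃ δ > 0, ∀ t : ℝ, 0 < t → t < δ → ∀ v, ‖v - a‖ < δ → φ x < φ (x + t • v) := by
  set K := ‖a‖ + 1 with hK
  have hK0 : 0 < K := by positivity
  have e1 : ∀ᶠ v in 𝓝 a, B a a / 2 < B v v :=
    (by fun_prop : Continuous fun v => B v v).continuousAt.eventually (lt_mem_nhds (by linarith))
  have e2 := (hB.isLittleO.def (c := B a a / 4 / K ^ 2) (by positivity)).and hd
  obtain ⟨δ1, hδ1, e1⟩ := Metric.eventually_nhds_iff.1 e1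
  obtain ⟨δ2, hδ2, e2⟩ := Metric.eventually_nhds_iff.1 e2
  refine ⟨min (min δ1 1) (δ2 / K), by positivity, fun t ht htδ v hv => ?_⟩
  have hv1 : B a a / 2 < B v v :=
    e1 (by rw [dist_eq_norm]; exact hv.trans_le ((min_le_left _ _).trans (min_le_left _ _)))
  have hv2 : ‖v‖ ≤ K := by
    have := norm_sub_norm_le v a
    have := hv.trans_le ((min_le_left _ _).trans (min_le_right _ _))
    linarith
  have ht2 : t * K < δ2 := (lt_div_iff₀ hK0).1 (htδ.trans_le (min_le_right _ _))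
  have hb : ∀ s ∈ Icc 0 t, dist (x + s • v) x < δ2 := by
    intro s hs
    rw [dist_eq_norm, add_sub_cancel_left, norm_smul, Real.norm_eq_abs, abs_of_nonneg hs.1]
    exact (mul_le_mul hs.2 hv2 (norm_nonneg _) ht.le).trans_lt ht2
  have hder : ∀ s ∈ Icc 0 t, HasDerivAt (fun s : ℝ => φ (x + s • v)) (fderiv ℝ φ (x + s • v) v) s :=
    fun s hs => (e2 (hb s hs)).2.hasFDerivAt.comp_hasDerivAt s
      (by simpa using ((hasDerivAt_id s).smul_const v).const_add x)
  have hm : StrictMonoOn (fun s : ℝ => φ (x + s • v)) (Icc 0 t) := by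
    refine strictMonoOn_of_deriv_pos (convex_Icc _ _)
      (fun s hs => (hder s hs).continuousAt.continuousWithinAt) fun s hs => ?_
    rw [interior_Icc] at hs
    rw [(hder s (Ioo_subset_Icc_self hs)).deriv]
    have h3 := (e2 (hb s (Ioo_subset_Icc_self hs))).1
    rw [h1, sub_zero, add_sub_cancel_left, norm_smul, Real.norm_eq_abs, abs_of_pos hs.1] at h3
    have h4 := (fderiv ℝ φ (x + s • v) - B (s • v)).le_opNorm v
    have h5 : B a a / 4 / K ^ 2 * (s * ‖v‖) * ‖v‖ ≤ B a a / 4 * s := by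
      have h6 : ‖v‖ * ‖v‖ ≤ K ^ 2 := by nlinarith [norm_nonneg v]
      have h7 : B a a / 4 / K ^ 2 * (s * ‖v‖) * ‖v‖ = B a a / 4 * s * (‖v‖ * ‖v‖ / K ^ 2) := by
        field_simp
      rw [h7]
      have := hs.1
      exact mul_le_of_le_one_right (by positivity) ((div_le_one (by positivity)).2 h6)
    have h6 := h4.trans ((mul_le_mul_of_nonneg_right h3 (norm_nonneg v)).trans h5)
    rw [Real.norm_eq_abs, abs_le] at h6
    have h7 := h6.1
    simp only [sub_apply, map_smul, smul_apply, smul_eq_mul] at h7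
    nlinarith [hs.1]
  simpa using hm (left_mem_Icc.2 ht.le) (right_mem_Icc.2 ht.le) ht

end cone

theorem not_submanifold {n : ℕ} {S : Set (Fin n → ℝ)} {φ : (Fin n → ℝ) → ℝ} {x a : Fin n → ℝ}
    {B : (Fin n → ℝ) →L[ℝ] (Fin n → ℝ) →L[ℝ] ℝ}
    (hd : ∀ᶠ y in 𝓝 x, DifferentiableAt ℝ φ y) (hB : HasFDerivAt (fderiv ℝ φ) B x)
    (h1 : fderiv ℝ φ x = 0) (h2 : 0 < B a a) (h0 : φ x = 0)
    (hS : ∀ᶠ y in 𝓝 x, y ∈ S ↔ φ y = 0) (hneg : ∃ᶠ y in 𝓝 x, φ y < 0) :
    ¬ IsSubmanifoldAt S x := by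
  rintro ⟨ψ, T, hx, c1, c2, hT⟩
  obtain ⟨δ, hδ, p1⟩ := cone_pos hd hB h1 h2
  obtain ⟨δ', hδ', p2⟩ := cone_pos (a := -a) hd hB h1 (by simpa using h2)
  rw [h0] at p1 p2
  have hs := ψ.open_source.mem_nhds hx
  have ht := ψ.open_target.mem_nhds (ψ.map_source hx)
  have d1 := ((c1.contDiffAt hs).differentiableAt one_ne_zero).hasFDerivAt
  have d2 := ((c2.contDiffAt ht).differentiableAt one_ne_zero).hasFDerivAt
  set D := fderiv ℝ ψ x
  set D' := fderiv ℝ ψ.symm (ψ x)
  have hDD : D' (D a) = a := by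
    have h3 : HasFDerivAt (ψ.symm ∘ ψ) (ContinuousLinearMap.id ℝ _) x :=
      (hasFDerivAt_id x).congr_of_eventuallyEq (by
        filter_upwards [hs] with y hy using ψ.left_inv hy)
    exact congrArg (fun L => L a) ((d2.comp x d1).unique h3)
  have hxT : ψ x ∈ T := (hT x hx).1 (hS.self_of_nhds.2 h0)
  have hcs : Tendsto ψ.symm (𝓝 (ψ x)) (𝓝 x) := ψ.tendsto_symm hx
  have hB0 : ∀ᶠ z in 𝓝 (ψ x), ContinuousAt (fun z => φ (ψ.symm z)) z ∧
      (φ (ψ.symm z) = 0 ↔ z ∈ T) := by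
    filter_upwards [ht, hcs.eventually hS, hcs.eventually hd] with z hz h3 h4
    refine ⟨h4.continuousAt.comp (ψ.continuousAt_symm hz), ?_⟩
    rw [← h3, hT _ (ψ.map_target hz), ψ.right_inv hz]
  have hDa : D a ∉ T := by
    intro hin
    have hl : HasDerivAt (fun s : ℝ => ψ x + s • D a) (D a) 0 := by
      simpa using ((hasDerivAt_id (0 : ℝ)).smul_const (D a)).const_add (ψ x)
    have h3 : HasDerivAt (fun s : ℝ => ψ.symm (ψ x + s • D a)) (D' (D a)) 0 :=
      HasFDerivAt.comp_hasDerivAt (l := ψ.symm) (0 : ℝ) (by simpa using d2) hl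
    rw [hDD] at h3
    have h4 := h3.tendsto_slope_zero_right
    simp only [zero_add, zero_smul, add_zero, ψ.left_inv hx] at h4
    have h5 : Tendsto (fun s : ℝ => ψ x + s • D a) (𝓝[>] 0) (𝓝 (ψ x)) := by
      simpa using hl.continuousAt.tendsto.mono_left (nhdsWithin_le_nhds (s := Ioi 0))
    obtain ⟨s, ⟨h6, h7⟩, h8⟩ := (((h4.eventually (Metric.ball_mem_nhds a hδ)).and
      (h5.eventually hB0)).and (Ioo_mem_nhdsGT hδ)).exists
    have h9 := p1 s h8.1 h8.2 _ (mem_ball_iff_norm.1 h6)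
    rw [smul_inv_smul₀ h8.1.ne', add_sub_cancel] at h9
    exact h9.ne' (h7.2.2 (T.add_mem hxT (T.smul_mem _ hin)))
  obtain ⟨l0, hl1, hl2⟩ := Submodule.exists_le_ker_of_notMem hDa
  set l := LinearMap.toContinuousLinearMap ((l0 (D a))⁻¹ • l0) with hl
  have hl3 : l (D a) = 1 := by simp [hl, hl1]
  have hl4 : ∀ z ∈ T, l z = 0 := fun z hz => by simp [hl, LinearMap.mem_ker.1 (hl2 hz)]
  obtain ⟨r, hr, hB1⟩ := Metric.eventually_nhds_iff_ball.1 hB0
  have hball : ∀ᶠ y in 𝓝 x, y ∈ ψ.source ∧ ψ y ∈ Metric.ball (ψ x) r :=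
    Eventually.and hs (d1.continuousAt.eventually (Metric.ball_mem_nhds _ hr))
  have key : ∀ (σ : ℝ) (δ : ℝ), 0 < δ → σ * σ = 1 →
      (∀ t : ℝ, 0 < t → t < δ → 0 < φ (x + t • σ • a)) →
      ∀ y, y ∈ ψ.source → ψ y ∈ Metric.ball (ψ x) r → φ y < 0 → σ * l (ψ y) < 0 := by
    intro σ δ hδ hσ hp y hy hyb hy0
    have hl : HasDerivAt (fun s : ℝ => x + s • σ • a) (σ • a) 0 := by
      simpa using ((hasDerivAt_id (0 : ℝ)).smul_const (σ • a)).const_add x
    have h3 : HasDerivAt (fun s : ℝ => ψ (x + s • σ • a)) (D (σ • a)) 0 :=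
      HasFDerivAt.comp_hasDerivAt (l := ψ) (0 : ℝ) (by simpa using d1) hl
    have h4 := ((l.hasFDerivAt.comp_hasDerivAt (0 : ℝ) h3).const_mul σ).tendsto_slope_zero_right
    simp only [zero_add, zero_smul, add_zero, Function.comp, hl4 _ hxT, map_smul, hl3,
      smul_eq_mul, mul_one, hσ, mul_zero, sub_zero] at h4
    have h5 : Tendsto (fun s : ℝ => x + s • σ • a) (𝓝[>] 0) (𝓝 x) := by
      simpa using hl.continuousAt.tendsto.mono_left (nhdsWithin_le_nhds (s := Ioi 0))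
    obtain ⟨s, ⟨h6, h7⟩, h8⟩ := (((h4.eventually (lt_mem_nhds one_pos)).and
      (h5.eventually hball)).and (Ioo_mem_nhdsGT hδ)).exists
    have h9 : 0 < σ * l (ψ (x + s • σ • a)) := (mul_pos_iff_of_pos_left (inv_pos.2 h8.1)).1 h6
    have hseg : ∀ θ ∈ Icc (0 : ℝ) 1, (1 - θ) • ψ y + θ • ψ (x + s • σ • a) ∈ Metric.ball (ψ x) r :=
      fun θ hθ => convex_ball _ _ hyb h7.2 (by linarith [hθ.2]) hθ.1 (by ring)
    have hc : ContinuousOn (fun θ : ℝ => φ (ψ.symm ((1 - θ) • ψ y + θ • ψ (x + s • σ • a))))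
        (Icc 0 1) := fun θ hθ =>
      (ContinuousAt.comp (f := fun θ : ℝ => (1 - θ) • ψ y + θ • ψ (x + s • σ • a))
        (hB1 _ (hseg θ hθ)).1 (by fun_prop)).continuousWithinAt
    obtain ⟨θ, hθ, hθ0⟩ := intermediate_value_Ioo zero_le_one hc (show (0 : ℝ) ∈ Ioo _ _ from ⟨by
      simpa [ψ.left_inv hy] using hy0, by simpa [ψ.left_inv h7.1] using hp s h8.1 h8.2⟩)
    have h10 := hl4 _ ((hB1 _ (hseg θ (Ioo_subset_Icc_self hθ))).2.1 hθ0)
    simp only [map_add, map_smul, smul_eq_mul] at h10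
    by_contra h11
    push Not at h11
    have h12 := mul_nonneg (sub_nonneg.2 hθ.2.le) h11
    have h13 := mul_pos hθ.1 h9
    have h14 := congrArg (σ * ·) h10
    simp only [mul_add, mul_zero] at h14
    nlinarith
  obtain ⟨y, hy0, hy⟩ := (hneg.and_eventually hball).exists
  have k1 := key 1 δ hδ (by ring) (fun t h3 h4 => p1 t h3 h4 _ (by simpa using hδ)) y hy.1 hy.2 hy0
  have k2 := key (-1) δ' hδ' (by ring) (fun t h3 h4 => p2 t h3 h4 _ (by simpa using hδ'))
    y hy.1 hy.2 hy0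
  linarith

end Pool.Agent.Work.MP_c4e502_gt
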