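import Mathlib

/-!
Sub-Riemannian structures on `ℝⁿ` given by a global orthonormal frame, their exponential map and
the regular conjugate locus. Covectors at a point are written in the coordinates dual to those
of `ℝⁿ`.
-/

namespace Pool.Agent.Work.MP_c4e502_gt

open scoped ContDiff Topology

variable {n k : ℕ}

/-- Iterated Lie brackets of the vector fields `X i`. -/
inductive IsBracket (X : Fin k → (Fin n → ℝ) → Fin n → ℝ) : ((Fin n → ℝ) → Fin n → ℝ) → Prop
  | base (i : Fin k) : IsBracket X (X i)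
  | lie {Y Z : (Fin n → ℝ) → Fin n → ℝ} :
      IsBracket X Y → IsBracket X Z → IsBracket X (VectorField.lieBracket ℝ Y Z)

/-- The smooth vector fields `X i` are everywhere linearly independent and bracket generating:
they are an orthonormal frame of a sub-Riemannian structure on `ℝⁿ`. -/
structure IsSubRiemFrame (X : Fin k → (Fin n → ℝ) → Fin n → ℝ) : Prop where
  smooth : ∀ i, ContDiff ℝ ∞ (X i)
  indep : ∀ x, LinearIndependent ℝ fun i => X i x
  gen : ∀ x, Submodule.span ℝ {v | ∃ Y, IsBracket X Y ∧ Y x = v} = ⊤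

/-- The sub-Riemannian Hamiltonian. -/
noncomputable def ham (X : Fin k → (Fin n → ℝ) → Fin n → ℝ) (x p : Fin n → ℝ) : ℝ :=
  1 / 2 * ∑ i, (p ⬝ᵥ X i x) ^ 2

/-- `(x, p)` solves Hamilton's equations for all times. -/
def IsNormalTraj (X : Fin k → (Fin n → ℝ) → Fin n → ℝ) (x p : ℝ → Fin n → ℝ) : Prop :=
  ∀ t, HasDerivAt x (fun j => fderiv ℝ (fun r => ham X (x t) r) (p t) (Pi.single j 1)) t ∧
    HasDerivAt p (fun j => -fderiv ℝ (fun y => ham X y (p t)) (x t) (Pi.single j 1)) t

/-- `e` is the exponential map at `q`, defined on the whole cotangent space: every covector starts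
a normal trajectory, and `e` sends the initial covector of a normal trajectory from `q` to its
time-one point. -/
def IsExp (X : Fin k → (Fin n → ℝ) → Fin n → ℝ) (q : Fin n → ℝ)
    (e : (Fin n → ℝ) → Fin n → ℝ) : Prop :=
  (∀ l, ∃ x p, IsNormalTraj X x p ∧ x 0 = q ∧ p 0 = l) ∧
    ∀ x p, IsNormalTraj X x p → x 0 = q → e (p 0) = x 1

/-- Conjugate covectors. -/
def IsConj (e : (Fin n → ℝ) → Fin n → ℝ) (l : Fin n → ℝ) : Prop :=
  l ≠ 0 ∧ ¬ Function.Injective (fderiv ℝ e l)

/-- Regular conjugate covectors: in some neighbourhood each line through `0` contains at most one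
conjugate covector. -/
def IsRegConj (e : (Fin n → ℝ) → Fin n → ℝ) (l : Fin n → ℝ) : Prop :=
  IsConj e l ∧ ∃ U ∈ 𝓝 l, ∀ v : Fin n → ℝ, ∀ a b : ℝ, a • v ∈ U → b • v ∈ U →
    IsConj e (a • v) → IsConj e (b • v) → a • v = b • v

/-- `S` is an embedded `C¹` submanifold of `ℝⁿ` near `x`: a `C¹` local chart with `C¹` inverse
takes `S` to a linear subspace. -/
def IsSubmanifoldAt (S : Set (Fin n → ℝ)) (x : Fin n → ℝ) : Prop :=
  ∃ (ψ : OpenPartialHomeomorph (Fin n → ℝ) (Fin n → ℝ)) (T : Submodule ℝ (Fin n → ℝ)),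
    x ∈ ψ.source ∧ ContDiffOn ℝ 1 ψ ψ.source ∧ ContDiffOn ℝ 1 ψ.symm ψ.target ∧
    ∀ y ∈ ψ.source, y ∈ S ↔ ψ y ∈ T

end Pool.Agent.Work.MP_c4e502_gt
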