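import Pool.Agent.Work.MP_c4e502_gt.Defs

/-!
The exponential map on an open set of covectors.
-/

namespace Pool.Agent.Work.MP_c4e502_gt

variable {n k : ℕ}

/-- `(x, p)` solves Hamilton's equations for the times in `[0, 1]`. -/
def IsNormalArc (X : Fin k → (Fin n → ℝ) → Fin n → ℝ) (x p : ℝ → Fin n → ℝ) : Prop :=
  ∀ t ∈ Set.Icc (0 : ℝ) 1,
    HasDerivAt x (fun j => fderiv ℝ (fun r => ham X (x t) r) (p t) (Pi.single j 1)) t ∧
    HasDerivAt p (fun j => -fderiv ℝ (fun y => ham X y (p t)) (x t) (Pi.single j 1)) t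

/-- On the open set `U` of covectors, `e` is the exponential map at `q`: every covector of `U`
starts a normal trajectory defined on `[0, 1]`, and `e` sends the initial covector of such a
trajectory from `q` to its time-one point. -/
def IsExpOn (X : Fin k → (Fin n → ℝ) → Fin n → ℝ) (q : Fin n → ℝ) (U : Set (Fin n → ℝ))
    (e : (Fin n → ℝ) → Fin n → ℝ) : Prop :=
  IsOpen U ∧ (∀ l ∈ U, ∃ x p, IsNormalArc X x p ∧ x 0 = q ∧ p 0 = l) ∧
    ∀ x p, IsNormalArc X x p → x 0 = q → p 0 ∈ U → e (p 0) = x 1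

end Pool.Agent.Work.MP_c4e502_gt
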