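import Pool.Agent.Work.MP_c4e502_gt.Calc
import Pool.Agent.Work.MP_c4e502_gt.Defs2

-- merged part: Pool.Agent.Work.MP_c4e502_gt.GenA
section
/-!
General tools: smooth extension, inverses near compact sets, one-variable monotonicity.
-/

namespace Pool.Agent.Work.MP_c4e502_gt

open scoped ContDiff Topology Manifold
open Filter Set Function

section
variable {A B : Type} [NormedAddCommGroup A] [NormedSpace ℝ A] [FiniteDimensional ℝ A]
  [NormedAddCommGroup B] [NormedSpace ℝ B]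

/-- extension of a smooth function from a neighbourhood of a closed set -/
theorem ext_smooth {O K : Set A} (hO : IsOpen O) (hK : IsClosed K) (hKO : K ⊆ O) {F : A → B}
    (hF : ContDiffOn ℝ ∞ F O) :
    ∃ G : A → B, ContDiff ℝ ∞ G ∧ (∀ᶠ y in 𝓝ˢ K, G y = F y) ∧
      ∀ y, (y ∈ O → F y = 0) → G y = 0 := by
  obtain ⟨u, hu, hKu, huO⟩ := normal_exists_closure_subset hK hO hKO
  obtain ⟨ρ, h1, h0, -⟩ := exists_contMDiffMap_one_nhds_of_subset_interior (n := ⊤) 𝓘(ℝ, A) hK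
    (t := u) (by rwa [hu.interior_eq])
  have hρ : ContDiff ℝ ∞ ρ := ρ.contMDiff.contDiff
  refine ⟨fun y => ρ y • F y, contDiff_iff_contDiffAt.2 fun y => ?_,
    h1.mono fun y hy => by simp only [hy, one_smul], fun y hy => ?_⟩
  · by_cases hy : y ∈ O
    · exact hρ.contDiffAt.smul (hF.contDiffAt (hO.mem_nhds hy))
    · refine (contDiffAt_const (c := (0 : B))).congr_of_eventuallyEq ?_
      filter_upwards [isClosed_closure.isOpen_compl.mem_nhds fun h => hy (huO h)] with z hz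
      rw [h0 z fun h => hz (subset_closure h), zero_smul]
  · by_cases h : y ∈ O
    · simp only [hy h, smul_zero]
    · simp only [h0 y fun h' => h (huO (subset_closure h')), zero_smul]

variable [FiniteDimensional ℝ B]

/-- a smooth inverse near a compact set -/
theorem inv_smooth (hd : Module.finrank ℝ A = Module.finrank ℝ B) {Φ : A → B}
    (hΦ : ContDiff ℝ ∞ Φ) {K N : Set A} (hK : IsCompact K) (hN : N ∈ 𝓝ˢ K) (h1 : InjOn Φ K)
    (h2 : ∀ z ∈ K, Injective (fderiv ℝ Φ z)) :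
    ∃ (O : Set A) (Ψ : B → A), IsOpen O ∧ K ⊆ O ∧ O ⊆ N ∧ IsOpen (Φ '' O) ∧
      ContDiffOn ℝ ∞ Ψ (Φ '' O) ∧ (∀ z ∈ O, Ψ (Φ z) = z) ∧
      ∀ z ∈ O, Bijective (fderiv ℝ Φ z) := by
  have := FiniteDimensional.complete ℝ A
  have hne : (∞ : WithTop ℕ∞) ≠ 0 := by simp
  have key : ∀ z, Injective (fderiv ℝ Φ z) → ∃ L : A ≃L[ℝ] B, HasFDerivAt Φ (L : A →L[ℝ] B) z :=
    fun z hz => ⟨(LinearMap.linearEquivOfInjective (fderiv ℝ Φ z : A →ₗ[ℝ] B) hz hd
      ).toContinuousLinearEquiv, (hΦ.differentiable hne z).hasFDerivAt⟩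
  obtain ⟨t, ht, hKt, hinj⟩ := h1.exists_isOpen_superset hK
    (fun z _ => hΦ.continuous.continuousAt) (fun z hz => by
      obtain ⟨L, hL⟩ := key z (h2 z hz)
      let P := hΦ.contDiffAt.toOpenPartialHomeomorph Φ hL hne
      exact ⟨P.source, P.open_source.mem_nhds
        (hΦ.contDiffAt.mem_toOpenPartialHomeomorph_source hL hne), P.injOn⟩)
  obtain ⟨N', hN', hKN, hNN⟩ := mem_nhdsSet_iff_exists.1 hN
  have ho : IsOpen {z | Injective (fderiv ℝ Φ z)} :=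
    ContinuousLinearMap.isOpen_injective.preimage (hΦ.continuous_fderiv hne)
  let O := t ∩ N' ∩ {z | Injective (fderiv ℝ Φ z)}
  have hO : IsOpen O := (ht.inter hN').inter ho
  have hl : ∀ z ∈ O, invFunOn Φ O (Φ z) = z := fun z hz =>
    (hinj.mono fun _ h => h.1.1).leftInvOn_invFunOn hz
  have loc : ∀ z ∈ O, Φ '' O ∈ 𝓝 (Φ z) ∧ ContDiffAt ℝ ∞ (invFunOn Φ O) (Φ z) := by
    intro z hz
    obtain ⟨L, hL⟩ := key z hz.2
    have hs := hΦ.contDiffAt.hasStrictFDerivAt' hL hne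
    refine ⟨hs.map_nhds_eq_of_equiv ▸ image_mem_map (hO.mem_nhds hz), ?_⟩
    refine (hΦ.contDiffAt.to_localInverse hL hne).congr_of_eventuallyEq ?_
    exact hs.localInverse_unique (mem_of_superset (hO.mem_nhds hz) hl)
  refine ⟨O, invFunOn Φ O, hO, fun z hz => ⟨⟨hKt hz, hKN hz⟩, h2 z hz⟩, fun z hz => hNN hz.1.2,
    isOpen_iff_mem_nhds.2 ?_, ?_, hl, fun z hz => ⟨hz.2, ?_⟩⟩
  · rintro _ ⟨z, hz, rfl⟩
    exact (loc z hz).1
  · rintro _ ⟨z, hz, rfl⟩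
    exact (loc z hz).2.contDiffWithinAt
  · exact (LinearMap.injective_iff_surjective_of_finrank_eq_finrank
      (f := (fderiv ℝ Φ z : A →ₗ[ℝ] B)) hd).1 hz.2

end

theorem chain_eq {A B C : Type} [NormedAddCommGroup A] [NormedSpace ℝ A] [NormedAddCommGroup B]
    [NormedSpace ℝ B] [NormedAddCommGroup C] [NormedSpace ℝ C] {Φ : A → B} {T : B → C} {τ : A → C}
    {z : A} (h1 : DifferentiableAt ℝ Φ z) (h2 : DifferentiableAt ℝ T (Φ z))
    (h : ∀ᶠ w in 𝓝 z, T (Φ w) = τ w) (v : A) :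
    fderiv ℝ T (Φ z) (fderiv ℝ Φ z v) = fderiv ℝ τ z v := by
  have h3 : τ =ᶠ[𝓝 z] T ∘ Φ := h.mono fun w hw => hw.symm
  rw [h3.fderiv_eq, fderiv_comp z h2 h1]
  rfl

theorem const_of_zero {B : Type} [NormedAddCommGroup B] [NormedSpace ℝ B] [CompleteSpace B]
    {L : ℝ → B} {a b : ℝ} (h : ∀ s ∈ uIcc a b, HasDerivAt L 0 s) : L a = L b := by
  have := intervalIntegral.integral_eq_sub_of_hasDerivAt (f' := fun _ => (0 : B)) h
    intervalIntegrable_const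
  rw [intervalIntegral.integral_zero] at this
  exact (sub_eq_zero.1 this.symm).symm

theorem zero_of_mono {Q Q' : ℝ → ℝ} {a b : ℝ} (h : ∀ s ∈ Icc a b, HasDerivAt Q (Q' s) s)
    (h0 : ∀ s ∈ Icc a b, 0 ≤ Q' s) (hab : Q a = Q b) : ∀ s ∈ Ioo a b, Q' s = 0 := by
  have hm : MonotoneOn Q (Icc a b) := monotoneOn_of_deriv_nonneg (convex_Icc a b)
    (fun s hs => (h s hs).continuousAt.continuousWithinAt)
    (fun s hs => (h s (interior_subset hs)).differentiableAt.differentiableWithinAt)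
    (fun s hs => by rw [(h s (interior_subset hs)).deriv]; exact h0 s (interior_subset hs))
  intro s hs
  have hle : a ≤ b := (hs.1.trans hs.2).le
  refine (h s (Ioo_subset_Icc_self hs)).unique
    ((hasDerivAt_const s (Q a)).congr_of_eventuallyEq ?_)
  filter_upwards [isOpen_Ioo.mem_nhds hs] with r hr
  exact le_antisymm (hab ▸ hm (Ioo_subset_Icc_self hr) (right_mem_Icc.2 hle) hr.2.le)
    (hm (left_mem_Icc.2 hle) (Ioo_subset_Icc_self hr) hr.1.le)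

/-- the inverse of an increasing function -/
theorem time_inv {h h' : ℝ → ℝ} (hs : ContDiff ℝ ∞ h) (hd : ∀ s, HasDerivAt h (h' s) s) {a b : ℝ}
    (hab : a ≤ b) (hp : ∀ s ∈ Icc a b, 0 < h' s) :
    ∃ ζ : ℝ → ℝ, ζ (h a) = a ∧ ζ (h b) = b ∧ ∀ t ∈ Icc (h a) (h b), ζ t ∈ Icc a b ∧
      HasDerivAt ζ (h' (ζ t))⁻¹ t := by
  have hm : StrictMonoOn h (Icc a b) := strictMonoOn_of_deriv_pos (convex_Icc a b)
    hs.continuous.continuousOn fun s hs => by rw [(hd s).deriv]; exact hp s (interior_subset hs)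
  obtain ⟨O, Ψ, hO, hKO, -, hO', hΨ, hl, -⟩ := inv_smooth rfl hs isCompact_Icc univ_mem hm.injOn
    (fun z hz => by
      rw [(hd z).hasFDerivAt.fderiv]
      intro u v huv
      simpa [(hp z hz).ne'] using huv)
  refine ⟨Ψ, hl a (hKO (left_mem_Icc.2 hab)), hl b (hKO (right_mem_Icc.2 hab)), fun t ht => ?_⟩
  obtain ⟨s, hs', rfl⟩ := intermediate_value_Icc hab hs.continuous.continuousOn ht
  rw [hl s (hKO hs')]
  refine ⟨hs', ?_⟩
  have h1 := ((hΨ.contDiffAt (hO'.mem_nhds ⟨s, hKO hs', rfl⟩)).differentiableAt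
    (by simp)).hasDerivAt
  have h2 := (h1.comp s (hd s)).unique
    ((hasDerivAt_id s).congr_of_eventuallyEq (mem_of_superset (hO.mem_nhds (hKO hs')) hl))
  exact h1.congr_deriv (eq_inv_of_mul_eq_one_left h2)

/-- the moment curve -/
def mom (d : ℕ) (s : ℝ) : Fin d → ℝ := fun i => s ^ (i : ℕ)

theorem mom_smooth (d : ℕ) : ContDiff ℝ ∞ (mom d) := contDiff_pi.2 fun _ => contDiff_id.pow _

theorem mom_zero {d : ℕ} {v : Fin d → ℝ} {a b : ℝ} (hab : a < b)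
    (h : ∀ s ∈ Ioo a b, mom d s ⬝ᵥ v = 0) : v = 0 := by
  let g := (Ioo_infinite hab).natEmbedding
  refine Matrix.eq_zero_of_forall_index_sum_pow_mul_eq_zero (f := fun j : Fin d => (g j : ℝ))
    (fun i j hij => Fin.ext (g.injective (Subtype.ext hij))) fun j => h _ (g j).2

theorem nondeg {d : ℕ} {D : ℝ → Fin d → ℝ} {c : ℝ → ℝ} {η : Fin d → ℝ} {a b a' b' : ℝ}
    (h : ∀ s ∈ Icc a b, HasDerivAt D ((c s * (mom d s ⬝ᵥ η)) • mom d s) s)
    (h0 : ∀ s ∈ Icc a b, 0 ≤ c s) (hab : D a = D b) (h1 : a' < b') (h2 : a ≤ a') (h3 : b' ≤ b)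
    (h4 : ∀ s ∈ Ioo a' b', 0 < c s) : η = 0 := by
  let L : (Fin d → ℝ) →L[ℝ] ℝ := LinearMap.toContinuousLinearMap (dotProductBilin ℝ ℝ η)
  have hL : ∀ v, L v = η ⬝ᵥ v := fun _ => rfl
  have := zero_of_mono (Q := fun s => L (D s)) (Q' := fun s => c s * (mom d s ⬝ᵥ η) ^ 2)
    (fun s hs => (L.hasFDerivAt.comp_hasDerivAt s (h s hs)).congr_deriv (by
      rw [hL, dotProduct_smul, dotProduct_comm η, smul_eq_mul]; ring))
    (fun s hs => mul_nonneg (h0 s hs) (sq_nonneg _)) (by rw [hab])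
  refine mom_zero h1 fun s hs => ?_
  have h5 := this s ⟨h2.trans_lt hs.1, hs.2.trans_le h3⟩
  exact pow_eq_zero_iff two_ne_zero |>.1 ((mul_eq_zero.1 h5).resolve_left (h4 s hs).ne')

end Pool.Agent.Work.MP_c4e502_gt
end

-- merged part: Pool.Agent.Work.MP_c4e502_gt.GenB
section
/-!
Hamilton's equations in terms of the frame, uniqueness, characteristics, modules of brackets.
-/

namespace Pool.Agent.Work.MP_c4e502_gt

open scoped ContDiff Topology
open Filter Set Function VectorField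

variable {n k : ℕ} {X : Fin k → (Fin n → ℝ) → Fin n → ℝ}

/-- the scalar product with a vector -/
noncomputable def dotL (a : Fin n → ℝ) : (Fin n → ℝ) →L[ℝ] ℝ :=
  LinearMap.toContinuousLinearMap (dotProductBilin ℝ ℝ a)

theorem dotL_apply (a v : Fin n → ℝ) : dotL a v = a ⬝ᵥ v := rfl

/-- the velocity -/
def vel (X : Fin k → (Fin n → ℝ) → Fin n → ℝ) (x p : Fin n → ℝ) : Fin n → ℝ :=
  ∑ i, (p ⬝ᵥ X i x) • X i x

/-- the force -/
noncomputable def frce (X : Fin k → (Fin n → ℝ) → Fin n → ℝ) (x p : Fin n → ℝ) : Fin n → ℝ :=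
  fun j => -∑ i, (p ⬝ᵥ X i x) * (p ⬝ᵥ fderiv ℝ (X i) x (Pi.single j 1))

theorem vel_smul (x p : Fin n → ℝ) (r : ℝ) : vel X x (r • p) = r • vel X x p := by
  simp only [vel, smul_dotProduct, Finset.smul_sum, smul_eq_mul, mul_smul]

theorem frce_smul (x p : Fin n → ℝ) (r : ℝ) : frce X x (r • p) = r ^ 2 • frce X x p := by
  ext j
  simp only [frce, smul_dotProduct, smul_eq_mul, Pi.smul_apply, mul_neg, Finset.mul_sum]
  congr 1
  exact Finset.sum_congr rfl fun i _ => by ring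

theorem ham_vel (x p : Fin n → ℝ) :
    (fun j => fderiv ℝ (fun r => ham X x r) p (Pi.single j 1)) = vel X x p := by
  have h := (HasFDerivAt.fun_sum (u := Finset.univ) fun i _ =>
    ((dotL (X i x)).hasFDerivAt (x := p)).pow 2).const_mul (1 / 2 : ℝ)
  have e : (fun r => ham X x r) = fun r => 1 / 2 * ∑ i, dotL (X i x) r ^ 2 := by
    simp only [ham, dotProduct_comm _ (X _ x), dotL_apply]
  rw [e, h.fderiv]
  ext j
  simp [dotL_apply, vel, Finset.mul_sum, dotProduct_comm p, mul_assoc]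

theorem ham_frce (hX : ∀ i, ContDiff ℝ ∞ (X i)) (x p : Fin n → ℝ) :
    (fun j => -fderiv ℝ (fun y => ham X y p) x (Pi.single j 1)) = frce X x p := by
  have h := (HasFDerivAt.fun_sum (u := Finset.univ) fun i _ =>
    (((dotL p).hasFDerivAt.comp x ((hX i).differentiable (by simp) x).hasFDerivAt)).pow 2
    ).const_mul (1 / 2 : ℝ)
  have e : (fun y => ham X y p) = fun y => 1 / 2 * ∑ i, (dotL p ∘ X i) y ^ 2 := by
    simp only [ham, Function.comp, dotL_apply]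
  rw [e, h.fderiv]
  ext j
  simp [dotL_apply, frce, Finset.mul_sum, mul_assoc]

theorem arc_iff (hX : ∀ i, ContDiff ℝ ∞ (X i)) {x p : ℝ → Fin n → ℝ} : IsNormalArc X x p ↔
    ∀ t ∈ Icc (0 : ℝ) 1, HasDerivAt x (vel X (x t) (p t)) t ∧
      HasDerivAt p (frce X (x t) (p t)) t := by
  simp only [IsNormalArc, ham_vel, ham_frce hX]

theorem dot_smooth {A : Type} [NormedAddCommGroup A] [NormedSpace ℝ A] {f g : A → Fin n → ℝ}
    (hf : ContDiff ℝ ∞ f) (hg : ContDiff ℝ ∞ g) : ContDiff ℝ ∞ fun z => f z ⬝ᵥ g z :=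
  ContDiff.sum fun i _ => (contDiff_pi.1 hf i).mul (contDiff_pi.1 hg i)

theorem arc_unique (hX : ∀ i, ContDiff ℝ ∞ (X i)) {x p x' p' : ℝ → Fin n → ℝ}
    (h : IsNormalArc X x p) (h' : IsNormalArc X x' p') (h1 : x 0 = x' 0) (h2 : p 0 = p' 0) :
    x 1 = x' 1 := by
  rw [arc_iff hX] at h h'
  let v : (Fin n → ℝ) × (Fin n → ℝ) → (Fin n → ℝ) × (Fin n → ℝ) :=
    fun w => (vel X w.1 w.2, frce X w.1 w.2)
  have hv : ContDiff ℝ ∞ v := by
    have a : ∀ i, ContDiff ℝ ∞ fun w : (Fin n → ℝ) × (Fin n → ℝ) => w.2 ⬝ᵥ X i w.1 := fun i =>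
      dot_smooth contDiff_snd ((hX i).comp contDiff_fst)
    refine (ContDiff.sum fun i _ => (a i).smul ((hX i).comp contDiff_fst)).prodMk
      (contDiff_pi.2 fun j => (ContDiff.sum fun i _ => (a i).mul (dot_smooth contDiff_snd ?_)).neg)
    exact ((((hX i).fderiv_right (m := ∞) le_rfl).comp contDiff_fst).clm_apply contDiff_const)
  have c1 : ContinuousOn (fun t => (x t, p t)) (Icc 0 1) := fun t ht =>
    ((h t ht).1.prodMk (h t ht).2).continuousAt.continuousWithinAt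
  have c2 : ContinuousOn (fun t => (x' t, p' t)) (Icc 0 1) := fun t ht =>
    ((h' t ht).1.prodMk (h' t ht).2).continuousAt.continuousWithinAt
  obtain ⟨R, hR⟩ := ((isCompact_Icc.image_of_continuousOn c1).union
    (isCompact_Icc.image_of_continuousOn c2)).isBounded.subset_closedBall 0
  obtain ⟨K, hK⟩ := hv.contDiffOn.exists_lipschitzOnWith (by simp) (convex_closedBall 0 R)
    (isCompact_closedBall 0 R)
  have := ODE_solution_unique_of_mem_Icc_right (v := fun _ => v)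
    (s := fun _ => Metric.closedBall 0 R) (fun _ _ => hK) c1
    (fun t ht => ((h t (Ico_subset_Icc_self ht)).1.prodMk
      (h t (Ico_subset_Icc_self ht)).2).hasDerivWithinAt)
    (fun t ht => hR (Or.inl ⟨t, Ico_subset_Icc_self ht, rfl⟩)) c2
    (fun t ht => ((h' t (Ico_subset_Icc_self ht)).1.prodMk
      (h' t (Ico_subset_Icc_self ht)).2).hasDerivWithinAt)
    (fun t ht => hR (Or.inr ⟨t, Ico_subset_Icc_self ht, rfl⟩)) (Prod.ext h1 h2)
    (right_mem_Icc.2 zero_le_one)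
  exact congrArg Prod.fst this

/-- the gradient in coordinates -/
noncomputable def grad (T : (Fin n → ℝ) → ℝ) (y : Fin n → ℝ) : Fin n → ℝ :=
  fun j => fderiv ℝ T y (Pi.single j 1)

theorem clm_dot (L : (Fin n → ℝ) →L[ℝ] ℝ) (v : Fin n → ℝ) :
    (fun j => L (Pi.single j 1)) ⬝ᵥ v = L v := by
  conv_rhs => rw [← Finset.univ_sum_single v, map_sum]
  refine Finset.sum_congr rfl fun j _ => ?_
  rw [mul_comm, ← smul_eq_mul, ← map_smul, ← Pi.single_smul, smul_eq_mul, mul_one]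

theorem grad_dot (T : (Fin n → ℝ) → ℝ) (y v : Fin n → ℝ) : grad T y ⬝ᵥ v = fderiv ℝ T y v :=
  clm_dot _ v

/-- the method of characteristics -/
theorem characteristics (hX : ∀ i, ContDiff ℝ ∞ (X i)) {T : (Fin n → ℝ) → ℝ} {x : ℝ → Fin n → ℝ}
    {t r : ℝ} (hT : ContDiffAt ℝ ∞ T (x t))
    (he : ∀ᶠ y in 𝓝 (x t), ∑ i, fderiv ℝ T y (X i y) ^ 2 = 1)
    (hx : HasDerivAt x (vel X (x t) (r • grad T (x t))) t) :
    HasDerivAt (fun s => r • grad T (x s)) (frce X (x t) (r • grad T (x t))) t := by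
  have h1 : HasFDerivAt (fderiv ℝ T) (fderiv ℝ (fderiv ℝ T) (x t)) (x t) :=
    ((hT.fderiv_right (m := ∞) le_rfl).differentiableAt (by simp)).hasFDerivAt
  have hs := hT.isSymmSndFDerivAt (by
    simp only [minSmoothness_of_isRCLikeNormedField]
    exact WithTop.coe_le_coe.2 (le_top (a := (2 : ℕ∞))))
  have h2 := (HasFDerivAt.fun_sum (u := Finset.univ) fun i _ =>
    (h1.clm_apply ((hX i).differentiable (by simp) (x t)).hasFDerivAt).pow 2).unique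
    ((hasFDerivAt_const (1 : ℝ) (x t)).congr_of_eventuallyEq he)
  refine hasDerivAt_pi.2 fun j => ?_
  have h3 := (((h1.comp_hasDerivAt t hx).clm_apply
    (hasDerivAt_const t (Pi.single j (1 : ℝ) : Fin n → ℝ))).const_mul r)
  refine h3.congr_deriv ?_
  have h4 := congrArg (fun L => L (Pi.single j 1)) h2
  simp only [FunLike.coe_sum, Finset.sum_apply, _root_.smul_apply,
    _root_.add_apply, ContinuousLinearMap.comp_apply,
    ContinuousLinearMap.flip_apply, _root_.zero_apply, smul_eq_mul, nsmul_eq_mul,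
    Nat.add_one_sub_one, pow_one, Nat.cast_ofNat, mul_add, Finset.sum_add_distrib, mul_assoc,
    ← Finset.mul_sum] at h4
  simp only [vel, frce, smul_dotProduct, grad_dot, map_zero, add_zero, map_sum, map_smul,
    FunLike.coe_sum, Finset.sum_apply, _root_.smul_apply, smul_eq_mul,
    hs.eq _ (Pi.single j 1), mul_assoc, mul_left_comm _ r, ← Finset.mul_sum]
  linear_combination r * r / 2 * h4

theorem IsBracket.smooth (hX : ∀ i, ContDiff ℝ ∞ (X i)) {Y : (Fin n → ℝ) → Fin n → ℝ}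
    (h : IsBracket X Y) : ContDiff ℝ ∞ Y := by
  induction h with
  | base i => exact hX i
  | lie _ _ h1 h2 => exact h1.lieBracket_vectorField h2 le_rfl

/-- combinations of brackets with smooth coefficients -/
inductive Cmb (X : Fin k → (Fin n → ℝ) → Fin n → ℝ) : ((Fin n → ℝ) → Fin n → ℝ) → Prop
  | mk {φ : (Fin n → ℝ) → ℝ} {Y : (Fin n → ℝ) → Fin n → ℝ} :
      ContDiff ℝ ∞ φ → IsBracket X Y → Cmb X fun y => φ y • Y y
  | add {Y Z : (Fin n → ℝ) → Fin n → ℝ} : Cmb X Y → Cmb X Z → Cmb X (Y + Z)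

variable {Y Z : (Fin n → ℝ) → Fin n → ℝ}

theorem Cmb.of (h : IsBracket X Y) : Cmb X Y := by
  simpa using Cmb.mk (φ := fun _ => 1) contDiff_const h

theorem Cmb.smooth (hX : ∀ i, ContDiff ℝ ∞ (X i)) (h : Cmb X Y) : ContDiff ℝ ∞ Y := by
  induction h with
  | mk h1 h2 => exact h1.smul (h2.smooth hX)
  | add _ _ h1 h2 => exact h1.add h2

theorem Cmb.smul (h : Cmb X Y) {φ : (Fin n → ℝ) → ℝ} (hφ : ContDiff ℝ ∞ φ) :
    Cmb X fun y => φ y • Y y := by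
  induction h with
  | mk h1 h2 => simpa only [smul_smul] using Cmb.mk (hφ.mul h1) h2
  | add _ _ h1 h2 =>
    convert h1.add h2 using 1
    funext y
    exact smul_add _ _ _

theorem Cmb.mem (h : Cmb X Y) (x : Fin n → ℝ) :
    Y x ∈ Submodule.span ℝ {v | ∃ Y, IsBracket X Y ∧ Y x = v} := by
  induction h with
  | mk _ h2 => exact Submodule.smul_mem _ _ (Submodule.subset_span ⟨_, h2, rfl⟩)
  | add _ _ h1 h2 => exact Submodule.add_mem _ h1 h2

theorem Cmb.lie₁ (hX : ∀ i, ContDiff ℝ ∞ (X i)) (hY : IsBracket X Y) (h : Cmb X Z) :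
    Cmb X (lieBracket ℝ Y Z) := by
  induction h with
  | @mk φ W h1 h2 =>
    have := (Cmb.mk (φ := fun y => fderiv ℝ φ y (Y y))
      ((h1.fderiv_right (m := ∞) le_rfl).clm_apply (hY.smooth hX)) h2).add (Cmb.mk h1 (hY.lie h2))
    convert this using 1
    funext y
    exact lieBracket_smul_right (h1.differentiable (by simp) y)
      ((h2.smooth hX).differentiable (by simp) y)
  | add g1 g2 h1 h2 =>
    convert h1.add h2 using 1
    funext y
    exact lieBracket_add_right ((g1.smooth hX).differentiable (by simp) y)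
      ((g2.smooth hX).differentiable (by simp) y)

theorem Cmb.lie (hX : ∀ i, ContDiff ℝ ∞ (X i)) (h : Cmb X Y) (hZ : Cmb X Z) :
    Cmb X (lieBracket ℝ Y Z) := by
  induction h with
  | @mk φ W h1 h2 =>
    have := (Cmb.mk (φ := fun y => -fderiv ℝ φ y (Z y))
      ((h1.fderiv_right (m := ∞) le_rfl).clm_apply (hZ.smooth hX)).neg h2).add
      ((hZ.lie₁ hX h2).smul h1)
    convert this using 1
    funext y
    exact lieBracket_smul_left (h1.differentiable (by simp) y)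
      ((h2.smooth hX).differentiable (by simp) y)
  | add g1 g2 h1 h2 =>
    convert h1.add h2 using 1
    funext y
    exact lieBracket_add_left ((g1.smooth hX).differentiable (by simp) y)
      ((g2.smooth hX).differentiable (by simp) y)

end Pool.Agent.Work.MP_c4e502_gt
end

-- merged part: Pool.Agent.Work.MP_c4e502_gt.Frame
section
/-!
The rank two frames `exp α ∂₀ + α' m`, `m`, where `m` is the moment curve in the first coordinate.
-/

namespace Pool.Agent.Work.MP_c4e502_gt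

open scoped ContDiff Topology
open Filter Set Function VectorField

variable {d : ℕ}

/-- joining the first coordinate and the others -/
def J (d : ℕ) : (ℝ × (Fin d → ℝ)) ≃L[ℝ] (Fin (d + 1) → ℝ) := Fin.consEquivL ℝ fun _ => ℝ

@[simp] theorem J_zero (z : ℝ × (Fin d → ℝ)) : J d z 0 = z.1 := rfl

@[simp] theorem J_succ (z : ℝ × (Fin d → ℝ)) (i : Fin d) : J d z i.succ = z.2 i := rfl

theorem J_dot (z w : ℝ × (Fin d → ℝ)) : J d z ⬝ᵥ J d w = z.1 * w.1 + z.2 ⬝ᵥ w.2 := by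
  simp [dotProduct, Fin.sum_univ_succ]

/-- derivatives of the moment curve -/
def dmom (d j : ℕ) (s : ℝ) : Fin d → ℝ := fun i => ((i : ℕ).descFactorial j : ℝ) * s ^ (i - j : ℕ)

theorem dmom_zero : dmom d 0 = mom d := by
  ext s i
  simp [dmom, mom]

theorem dmom_smooth (j : ℕ) : ContDiff ℝ ∞ (dmom d j) :=
  contDiff_pi.2 fun _ => contDiff_const.mul (contDiff_id.pow _)

theorem dmom_deriv (j : ℕ) (s : ℝ) : HasDerivAt (dmom d j) (dmom d (j + 1) s) s := by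
  refine hasDerivAt_pi.2 fun i => (((hasDerivAt_id s).pow _).const_mul _).congr_deriv ?_
  simp only [dmom, Nat.descFactorial_succ, Nat.cast_mul, id, Nat.sub_sub]
  ring

theorem mom_deriv (s : ℝ) : HasDerivAt (mom d) (dmom d 1 s) s := by
  simpa only [dmom_zero] using dmom_deriv (d := d) 0 s

/-- the field attached to a curve -/
def fld (c : ℝ → Fin d → ℝ) (y : Fin (d + 1) → ℝ) : Fin (d + 1) → ℝ := J d (0, c (y 0))

theorem fld_fderiv {c : ℝ → Fin d → ℝ} {c' : Fin d → ℝ} {y : Fin (d + 1) → ℝ}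
    (h : HasDerivAt c c' (y 0)) (v : Fin (d + 1) → ℝ) :
    fderiv ℝ (fld c) y v = J d (0, v 0 • c') := by
  have h1 := (J d).hasFDerivAt.comp y ((hasFDerivAt_const (0 : ℝ) y).prodMk
    (h.hasFDerivAt.comp y (hasFDerivAt_apply (𝕜 := ℝ) 0 y)))
  have h2 : fld c = _ := rfl
  rw [show fderiv ℝ (fld c) y = _ from h1.fderiv]
  simp

theorem fld_smooth {c : ℝ → Fin d → ℝ} (h : ContDiff ℝ ∞ c) : ContDiff ℝ ∞ (fld c) :=
  (J d).contDiff.comp (contDiff_const.prodMk (h.comp (contDiff_apply ℝ ℝ 0)))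

/-- the frame -/
noncomputable def frm (α : (Fin (d + 1) → ℝ) → ℝ × ℝ) :
    Fin 2 → (Fin (d + 1) → ℝ) → Fin (d + 1) → ℝ :=
  ![fun y => Real.exp (α y).1 • J d (1, 0) + (α y).2 • fld (mom d) y, fld (mom d)]

variable {α : (Fin (d + 1) → ℝ) → ℝ × ℝ}

theorem frm_zero (y : Fin (d + 1) → ℝ) :
    frm α 0 y = Real.exp (α y).1 • J d (1, 0) + (α y).2 • fld (mom d) y := rfl

theorem frm_one : frm α 1 = fld (mom d) := rfl

theorem frm_smooth (hα : ContDiff ℝ ∞ α) : ∀ i, ContDiff ℝ ∞ (frm α i) :=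
  Fin.forall_fin_two.2 ⟨(hα.fst.exp.smul contDiff_const).add
    (hα.snd.smul (fld_smooth (mom_smooth d))), fld_smooth (mom_smooth d)⟩

theorem frm_ok {α : (Fin (d + 2) → ℝ) → ℝ × ℝ} (hα : ContDiff ℝ ∞ α) : IsSubRiemFrame (frm α) where
  smooth := frm_smooth hα
  indep x := by
    rw [Fintype.linearIndependent_iff]
    intro g hg
    have h0 := congrFun hg 0
    have h1 := congrFun hg (Fin.succ 0)
    simp only [Fin.sum_univ_two, frm_zero, frm_one, fld, Pi.add_apply, Pi.smul_apply, J_zero,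
      J_succ, smul_eq_mul, mul_zero, add_zero, mul_one, Pi.zero_apply, mul_eq_zero,
      Real.exp_ne_zero, or_false] at h0 h1
    refine Fin.forall_fin_two.2 ⟨h0, ?_⟩
    simpa [h0, mom] using h1
  gen x := by
    have hX := frm_smooth hα
    have c0 : Cmb (frm α) fun _ => J (d + 1) (1, 0) := by
      have := ((Cmb.of (IsBracket.base (X := frm α) 0)).add
        ((Cmb.of (IsBracket.base (X := frm α) 1)).smul hα.snd.neg)).smul hα.fst.neg.exp
      convert this using 1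
      funext y
      simp [frm_zero, frm_one, smul_smul, ← Real.exp_add]
    have c1 : ∀ j, Cmb (frm α) (fld (dmom (d + 1) j)) := by
      intro j
      induction j with
      | zero => rw [dmom_zero]; exact Cmb.of (IsBracket.base 1)
      | succ j ih =>
        convert c0.lie hX ih using 1
        funext y
        simp [lieBracket, fld_fderiv (dmom_deriv j (y 0)), fld]
    set S := Submodule.span ℝ {v | ∃ Y, IsBracket (frm α) Y ∧ Y x = v}
    have h1 : ∀ m : ℕ, ∀ v : Fin (d + 1) → ℝ, (∀ i : Fin (d + 1), (i : ℕ) + m < d + 1 → v i = 0) →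
        J (d + 1) (0, v) ∈ S := by
      intro m
      induction m with
      | zero =>
        intro v hv
        rw [show v = 0 from funext fun i => hv i i.2]
        exact (map_zero (J (d + 1))).symm ▸ S.zero_mem
      | succ m ih =>
        intro v hv
        by_cases hm : d < m
        · exact ih v fun i hi => absurd hi (by omega)
        let j : Fin (d + 1) := ⟨d - m, by omega⟩
        have h2 := ih (v - (v j / (j : ℕ).factorial) • dmom (d + 1) j (x 0)) fun i hi => by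
          rcases eq_or_ne i j with rfl | h
          · simp [dmom, Nat.descFactorial_self, Nat.factorial_ne_zero]
          · have h3 : (i : ℕ) < j := by
              have : (i : ℕ) ≠ j := fun a => h (Fin.ext a)
              simp only [j] at this ⊢
              omega
            simp [dmom, Nat.descFactorial_eq_zero_iff_lt.2 h3, hv i (by simp only [j] at h3; omega)]
        have h4 := S.add_mem h2 (S.smul_mem (v j / (j : ℕ).factorial) ((c1 j).mem x))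
        simpa [fld, ← map_smul, ← map_add] using h4
    refine eq_top_iff.2 fun v _ => ?_
    obtain ⟨⟨a, w⟩, rfl⟩ := (J (d + 1)).surjective v
    have h5 := S.add_mem (S.smul_mem a (c0.mem x)) (h1 (d + 1) w fun i hi => absurd hi (by omega))
    simpa [← map_smul, ← map_add] using h5

theorem vel_frm (y : Fin (d + 1) → ℝ) (p : ℝ) (P : Fin d → ℝ) : vel (frm α) y (J d (p, P)) =
    J d ((Real.exp (α y).1 * p + (α y).2 * (mom d (y 0) ⬝ᵥ P)) * Real.exp (α y).1,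
      ((Real.exp (α y).1 * p + (α y).2 * (mom d (y 0) ⬝ᵥ P)) * (α y).2 + mom d (y 0) ⬝ᵥ P) •
        mom d (y 0)) := by
  simp only [vel, Fin.sum_univ_two, frm_zero, frm_one, fld, ← map_smul, ← map_add, J_dot,
    dotProduct_comm P, Prod.smul_mk, Prod.mk_add_mk, smul_eq_mul, mul_zero, mul_one, add_zero,
    smul_zero, zero_add, smul_dotProduct, smul_smul, add_smul, mul_comm p, zero_mul, add_mul]

theorem frce_frm {y : Fin (d + 1) → ℝ} (h : ∀ᶠ w in 𝓝 y, α w = 0) (p : ℝ) (P : Fin d → ℝ) :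
    frce (frm α) y (J d (p, P)) =
      J d (-((mom d (y 0) ⬝ᵥ P) * (dmom d 1 (y 0) ⬝ᵥ P)), 0) := by
  have h1 : fderiv ℝ (frm α 0) y = 0 := by
    have : frm α 0 =ᶠ[𝓝 y] fun _ => J d (1, 0) := h.mono fun w hw => by simp [frm_zero, hw]
    rw [this.fderiv_eq, fderiv_fun_const]
    rfl
  ext j
  simp only [frce, Fin.sum_univ_two, h1, frm_one, fld_fderiv (mom_deriv (y 0)), fld, J_dot,
    dotProduct_comm P]
  refine Fin.cases ?_ (fun i => ?_) j <;> simp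

end Pool.Agent.Work.MP_c4e502_gt
end

-- merged part: Pool.Agent.Work.MP_c4e502_gt.Profile
section
/-!
The profile functions of the straight part and the auxiliary parametrisation.
-/

namespace Pool.Agent.Work.MP_c4e502_gt

open scoped ContDiff Topology
open Filter Set Function

/-- the identities of the profile that hold near zero -/
def Good (S f f' g : ℝ → ℝ) (u : ℝ) : Prop :=
  0 < S u ∧ S u ^ 2 + u ^ 2 = 1 ∧ f u * S u = u ∧ g u * S u = 1 ∧ 0 < f' u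

/-- the profile -/
structure Prof (S f f' g : ℝ → ℝ) : Prop where
  sS : ContDiff ℝ ∞ S
  sf : ContDiff ℝ ∞ f
  sg : ContDiff ℝ ∞ g
  dS : ∀ u, HasDerivAt S (-f u) u
  df : ∀ u, HasDerivAt f (f' u) u
  dg : ∀ u, HasDerivAt g (u * f' u) u
  good : ∀ᶠ u in 𝓝 0, Good S f f' g u

theorem exists_prof : ∃ S f f' g, Prof S f f' g := by
  obtain ⟨S, hS, h1, -⟩ := ext_smooth (A := ℝ) (O := Ioo (-1) 1) (K := {0}) isOpen_Ioo
    isClosed_singleton (by simp) (F := fun u => √(1 - u ^ 2))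
    (ContDiffOn.sqrt (by fun_prop) fun u hu => by nlinarith [hu.1, hu.2])
  rw [nhdsSet_singleton] at h1
  obtain ⟨f, hf, dS⟩ : ∃ f : ℝ → ℝ, ContDiff ℝ ∞ f ∧ ∀ u, HasDerivAt S (-f u) u :=
    ⟨fun u => -deriv S u, (hS.iterate_deriv 1).neg, fun u => by
      simpa using (hS.differentiable (by simp) u).hasDerivAt⟩
  have df := fun u => (hf.differentiable (by simp) u).hasDerivAt
  have e1 : ∀ᶠ u in 𝓝 (0 : ℝ), 0 < S u ∧ S u ^ 2 + u ^ 2 = 1 := by
    filter_upwards [h1, Ioo_mem_nhds (a := -1) (b := 1) (by simp) (by simp)] with u h hu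
    have : 0 < 1 - u ^ 2 := by nlinarith [hu.1, hu.2]
    rw [h, Real.sq_sqrt this.le]
    exact ⟨Real.sqrt_pos.2 this, by ring⟩
  have e2 : ∀ᶠ u in 𝓝 (0 : ℝ), f u * S u = u := by
    filter_upwards [e1.eventually_nhds] with u h
    have := (((dS u).pow 2).add ((hasDerivAt_id u).pow 2)).unique
      ((hasDerivAt_const u (1 : ℝ)).congr_of_eventuallyEq (h.mono fun _ h => h.2))
    simp only [Nat.cast_ofNat, Nat.add_one_sub_one, pow_one, id] at this
    linarith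
  refine ⟨S, f, deriv f, fun u => S u + u * f u, hS, hf, by fun_prop, dS, df, fun u =>
    ((dS u).add ((hasDerivAt_id u).mul (df u))).congr_deriv (by simp), ?_⟩
  filter_upwards [e1, e2, e2.eventually_nhds] with u h1 h2 h3
  refine ⟨h1.1, h1.2, h2, by linear_combination h1.2 + u * h2, ?_⟩
  have := ((df u).mul (dS u)).unique ((hasDerivAt_id u).congr_of_eventuallyEq h3)
  refine (mul_pos_iff_of_pos_right h1.1).1 ?_
  nlinarith [sq_nonneg (f u)]

namespace Prof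

variable {S f f' g : ℝ → ℝ} (h : Prof S f f' g)
include h

theorem S0 : S 0 = 1 := by
  have := h.good.self_of_nhds
  nlinarith [this.1, this.2.1]

theorem f0 : f 0 = 0 := by simpa [h.S0] using h.good.self_of_nhds.2.2.1

theorem g0 : g 0 = 1 := by simpa [h.S0] using h.good.self_of_nhds.2.2.2.1

theorem pos : 0 < f' 0 := h.good.self_of_nhds.2.2.2.2

end Prof

variable {k : ℕ}

/-- the covector of the ray that touches the curve at the first coordinate of the parameter -/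
def psi (σ : Fin (k + 1) → ℝ) : Fin (k + 1) → ℝ :=
  σ + (σ 0 - mom (k + 1) (σ 0) ⬝ᵥ σ) • Pi.single 0 1

theorem psi_smooth : ContDiff ℝ ∞ (psi (k := k)) :=
  contDiff_id.add (((contDiff_apply ℝ ℝ 0).sub (dot_smooth
    ((mom_smooth _).comp (contDiff_apply ℝ ℝ 0)) contDiff_id)).smul contDiff_const)

theorem psi_zero : psi (0 : Fin (k + 1) → ℝ) = 0 := by simp [psi]

theorem mom_psi (σ : Fin (k + 1) → ℝ) : mom (k + 1) (σ 0) ⬝ᵥ psi σ = σ 0 := by
  simp [psi, mom]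

theorem psi_inj : Injective (fderiv ℝ (psi (k := k)) 0) := by
  have h1 : HasFDerivAt (fun σ : Fin (k + 1) → ℝ => mom (k + 1) (σ 0) ⬝ᵥ σ)
      (ContinuousLinearMap.proj (R := ℝ) (φ := fun _ => ℝ) 0) 0 := by
    have := HasFDerivAt.fun_sum (u := Finset.univ) fun (i : Fin (k + 1)) _ =>
      ((hasFDerivAt_apply (𝕜 := ℝ) 0 (0 : Fin (k + 1) → ℝ)).pow (i : ℕ)).mul
        (hasFDerivAt_apply (𝕜 := ℝ) i (0 : Fin (k + 1) → ℝ))
    refine this.congr_fderiv ?_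
    simp [Fin.sum_univ_succ]
  have h2 := (hasFDerivAt_id (0 : Fin (k + 1) → ℝ)).add
    (((hasFDerivAt_apply (𝕜 := ℝ) 0 (0 : Fin (k + 1) → ℝ)).sub h1).smul_const
      (Pi.single 0 1 : Fin (k + 1) → ℝ))
  rw [show fderiv ℝ (psi (k := k)) 0 = _ from h2.fderiv]
  intro a b hab
  simpa using hab

section
variable {P F : Type} [NormedAddCommGroup P] [NormedSpace ℝ P] [NormedAddCommGroup F]
  [NormedSpace ℝ F]

/-- the derivative in the parameter -/
noncomputable def dS (Z : ℝ × P → F) (z : ℝ × P) : P →L[ℝ] F := fderiv ℝ (fun r => Z (z.1, r)) z.2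

theorem fderiv_split {Z : ℝ × P → F} {z : ℝ × P} (hZ : ContDiff ℝ ∞ Z) {a : F}
    (h : HasDerivAt (fun s => Z (s, z.2)) a z.1) (ξ : ℝ) (η : P) :
    fderiv ℝ Z z (ξ, η) = ξ • a + dS Z z η := by
  have hd := (hZ.differentiable (by simp) z).hasFDerivAt
  have e1 : dS Z z = (fderiv ℝ Z z).comp (ContinuousLinearMap.inr ℝ ℝ P) :=
    (hd.comp z.2 (hasFDerivAt_prodMk_right z.1 z.2)).fderiv
  have e2 : a = fderiv ℝ Z z (1, 0) := h.unique (hd.comp_hasDerivAt z.1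
    ((hasDerivAt_id z.1).prodMk (hasDerivAt_const z.1 z.2)))
  rw [e1, e2, ← map_smul, ContinuousLinearMap.comp_apply, ← map_add]
  simp

/-- along a curve touched by the members of the family the parameter derivative vanishes -/
theorem dS_touch {Z : ℝ × (Fin (k + 1) → ℝ) → F} {σ : Fin (k + 1) → ℝ} (hZ : ContDiff ℝ ∞ Z)
    {a : F} {Δ : ℝ → F} (h : HasDerivAt (fun s => Z (s, σ)) a (σ 0)) (hΔ : HasDerivAt Δ a (σ 0))
    (he : ∀ᶠ r in 𝓝 σ, Z (r 0, r) = Δ (r 0)) : dS Z (σ 0, σ) = 0 := by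
  have h1 := (hZ.differentiable (by simp) (σ 0, σ)).hasFDerivAt.comp σ (f := fun r => (r 0, r))
    ((hasFDerivAt_apply (𝕜 := ℝ) 0 σ).prodMk (hasFDerivAt_id σ))
  have h2 := h1.unique ((hΔ.hasFDerivAt.comp σ (hasFDerivAt_apply (𝕜 := ℝ) 0 σ)
    ).congr_of_eventuallyEq he)
  ext1 η
  have h3 := congrArg (fun L => L η) h2
  simpa [fderiv_split (z := (σ 0, σ)) hZ h] using h3

theorem dS_deriv {Z : ℝ × P → F} {W : ℝ → P → F} (hZ : ContDiff ℝ ∞ Z)
    (h : ∀ t p, HasDerivAt (fun s => Z (s, p)) (W t p) t) (t : ℝ) (p η : P) {a : P →L[ℝ] F}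
    (ha : HasFDerivAt (fun r => W t r) a p) :
    HasDerivAt (fun s => dS Z (s, p) η) (a η) t := by
  have := (hasDerivAt_fderiv (W := fun z => W z.1 z.2) hZ h t p).clm_apply (hasDerivAt_const t η)
  simpa [ha.fderiv, dS] using this

end

end Pool.Agent.Work.MP_c4e502_gt
end

-- merged part: Pool.Agent.Work.MP_c4e502_gt.Family
section
/-!
The family of curves: rays from the base point bent into the rays touching a horizontal curve.
-/

namespace Pool.Agent.Work.MP_c4e502_gt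

open scoped ContDiff Topology
open Filter Set Function

theorem exists_prim {P F : Type} [NormedAddCommGroup P] [NormedSpace ℝ P] [FiniteDimensional ℝ P]
    [NormedAddCommGroup F] [NormedSpace ℝ F] [CompleteSpace F] {g : ℝ × P → F}
    (hg : ContDiff ℝ ∞ g) {c : P → ℝ} (hc : ContDiff ℝ ∞ c) :
    ∃ Z : ℝ × P → F, ContDiff ℝ ∞ Z ∧ (∀ p, Z (c p, p) = 0) ∧
      ∀ t p, HasDerivAt (fun s => Z (s, p)) (g (t, p)) t :=
  ⟨fun z => prim g z - prim g (c z.2, z.2), (contDiff_prim hg).sub ((contDiff_prim hg).comp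
    ((hc.comp contDiff_snd).prodMk contDiff_snd)), fun _ => sub_self _,
    fun t p => (hasDerivAt_prim hg t p).sub_const (prim g (c p, p))⟩

theorem exists_prim₁ {F : Type} [NormedAddCommGroup F] [NormedSpace ℝ F] [CompleteSpace F]
    {g : ℝ → F} (hg : ContDiff ℝ ∞ g) :
    ∃ Z : ℝ → F, ContDiff ℝ ∞ Z ∧ Z 0 = 0 ∧ ∀ t, HasDerivAt Z (g t) t := by
  obtain ⟨Z, h1, h2, h3⟩ := exists_prim (P := ℝ) (hg.comp contDiff_fst) (c := fun _ => 0)
    contDiff_const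
  exact ⟨fun s => Z (s, 0), h1.comp (contDiff_id.prodMk contDiff_const), h2 0, fun t => h3 t 0⟩

/-- first cutoff -/
noncomputable def chi₁ (s : ℝ) : ℝ := Real.smoothTransition (-2 - s)

/-- second cutoff -/
noncomputable def chi₂ (s : ℝ) : ℝ := Real.smoothTransition (s + 2)

theorem chi₁_smooth : ContDiff ℝ ∞ chi₁ :=
  Real.smoothTransition.contDiff.comp (contDiff_const.sub contDiff_id)

theorem chi₂_smooth : ContDiff ℝ ∞ chi₂ :=
  Real.smoothTransition.contDiff.comp (contDiff_id.add contDiff_const)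

theorem chi₁_one {s : ℝ} (h : s ≤ -3) : chi₁ s = 1 :=
  Real.smoothTransition.one_of_one_le (by linarith)

theorem chi₁_zero {s : ℝ} (h : -2 ≤ s) : chi₁ s = 0 :=
  Real.smoothTransition.zero_of_nonpos (by linarith)

theorem chi₂_one {s : ℝ} (h : -1 ≤ s) : chi₂ s = 1 :=
  Real.smoothTransition.one_of_one_le (by linarith)

theorem chi₂_zero {s : ℝ} (h : s ≤ -2) : chi₂ s = 0 :=
  Real.smoothTransition.zero_of_nonpos (by linarith)

theorem chi₁_pos {s : ℝ} (h : s < -2) : 0 < chi₁ s :=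
  Real.smoothTransition.pos_of_pos (by linarith)

theorem chi₂_pos {s : ℝ} (h : -2 < s) : 0 < chi₂ s :=
  Real.smoothTransition.pos_of_pos (by linarith)

theorem chi₁_nonneg (s : ℝ) : 0 ≤ chi₁ s := Real.smoothTransition.nonneg _

theorem chi₂_nonneg (s : ℝ) : 0 ≤ chi₂ s := Real.smoothTransition.nonneg _

variable {d k : ℕ}

/-- the horizontal momentum along the family of covectors `ϑ` -/
def uu (ϑ : (Fin d → ℝ) → Fin d → ℝ) (z : ℝ × (Fin d → ℝ)) : ℝ := mom d z.1 ⬝ᵥ ϑ z.2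

theorem uu_smooth {ϑ : (Fin d → ℝ) → Fin d → ℝ} (h : ContDiff ℝ ∞ ϑ) : ContDiff ℝ ∞ (uu ϑ) :=
  dot_smooth ((mom_smooth d).comp contDiff_fst) (h.comp contDiff_snd)

theorem uu_zero {ϑ : (Fin d → ℝ) → Fin d → ℝ} (h : ϑ 0 = 0) (s : ℝ) : uu ϑ (s, 0) = 0 := by
  simp [uu, h]

theorem uu_fderiv {ϑ : (Fin d → ℝ) → Fin d → ℝ} (h : ContDiff ℝ ∞ ϑ) {φ φ' : ℝ → ℝ}
    (hφ : ∀ u, HasDerivAt φ (φ' u) u) (t : ℝ) (σ : Fin d → ℝ) :
    HasFDerivAt (fun r => φ (uu ϑ (t, r)))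
      (φ' (uu ϑ (t, σ)) • (dotL (mom d t)).comp (fderiv ℝ ϑ σ)) σ :=
  (hφ _).comp_hasFDerivAt σ ((dotL (mom d t)).hasFDerivAt.comp σ
    (h.differentiable (by simp) σ).hasFDerivAt)

/-- the slope of the family -/
noncomputable def bb (f : ℝ → ℝ) (θ : (Fin (k + 1) → ℝ) → Fin (k + 1) → ℝ)
    (z : ℝ × (Fin (k + 1) → ℝ)) : ℝ := chi₁ z.1 * f (uu θ z) + chi₂ z.1 * f (uu psi z)

/-- the curves of the family -/
structure Fam (f : ℝ → ℝ) (θ : (Fin (k + 1) → ℝ) → Fin (k + 1) → ℝ)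
    (W : ℝ × (Fin (k + 1) → ℝ) → Fin (k + 1) → ℝ) : Prop where
  sθ : ContDiff ℝ ∞ θ
  sW : ContDiff ℝ ∞ W
  θ0 : θ 0 = 0
  W4 : ∀ σ, W (-4, σ) = 0
  dW : ∀ t σ, HasDerivAt (fun s => W (s, σ)) (bb f θ (t, σ) • mom (k + 1) t) t
  touch : ∀ᶠ σ in 𝓝 (0 : Fin (k + 1) → ℝ), dS W (σ 0, σ) = 0

variable {S f f' g : ℝ → ℝ}

theorem exists_fam (h : Prof S f f' g) (k : ℕ) : ∃ θ W, Fam (k := k) f θ W := by
  have hm := (mom_smooth (k + 1)).comp (contDiff_fst (E := ℝ) (F := Fin (k + 1) → ℝ))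
  obtain ⟨Z₁, s1, z1, d1⟩ := exists_prim (g := fun z => (chi₁ z.1 * f (uu id z)) • mom (k + 1) z.1)
    (((chi₁_smooth.comp contDiff_fst).mul (h.sf.comp (uu_smooth contDiff_id))).smul hm)
    (c := fun _ => -4) contDiff_const
  obtain ⟨Z₂, s2, z2, d2⟩ := exists_prim (g := fun z => (chi₂ z.1 * f (uu psi z)) • mom (k + 1) z.1)
    (((chi₂_smooth.comp contDiff_fst).mul (h.sf.comp (uu_smooth psi_smooth))).smul hm)
    (c := fun _ => -4) contDiff_const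
  obtain ⟨Δ, s3, z3, d3⟩ := exists_prim₁ (h.sf.smul (mom_smooth (k + 1)))
  have sA : ContDiff ℝ ∞ fun ϑ => Z₁ (-2, ϑ) := s1.comp (contDiff_const.prodMk contDiff_id)
  have sB : ContDiff ℝ ∞ fun σ : Fin (k + 1) → ℝ => Δ (σ 0) - Z₂ (σ 0, σ) :=
    (s3.comp (contDiff_apply ℝ ℝ 0)).sub (s2.comp ((contDiff_apply ℝ ℝ 0).prodMk contDiff_id))
  have A0 : Z₁ (-2, 0) = 0 := by
    exact (const_of_zero (L := fun s => Z₁ (s, 0)) fun s _ =>
      (d1 s 0).congr_deriv (by simp [uu_zero (ϑ := id) rfl, h.f0])).trans (z1 0)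
  have B0 : Z₂ (0, 0) = 0 := by
    exact (const_of_zero (L := fun s => Z₂ (s, 0)) fun s _ =>
      (d2 s 0).congr_deriv (by simp [uu_zero psi_zero, h.f0])).trans (z2 0)
  obtain ⟨O, Ψ, hO, h0, -, hO', hΨ, hl, -⟩ := inv_smooth rfl sA (K := {0}) isCompact_singleton
    univ_mem (injOn_singleton _ _) (by
      rintro _ rfl
      refine (injective_iff_map_eq_zero _).2 fun η hη => ?_
      refine nondeg (D := fun s => dS Z₁ (s, 0) η) (c := fun s => chi₁ s * f' 0) (a := -4)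
        (b := -2) (a' := -4) (b' := -2) (fun s _ => ?_)
        (fun s _ => mul_nonneg (chi₁_nonneg s) h.pos.le) ?_ (by norm_num) le_rfl le_rfl
        fun s hs => mul_pos (chi₁_pos hs.2) h.pos
      · refine (dS_deriv s1 d1 s 0 η (((uu_fderiv contDiff_id h.df s 0).const_mul
          (chi₁ s)).smul_const (mom (k + 1) s))).congr_deriv ?_
        simp [uu_zero (ϑ := id) rfl, dotL_apply, mul_assoc]
      · refine Eq.trans ?_ hη.symm
        simp [dS, z1])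
  have m0 : (0 : Fin (k + 1) → ℝ) ∈
      (fun σ : Fin (k + 1) → ℝ => Δ (σ 0) - Z₂ (σ 0, σ)) ⁻¹' ((fun ϑ => Z₁ (-2, ϑ)) '' O) :=
    ⟨0, h0 rfl, by simp [A0, B0, z3]⟩
  have hP := hO'.preimage sB.continuous
  obtain ⟨θ, sθ, e, -⟩ := ext_smooth hP isClosed_singleton (singleton_subset_iff.2 m0)
    (hΨ.comp sB.contDiffOn fun _ h => h)
  rw [nhdsSet_singleton] at e
  have sW : ContDiff ℝ ∞ fun z : ℝ × (Fin (k + 1) → ℝ) => Z₁ (z.1, θ z.2) + Z₂ z :=
    (s1.comp (contDiff_fst.prodMk (sθ.comp contDiff_snd))).add s2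
  have dW : ∀ t σ, HasDerivAt (fun s => Z₁ (s, θ σ) + Z₂ (s, σ))
      (bb f θ (t, σ) • mom (k + 1) t) t := fun t σ =>
    ((d1 t (θ σ)).add (d2 t σ)).congr_deriv (by simp [bb, add_smul, uu])
  have e0 : ∀ᶠ σ in 𝓝 (0 : Fin (k + 1) → ℝ), -1 < σ 0 :=
    (continuous_apply 0).continuousAt.eventually (lt_mem_nhds (by simp))
  have e1 : ∀ᶠ σ in 𝓝 (0 : Fin (k + 1) → ℝ), Z₁ (σ 0, θ σ) + Z₂ (σ 0, σ) = Δ (σ 0) := by
    filter_upwards [e, e0, hP.mem_nhds m0] with σ h1 h2 ⟨ϑ, h3, h4⟩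
    have h5 : θ σ = ϑ := h1.trans ((congrArg Ψ h4.symm).trans (hl ϑ h3))
    have h6 : Z₁ (σ 0, ϑ) = Z₁ (-2, ϑ) := const_of_zero (L := fun s => Z₁ (s, ϑ)) fun s hs =>
      (d1 s ϑ).congr_deriv (by
        rw [uIcc_of_ge (by linarith)] at hs
        simp [chi₁_zero hs.1])
    rw [h5, h6, show Z₁ (-2, ϑ) = _ from h4, sub_add_cancel]
  refine ⟨θ, _, sθ, sW, ?_, fun σ => by simp [z1, z2], dW, ?_⟩
  · have := hl 0 (h0 rfl)
    rw [e.self_of_nhds]
    simpa [A0, B0, z3] using this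
  · filter_upwards [e0, e1.eventually_nhds] with σ h1 h2
    refine dS_touch sW (dW _ _) ((d3 _).congr_deriv ?_) h2
    simp [bb, uu, mom_psi, chi₁_zero (show -2 ≤ σ 0 by linarith), chi₂_one h1.le]

end Pool.Agent.Work.MP_c4e502_gt
end

-- merged part: Pool.Agent.Work.MP_c4e502_gt.Jacobi
section
/-!
The parameter derivative of the family and the time function.
-/

namespace Pool.Agent.Work.MP_c4e502_gt

open scoped ContDiff Topology
open Filter Set Function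

variable {k : ℕ} {S f f' g : ℝ → ℝ} {θ : (Fin (k + 1) → ℝ) → Fin (k + 1) → ℝ}
  {W : ℝ × (Fin (k + 1) → ℝ) → Fin (k + 1) → ℝ}

theorem ev_good (h : Prof S f f' g) {ϑ : (Fin (k + 1) → ℝ) → Fin (k + 1) → ℝ}
    (hs : ContDiff ℝ ∞ ϑ) (h0 : ϑ 0 = 0) (s : ℝ) :
    ∀ᶠ z in 𝓝 ((s, 0) : ℝ × (Fin (k + 1) → ℝ)), Good S f f' g (uu ϑ z) :=
  (uu_smooth hs).continuous.continuousAt.eventually (by rw [uu_zero h0]; exact h.good)

namespace Fam

variable (h : Prof S f f' g) (F : Fam f θ W)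
include h F

theorem sb : ContDiff ℝ ∞ (bb f θ) :=
  ((chi₁_smooth.comp contDiff_fst).mul (h.sf.comp (uu_smooth F.sθ))).add
    ((chi₂_smooth.comp contDiff_fst).mul (h.sf.comp (uu_smooth psi_smooth)))

theorem b0 (s : ℝ) : bb f θ (s, 0) = 0 := by simp [bb, uu_zero F.θ0, uu_zero psi_zero, h.f0]

theorem dD (s : ℝ) (σ η : Fin (k + 1) → ℝ) : HasDerivAt (fun s => dS W (s, σ) η)
    ((chi₁ s * f' (uu θ (s, σ)) * (mom (k + 1) s ⬝ᵥ fderiv ℝ θ σ η) +
      chi₂ s * f' (uu psi (s, σ)) * (mom (k + 1) s ⬝ᵥ fderiv ℝ psi σ η)) • mom (k + 1) s) s := by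
  refine (dS_deriv F.sW F.dW s σ η ((((uu_fderiv F.sθ h.df s σ).const_mul (chi₁ s)).add
    ((uu_fderiv psi_smooth h.df s σ).const_mul (chi₂ s))).smul_const
    (mom (k + 1) s))).congr_deriv ?_
  simp [dotL_apply, mul_assoc]

omit h in
theorem D4 (σ : Fin (k + 1) → ℝ) : dS W (-4, σ) = 0 := by simp [dS, F.W4]

omit h in
theorem D0 : dS W (0, 0) = 0 := F.touch.self_of_nhds

theorem injθ : Injective (fderiv ℝ θ 0) := by
  refine (injective_iff_map_eq_zero _).2 fun η hη => (injective_iff_map_eq_zero _).1 psi_inj _ ?_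
  refine nondeg (D := fun s => dS W (s, 0) η) (c := fun s => chi₂ s * f' 0) (a := -4)
    (b := 0) (a' := -2) (b' := 0) (fun s _ => (F.dD h s 0 η).congr_deriv ?_)
    (fun s _ => mul_nonneg (chi₂_nonneg s) h.pos.le) (by simp [F.D4, F.D0]) (by norm_num)
    (by norm_num) le_rfl fun s hs => mul_pos (chi₂_pos hs.1) h.pos
  simp [hη, uu_zero psi_zero]

theorem inj {x : ℝ} (h1 : -4 < x) (h2 : x < 0) : Injective (dS W (x, 0)) := by
  refine (injective_iff_map_eq_zero _).2 fun η hη => ?_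
  rcases le_total x (-2) with h3 | h3
  · refine (injective_iff_map_eq_zero _).1 (F.injθ h) _ ?_
    refine nondeg (D := fun s => dS W (s, 0) η) (c := fun s => chi₁ s * f' 0) (a := -4)
      (b := x) (a' := -4) (b' := x) (fun s hs => (F.dD h s 0 η).congr_deriv ?_)
      (fun s _ => mul_nonneg (chi₁_nonneg s) h.pos.le) (by simp [F.D4, hη]) h1
      le_rfl le_rfl fun s hs => mul_pos (chi₁_pos (hs.2.trans_le h3)) h.pos
    simp [chi₂_zero (hs.2.trans h3), uu_zero F.θ0]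
  · refine (injective_iff_map_eq_zero _).1 psi_inj _ ?_
    refine nondeg (D := fun s => dS W (s, 0) η) (c := fun s => chi₂ s * f' 0) (a := x)
      (b := 0) (a' := x) (b' := 0) (fun s hs => (F.dD h s 0 η).congr_deriv ?_)
      (fun s _ => mul_nonneg (chi₂_nonneg s) h.pos.le) (by simp [F.D0, hη]) h2
      le_rfl le_rfl fun s hs => mul_pos (chi₂_pos (h3.trans_lt hs.1)) h.pos
    simp [chi₁_zero (h3.trans hs.1), uu_zero psi_zero]

theorem conj : ∀ᶠ z in 𝓝 ((0, 0) : ℝ × (Fin (k + 1) → ℝ)),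
    Injective (dS W z) ↔ z.1 ≠ z.2 0 := by
  have e1 : ∀ᶠ σ in 𝓝 (0 : Fin (k + 1) → ℝ), ∀ s ∈ Icc (-1 : ℝ) 1, Good S f f' g (uu psi (s, σ)) :=
    isCompact_Icc.eventually_forall_of_forall_eventually fun s _ =>
      (continuous_swap.tendsto' (0, s) _ rfl).eventually (ev_good h psi_smooth psi_zero s)
  have e2 : ∀ᶠ σ in 𝓝 (0 : Fin (k + 1) → ℝ), σ 0 ∈ Icc (-1 : ℝ) 1 :=
    (continuous_apply 0).continuousAt.eventually (Icc_mem_nhds (by simp) (by simp))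
  have e3 : ∀ᶠ σ in 𝓝 (0 : Fin (k + 1) → ℝ), Injective (fderiv ℝ psi σ) :=
    (ContinuousLinearMap.isOpen_injective.preimage
      (psi_smooth.continuous_fderiv (by simp))).mem_nhds psi_inj
  have e4 : ∀ᶠ x in 𝓝 (0 : ℝ), x ∈ Icc (-1 : ℝ) 1 := Icc_mem_nhds (by simp) (by simp)
  filter_upwards [e4.prod_nhds (((e1.and e2).and e3).and F.touch)] with ⟨x, σ⟩
    ⟨h1, ⟨⟨h2, h3⟩, h4⟩, h5⟩
  refine ⟨fun h6 h7 => ?_, fun h6 => (injective_iff_map_eq_zero _).2 fun η hη =>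
    (injective_iff_map_eq_zero _).1 h4 _ ?_⟩
  · obtain rfl : x = σ 0 := h7
    exact one_ne_zero (congrFun (h6 (a₁ := 1) (a₂ := 0) (by rw [h5]; rfl)) 0)
  have key : ∀ a b, a ∈ Icc (-1 : ℝ) 1 → b ∈ Icc (-1 : ℝ) 1 → a < b →
      dS W (a, σ) η = dS W (b, σ) η → fderiv ℝ psi σ η = 0 := fun a b ha hb hab he =>
    nondeg (D := fun s => dS W (s, σ) η) (c := fun s => f' (uu psi (s, σ)))
      (fun s hs => (F.dD h s σ η).congr_deriv (by
        simp [chi₁_zero (show -2 ≤ s by linarith [ha.1, hs.1]), chi₂_one (ha.1.trans hs.1)]))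
      (fun s hs => (h2 s ⟨ha.1.trans hs.1, hs.2.trans hb.2⟩).2.2.2.2.le) he hab le_rfl le_rfl
      fun s hs => (h2 s ⟨ha.1.trans hs.1.le, hs.2.le.trans hb.2⟩).2.2.2.2
  have h7 : dS W (x, σ) η = dS W (σ 0, σ) η := by rw [hη, h5]; rfl
  rcases lt_or_gt_of_ne h6 with h8 | h8
  · exact key _ _ h1 h3 h8 h7
  · exact key _ _ h3 h1 h8 h7.symm

end Fam

/-- at `z` the family is a family of straight rays with covectors `ϑ` -/
def Outer (f g : ℝ → ℝ) (θ : (Fin (k + 1) → ℝ) → Fin (k + 1) → ℝ)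
    (W : ℝ × (Fin (k + 1) → ℝ) → Fin (k + 1) → ℝ) (τ β : ℝ × (Fin (k + 1) → ℝ) → ℝ)
    (ϑ : (Fin (k + 1) → ℝ) → Fin (k + 1) → ℝ) (z : ℝ × (Fin (k + 1) → ℝ)) : Prop :=
  bb f θ z = f (uu ϑ z) ∧ β z = g (uu ϑ z) ∧ ∀ η, dS τ z η = ϑ z.2 ⬝ᵥ dS W z η

/-- the time function -/
structure Tim (f g : ℝ → ℝ) (θ : (Fin (k + 1) → ℝ) → Fin (k + 1) → ℝ)
    (W : ℝ × (Fin (k + 1) → ℝ) → Fin (k + 1) → ℝ) (τ β : ℝ × (Fin (k + 1) → ℝ) → ℝ) : Prop where
  sτ : ContDiff ℝ ∞ τ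
  sβ : ContDiff ℝ ∞ β
  dτ : ∀ t σ, HasDerivAt (fun s => τ (s, σ)) (β (t, σ)) t
  τ4 : ∀ σ, τ (-4, σ) = 0
  τ0 : ∀ s, τ (s, 0) = s + 4
  D0 : ∀ s, dS τ (s, 0) = 0
  out1 : ∀ z, z.1 < -3 → Outer f g θ W τ β θ z
  out2 : ∀ᶠ σ in 𝓝 (0 : Fin (k + 1) → ℝ), ∀ x, -1 < x → Outer f g θ W τ β psi (x, σ)

theorem exists_tim (h : Prof S f f' g) (F : Fam f θ W) : ∃ τ β, Tim f g θ W τ β := by
  obtain ⟨T₁, s1, z1, d1⟩ := exists_prim (h.sg.comp (uu_smooth F.sθ)) (c := fun _ => -4)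
    contDiff_const
  obtain ⟨T, s, z, d⟩ := exists_prim (h.sg.comp (uu_smooth (psi_smooth (k := k))))
    (contDiff_apply ℝ ℝ 0)
  obtain ⟨Γ, s3, z3, d3⟩ := exists_prim₁ h.sg
  obtain ⟨T₂, s2, d2, z2, t2⟩ : ∃ T₂ : ℝ × (Fin (k + 1) → ℝ) → ℝ, ContDiff ℝ ∞ T₂ ∧
      (∀ t p, HasDerivAt (fun s => T₂ (s, p)) (g (uu psi (t, p))) t) ∧ T₂ (0, 0) = 4 ∧
      ∀ σ, dS T₂ (σ 0, σ) = 0 := by
    have s2 : ContDiff ℝ ∞ fun w : ℝ × (Fin (k + 1) → ℝ) => 4 + Γ (w.2 0) + T w :=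
      (contDiff_const.add (s3.comp ((contDiff_apply ℝ ℝ 0).comp contDiff_snd))).add s
    have d2 : ∀ t p, HasDerivAt (fun s => 4 + Γ (p 0) + T (s, p)) (g (uu psi (t, p))) t :=
      fun t p => (d t p).const_add _
    refine ⟨_, s2, d2, by simpa [z3] using z 0, fun σ => dS_touch s2 (d2 _ _)
      (((d3 _).const_add 4).congr_deriv ?_) (Eventually.of_forall fun r => by simp [z])⟩
    simp [uu, mom_psi]
  clear s z d s3 z3 d3
  have key : ∀ {Z : ℝ × (Fin (k + 1) → ℝ) → ℝ} {ϑ : (Fin (k + 1) → ℝ) → Fin (k + 1) → ℝ},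
      ContDiff ℝ ∞ Z → ContDiff ℝ ∞ ϑ →
      (∀ t p, HasDerivAt (fun s => Z (s, p)) (g (uu ϑ (t, p))) t) → ∀ s σ η,
      HasDerivAt (fun s => dS Z (s, σ) η)
        (uu ϑ (s, σ) * f' (uu ϑ (s, σ)) * (mom (k + 1) s ⬝ᵥ fderiv ℝ ϑ σ η)) s :=
    fun h1 h2 h3 s σ η => dS_deriv h1 h3 s σ η (uu_fderiv h2 h.dg s σ)
  have k1 := key s1 F.sθ d1
  have k2 := key s2 psi_smooth d2
  have y1 : ∀ σ, dS T₁ (-4, σ) = 0 := fun σ => by simp [dS, z1]
  have hc := chi₁_smooth.comp (contDiff_fst (E := ℝ) (F := Fin (k + 1) → ℝ))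
  have sτ := (hc.mul s1).add ((contDiff_const (c := (1 : ℝ)).sub hc).mul s2)
  have dτ := fun t σ => (sτ.differentiable (by simp) (t, σ)).hasFDerivAt.comp_hasDerivAt t
    (f := fun s => (s, σ)) ((hasDerivAt_id t).prodMk (hasDerivAt_const t σ))
  refine ⟨_, _, sτ, (sτ.fderiv_right (m := ∞) le_rfl).clm_apply (contDiff_const (c := (1, 0))),
    dτ, fun σ => by simp [z1, chi₁_one (s := -4) (by norm_num)], fun s => ?_, fun s => ?_,
    fun ⟨x, σ⟩ hx => ⟨?_, ?_, ?_⟩, ?_⟩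
  · have a1 := const_of_zero (L := fun s => T₁ (s, 0) - s) (a := s) (b := -4) fun s _ =>
      ((d1 s 0).sub (hasDerivAt_id s)).congr_deriv (by simp [uu_zero F.θ0, h.g0])
    have a2 := const_of_zero (L := fun s => T₂ (s, 0) - s) (a := s) (b := 0) fun s _ =>
      ((d2 s 0).sub (hasDerivAt_id s)).congr_deriv (by simp [uu_zero psi_zero, h.g0])
    simp only [z1, z2] at a1 a2
    simp only [comp_apply]
    linear_combination chi₁ s * a1 + (1 - chi₁ s) * a2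
  · have a1 : dS T₁ (s, 0) = 0 := ContinuousLinearMap.ext fun η =>
      (const_of_zero (L := fun s => dS T₁ (s, 0) η) (b := -4) fun s _ =>
        (k1 s 0 η).congr_deriv (by simp [uu_zero F.θ0])).trans (by rw [y1])
    have a2 : dS T₂ (s, 0) = 0 := ContinuousLinearMap.ext fun η =>
      (const_of_zero (L := fun s => dS T₂ (s, 0) η) (b := 0) fun s _ =>
        (k2 s 0 η).congr_deriv (by simp [uu_zero psi_zero])).trans
        (congrArg (fun L => L η) (t2 0))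
    have b1 := ((s1.comp (contDiff_const (c := s).prodMk contDiff_id)).differentiable (by simp)
      0).hasFDerivAt.congr_fderiv a1
    have b2 := ((s2.comp (contDiff_const (c := s).prodMk contDiff_id)).differentiable (by simp)
      0).hasFDerivAt.congr_fderiv a2
    exact ((b1.const_mul (chi₁ s)).add (b2.const_mul (1 - chi₁ s))).fderiv.trans (by simp)
  · simp [bb, chi₁_one (le_of_lt hx), chi₂_zero (show x ≤ -2 by linarith)]
  · refine (dτ x σ).unique ((d1 x σ).congr_of_eventuallyEq ?_)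
    filter_upwards [Iio_mem_nhds hx] with s hs
    simp [chi₁_one (le_of_lt hs)]
  · intro η
    have a1 := const_of_zero (L := fun s => dS T₁ (s, σ) η - dotL (θ σ) (dS W (s, σ) η))
      (a := -4) (b := x) fun s hs => ((k1 s σ η).sub ((dotL (θ σ)).hasFDerivAt.comp_hasDerivAt s
        (F.dD h s σ η))).congr_deriv (by
          have : s ≤ -3 := hs.2.trans (max_le (by norm_num) (le_of_lt hx))
          simp [chi₁_one this, chi₂_zero (show s ≤ -2 by linarith), dotL_apply, uu,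
            dotProduct_comm (θ σ)]
          ring)
    simp only [y1, F.D4, _root_.zero_apply, map_zero, sub_zero] at a1
    refine Eq.trans ?_ (sub_eq_zero.1 a1.symm)
    simp [dS, chi₁_one (le_of_lt hx)]
  have e0 : ∀ᶠ σ in 𝓝 (0 : Fin (k + 1) → ℝ), -1 < σ 0 :=
    (continuous_apply 0).continuousAt.eventually (lt_mem_nhds (by simp))
  filter_upwards [e0, F.touch] with σ h1 h2 x hx
  refine ⟨?_, ?_, fun η => ?_⟩
  · simp [bb, chi₂_one hx.le, chi₁_zero (show -2 ≤ x by linarith)]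
  · refine (dτ x σ).unique ((d2 x σ).congr_of_eventuallyEq ?_)
    filter_upwards [Ioi_mem_nhds hx] with s hs
    simp [chi₁_zero (show -2 ≤ s by linarith [mem_Ioi.1 hs])]
  · have a1 := const_of_zero (L := fun s => dS T₂ (s, σ) η - dotL (psi σ) (dS W (s, σ) η))
      (a := σ 0) (b := x) fun s hs => ((k2 s σ η).sub
        ((dotL (psi σ)).hasFDerivAt.comp_hasDerivAt s (F.dD h s σ η))).congr_deriv (by
          have : -1 ≤ s := (le_min h1.le hx.le).trans hs.1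
          simp [chi₂_one this, chi₁_zero (show -2 ≤ s by linarith), dotL_apply, uu,
            dotProduct_comm (psi σ)]
          ring)
    simp only [t2, h2, _root_.zero_apply, map_zero, sub_zero] at a1
    refine Eq.trans ?_ (sub_eq_zero.1 a1.symm)
    simp [dS, chi₁_zero (show -2 ≤ x by linarith)]

end Pool.Agent.Work.MP_c4e502_gt
end

-- merged part: Pool.Agent.Work.MP_c4e502_gt.Lens
section
/-!
The lens: a frame for which the curves of the family are normal geodesics.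
-/

namespace Pool.Agent.Work.MP_c4e502_gt

open scoped ContDiff Topology
open Filter Set Function

variable {k : ℕ} {S f f' g : ℝ → ℝ} {θ ϑ : (Fin (k + 1) → ℝ) → Fin (k + 1) → ℝ}
  {W : ℝ × (Fin (k + 1) → ℝ) → Fin (k + 1) → ℝ} {τ β : ℝ × (Fin (k + 1) → ℝ) → ℝ}
  {α : (Fin (k + 2) → ℝ) → ℝ × ℝ} {𝔭 : ℝ × (Fin (k + 1) → ℝ) → Fin (k + 2) → ℝ}

/-- the points of the curves -/
def Phi (W : ℝ × (Fin (k + 1) → ℝ) → Fin (k + 1) → ℝ) (z : ℝ × (Fin (k + 1) → ℝ)) :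
    Fin (k + 2) → ℝ := J (k + 1) (z.1, W z)

/-- the covector of a straight ray -/
def cov (S : ℝ → ℝ) (ϑ : (Fin (k + 1) → ℝ) → Fin (k + 1) → ℝ) (z : ℝ × (Fin (k + 1) → ℝ)) :
    Fin (k + 2) → ℝ := J (k + 1) (S (uu ϑ z), ϑ z.2)

/-- Hamilton's equations up to the time change -/
def Ray (α : (Fin (k + 2) → ℝ) → ℝ × ℝ) (W : ℝ × (Fin (k + 1) → ℝ) → Fin (k + 1) → ℝ)
    (β : ℝ × (Fin (k + 1) → ℝ) → ℝ) (𝔭 : ℝ × (Fin (k + 1) → ℝ) → Fin (k + 2) → ℝ)
    (z : ℝ × (Fin (k + 1) → ℝ)) : Prop :=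
  0 < β z ∧ HasDerivAt (fun s => Phi W (s, z.2)) (β z • vel (frm α) (Phi W z) (𝔭 z)) z.1 ∧
    HasDerivAt (fun s => 𝔭 (s, z.2)) (β z • frce (frm α) (Phi W z) (𝔭 z)) z.1

theorem Phi_zero (z : ℝ × (Fin (k + 1) → ℝ)) : Phi W z 0 = z.1 := rfl

theorem Fam.sΦ (F : Fam f θ W) : ContDiff ℝ ∞ (Phi W) :=
  (J (k + 1)).contDiff.comp (contDiff_fst.prodMk F.sW)

theorem Fam.dΦ (F : Fam f θ W) (z : ℝ × (Fin (k + 1) → ℝ)) :
    HasDerivAt (fun s => Phi W (s, z.2)) (J (k + 1) (1, bb f θ z • mom (k + 1) z.1)) z.1 :=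
  (J (k + 1)).hasFDerivAt.comp_hasDerivAt z.1 ((hasDerivAt_id z.1).prodMk (F.dW z.1 z.2))

theorem Fam.fΦ (F : Fam f θ W) (z : ℝ × (Fin (k + 1) → ℝ)) (ξ : ℝ) (η : Fin (k + 1) → ℝ) :
    fderiv ℝ (Phi W) z (ξ, η) =
      J (k + 1) (ξ, ξ • bb f θ z • mom (k + 1) z.1 + dS W z η) := by
  have := (J (k + 1)).hasFDerivAt.comp z
    (hasFDerivAt_fst.prodMk (F.sW.differentiable (by simp) z).hasFDerivAt)
  rw [show fderiv ℝ (Phi W) z = _ from this.fderiv, ← fderiv_split F.sW (F.dW z.1 z.2)]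
  rfl

theorem Fam.inj_iff (F : Fam f θ W) (z : ℝ × (Fin (k + 1) → ℝ)) :
    Injective (fderiv ℝ (Phi W) z) ↔ Injective (dS W z) := by
  simp only [injective_iff_map_eq_zero]
  refine ⟨fun h η hη => congrArg Prod.snd (h (0, η) ?_), fun h ⟨ξ, η⟩ h1 => ?_⟩
  · rw [F.fΦ, hη, zero_smul, add_zero]
    exact map_zero _
  · rw [F.fΦ, map_eq_zero_iff _ (J (k + 1)).injective, Prod.mk_eq_zero] at h1
    obtain ⟨rfl, h2⟩ := h1
    rw [h η (by simpa using h2)]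
    rfl

theorem Good.gu {u : ℝ} (G : Good S f f' g u) : g u * u = f u := by
  linear_combination f u * G.2.2.2.1 - g u * G.2.2.1

theorem Good.gpos {u : ℝ} (G : Good S f f' g u) : 0 < g u :=
  (mul_pos_iff_of_pos_right G.1).1 (G.2.2.2.1 ▸ one_pos)

theorem ray_outer (h : Prof S f f' g) (F : Fam f θ W) {z : ℝ × (Fin (k + 1) → ℝ)}
    (O : Outer f g θ W τ β ϑ z) (G : Good S f f' g (uu ϑ z))
    (hα : ∀ᶠ y in 𝓝 (Phi W z), α y = 0) (hp : ∀ᶠ s in 𝓝 z.1, 𝔭 (s, z.2) = cov S ϑ (s, z.2)) :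
    Ray α W β 𝔭 z := by
  have hu : mom (k + 1) z.1 ⬝ᵥ ϑ z.2 = uu ϑ z := rfl
  rw [Ray, show 𝔭 z = _ from hp.self_of_nhds, O.2.1, cov, vel_frm, frce_frm hα, hα.self_of_nhds]
  refine ⟨G.gpos, (F.dΦ z).congr_deriv ?_, HasDerivAt.congr_of_eventuallyEq ?_ hp⟩
  · simp [← map_smul, Phi_zero, hu, G.2.2.2.1, O.1, smul_smul, G.gu]
  · have h1 := (dotL (ϑ z.2)).hasFDerivAt.comp_hasDerivAt z.1 (mom_deriv z.1)
    have h2 : HasDerivAt (fun s => uu ϑ (s, z.2)) (dmom (k + 1) 1 z.1 ⬝ᵥ ϑ z.2) z.1 := by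
      simpa [uu, comp_def, dotL_apply, dotProduct_comm (ϑ z.2)] using h1
    refine ((J (k + 1)).hasFDerivAt.comp_hasDerivAt z.1
      (((h.dS _).comp z.1 h2).prodMk (hasDerivAt_const z.1 (ϑ z.2)))).congr_deriv ?_
    simp [← map_smul, Phi_zero, hu, ← mul_assoc, G.gu]

theorem lens_alg {y : Fin (k + 2) → ℝ} {p β b c u : ℝ} {P : Fin (k + 1) → ℝ} (hβ : 0 < β)
    (hc : 0 < c) (hu : mom (k + 1) (y 0) ⬝ᵥ P = u) (h1 : c ^ 2 + u ^ 2 = 1) (hp : p + b * u = β)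
    (hα : α y = (-Real.log (β * c), (b / β - u) / c)) :
    J (k + 1) (1, b • mom (k + 1) (y 0)) = β • vel (frm α) y (J (k + 1) (p, P)) ∧
      ∑ i, (J (k + 1) (p, P) ⬝ᵥ frm α i y) ^ 2 = 1 := by
  have h2 : Real.exp (α y).1 = (β * c)⁻¹ := by
    rw [hα, Real.exp_neg, Real.exp_log (mul_pos hβ hc)]
  have h3 : (α y).2 = (b / β - u) / c := by rw [hα]
  have h4 : Real.exp (α y).1 * p + (α y).2 * u = c := by
    rw [h2, h3, show p = β - b * u by linarith]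
    field_simp
    linear_combination (-β) * h1
  constructor
  · rw [vel_frm, hu, h4, h2, h3, ← map_smul, Prod.smul_mk, smul_smul]
    congr 3
    · rw [smul_eq_mul]
      field_simp
    · field_simp
      ring
  · simp only [Fin.sum_univ_two, frm_zero, frm_one, fld, dotProduct_add, dotProduct_smul, J_dot,
      dotProduct_comm P, hu, smul_eq_mul, mul_one, mul_zero, zero_add, zero_dotProduct, add_zero,
      h4, h1]

theorem exists_lens (h : Prof S f f' g) (F : Fam f θ W) (M : Tim f g θ W τ β) :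
    ∃ (α : (Fin (k + 2) → ℝ) → ℝ × ℝ) (𝔭 : ℝ × (Fin (k + 1) → ℝ) → Fin (k + 2) → ℝ),
      ContDiff ℝ ∞ α ∧ (∀ σ, 𝔭 (-4, σ) = cov S θ (-4, σ)) ∧
      ∀ s, ∀ᶠ z in 𝓝 (s, 0), Ray α W β 𝔭 z := by
  have β0 : ∀ s, β (s, 0) = 1 := fun s => (M.dτ s 0).unique (by
    simp only [M.τ0]
    exact (hasDerivAt_id s).add_const 4)
  have e2 : ∀ s : ℝ, ∀ᶠ z in 𝓝 ((s, 0) : ℝ × (Fin (k + 1) → ℝ)),
      -1 < z.1 → Outer f g θ W τ β psi z := fun s =>
    ((continuous_snd.tendsto' (s, 0) 0 rfl).eventually M.out2).mono fun z hz => hz z.1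
  have hK : IsCompact (Icc (-3 : ℝ) (-1) ×ˢ ({0} : Set (Fin (k + 1) → ℝ))) :=
    isCompact_Icc.prod isCompact_singleton
  obtain ⟨O, Ψ, hO, hKO, hN, hO', hΨ, hl, hb⟩ := inv_smooth (by simp; omega) F.sΦ hK
    (N := {z | (Good S f f' g (uu θ z) ∧ Good S f f' g (uu psi z)) ∧
      (-1 < z.1 → Outer f g θ W τ β psi z) ∧ 0 < β z})
    (mem_nhdsSet_iff_forall.2 <| by
      rintro ⟨s, _⟩ ⟨-, rfl⟩
      exact ((ev_good h F.sθ F.θ0 s).and (ev_good h psi_smooth psi_zero s)).and ((e2 s).and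
        (M.sβ.continuous.continuousAt.eventually (lt_mem_nhds (by simp [β0])))))
    (by
      rintro ⟨s, _⟩ ⟨-, rfl⟩ ⟨t, _⟩ ⟨-, rfl⟩ hst
      exact Prod.ext (congrFun hst 0) rfl)
    (by
      rintro ⟨s, _⟩ ⟨hs, rfl⟩
      exact (F.inj_iff _).2 (F.inj h (by linarith [hs.1]) (by linarith [hs.2])))
  have hT : ContDiffOn ℝ ∞ (τ ∘ Ψ) (Phi W '' O) := M.sτ.comp_contDiffOn hΨ
  have hT' : ∀ z ∈ O, ContDiffAt ℝ ∞ (τ ∘ Ψ) (Phi W z) := fun z hz =>
    hT.contDiffAt (hO'.mem_nhds ⟨z, hz, rfl⟩)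
  have hc : ∀ z ∈ O, ∀ v, fderiv ℝ (τ ∘ Ψ) (Phi W z) (fderiv ℝ (Phi W) z v) = fderiv ℝ τ z v :=
    fun z hz => chain_eq (F.sΦ.differentiable (by simp) z) ((hT' z hz).differentiableAt (by simp))
      (mem_of_superset (hO.mem_nhds hz) fun w hw => congrArg τ (hl w hw))
  generalize τ ∘ Ψ = T at hT hT' hc
  obtain ⟨u, su, hu⟩ : ∃ u : (Fin (k + 2) → ℝ) → ℝ, ContDiffOn ℝ ∞ u (Phi W '' O) ∧
      ∀ y, u y = fderiv ℝ T y (fld (mom (k + 1)) y) :=
    ⟨_, (hT.fderiv_of_isOpen hO' le_rfl).clm_apply (fld_smooth (mom_smooth _)).contDiffOn,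
      fun _ => rfl⟩
  have key : ∀ z ∈ O, ∃ p P, grad T (Phi W z) = J (k + 1) (p, P) ∧
      mom (k + 1) z.1 ⬝ᵥ P = u (Phi W z) ∧ p + bb f θ z * u (Phi W z) = β z ∧
      ∀ Q, (∀ η, dS τ z η = Q ⬝ᵥ dS W z η) → P = Q := by
    intro z hz
    obtain ⟨⟨p, P⟩, hP⟩ := (J (k + 1)).surjective (grad T (Phi W z))
    have a1 : mom (k + 1) z.1 ⬝ᵥ P = u (Phi W z) := by
      rw [hu, ← grad_dot, ← hP, fld, J_dot, Phi_zero, dotProduct_comm]
      simp
    have a2 := fun ξ η => hc z hz (ξ, η)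
    simp only [F.fΦ, ← grad_dot, ← hP, J_dot, fderiv_split M.sτ (M.dτ z.1 z.2)] at a2
    refine ⟨p, P, hP.symm, a1, by simpa [dotProduct_comm P, a1] using a2 1 0, fun Q hQ => ?_⟩
    refine dotProduct_eq_iff.1 fun w => ?_
    obtain ⟨⟨ξ, η⟩, h1⟩ := (hb z hz).2 (J (k + 1) (0, w))
    rw [F.fΦ, (J (k + 1)).injective.eq_iff, Prod.mk.injEq] at h1
    obtain ⟨rfl, rfl⟩ := h1
    simpa [hQ] using a2 0 η
  have out : ∀ z ∈ O, ∀ ϑ, Outer f g θ W τ β ϑ z → Good S f f' g (uu ϑ z) →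
      grad T (Phi W z) = cov S ϑ z ∧ u (Phi W z) = uu ϑ z := by
    intro z hz ϑ h1 h2
    obtain ⟨p, P, a1, a2, a3, a4⟩ := key z hz
    obtain rfl := a4 _ h1.2.2
    refine ⟨?_, a2.symm⟩
    rw [a1, cov]
    congr 2
    rw [← show uu ϑ z = _ from a2, h1.1, h1.2.1] at a3
    refine mul_right_cancel₀ h2.1.ne' ?_
    linear_combination S (uu ϑ z) * a3 + h2.2.2.2.1 - h2.2.1 - uu ϑ z * h2.2.2.1
  have hΩ := su.continuousOn.isOpen_inter_preimage hO' (isOpen_Ioo (a := -1) (b := 1))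
  have hpos : ∀ y ∈ Phi W '' O ∩ u ⁻¹' Ioo (-1) 1, 0 < 1 - u y ^ 2 ∧ 0 < β (Ψ y) := by
    rintro _ ⟨⟨z, hz, rfl⟩, h1⟩
    rw [hl z hz]
    exact ⟨by nlinarith [h1.1, h1.2], (hN hz).2.2⟩
  have hKΩ : Phi W '' (Icc (-3 : ℝ) (-1) ×ˢ {0}) ⊆ Phi W '' O ∩ u ⁻¹' Ioo (-1) 1 := by
    rintro _ ⟨⟨s, σ⟩, hz, rfl⟩
    obtain ⟨p, P, -, a2, -, a4⟩ := key _ (hKO hz)
    obtain rfl : σ = 0 := hz.2
    obtain rfl := a4 0 fun η => by simp [M.D0]
    refine ⟨⟨_, hKO hz, rfl⟩, ?_⟩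
    rw [mem_preimage, ← a2]
    simp
  have c1 := (M.sβ.comp_contDiffOn hΨ).mono (inter_subset_left (t := u ⁻¹' Ioo (-1) 1))
  have c2 := ((F.sb h).comp_contDiffOn hΨ).mono (inter_subset_left (t := u ⁻¹' Ioo (-1) 1))
  have c3 := su.mono (inter_subset_left (t := u ⁻¹' Ioo (-1) 1))
  have c4 := ((contDiffOn_const (c := (1 : ℝ))).sub (c3.pow 2)).sqrt fun y hy => (hpos y hy).1.ne'
  obtain ⟨α, sα, a1, a0⟩ := ext_smooth hΩ (hK.image F.sΦ.continuous).isClosed hKΩ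
    (F := fun y => (-Real.log (β (Ψ y) * √(1 - u y ^ 2)),
      (bb f θ (Ψ y) / β (Ψ y) - u y) / √(1 - u y ^ 2)))
    (((c1.mul c4).log fun y hy => (mul_pos (hpos y hy).2
      (Real.sqrt_pos.2 (hpos y hy).1)).ne').neg.prodMk
      (((c2.div c1 fun y hy => (hpos y hy).2.ne').sub c3).div c4 fun y hy =>
        (Real.sqrt_pos.2 (hpos y hy).1).ne'))
  have a2 : ∀ y : Fin (k + 2) → ℝ, y 0 < -3 ∨ -1 < y 0 → α y = 0 := by
    refine fun y hy => a0 y ?_
    rintro ⟨⟨z, hz, rfl⟩, -⟩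
    obtain ⟨ϑ, b1, b2⟩ : ∃ ϑ, Outer f g θ W τ β ϑ z ∧ Good S f f' g (uu ϑ z) :=
      hy.elim (fun hy => ⟨θ, M.out1 z hy, (hN hz).1.1⟩)
        fun hy => ⟨psi, (hN hz).2.1 hy, (hN hz).1.2⟩
    have b3 : √(1 - uu ϑ z ^ 2) = S (uu ϑ z) := by
      rw [← b2.2.1, add_sub_cancel_right, Real.sqrt_sq b2.1.le]
    simp [hl z hz, (out z hz ϑ b1 b2).2, b3, b1.1, b1.2.1, b2.2.2.2.1, ← b2.gu, b2.gpos.ne']
  let 𝔭 : ℝ × (Fin (k + 1) → ℝ) → Fin (k + 2) → ℝ := fun z =>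
    if z.1 < -3 then cov S θ z else if -1 < z.1 then cov S psi z else grad T (Phi W z)
  have p1 : ∀ z ∈ O, 𝔭 z = grad T (Phi W z) := by
    intro z hz
    simp only [𝔭]
    split_ifs with b1 b2
    · exact (out z hz θ (M.out1 z b1) (hN hz).1.1).1.symm
    · exact (out z hz psi ((hN hz).2.1 b2) (hN hz).1.2).1.symm
    · rfl
  have hy0 : Continuous fun y : Fin (k + 2) → ℝ => y 0 := continuous_apply 0
  refine ⟨α, 𝔭, sα, fun σ => if_pos (by norm_num), fun s => ?_⟩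
  by_cases h1 : s < -3
  · filter_upwards [ev_good h F.sθ F.θ0 s, continuousAt_fst.eventually (gt_mem_nhds h1)] with z G hz
    refine ray_outer h F (M.out1 z hz) G ((hy0.continuousAt.eventually (gt_mem_nhds hz)).mono
      fun y hy => a2 y (Or.inl hy)) ((gt_mem_nhds hz).mono fun s hs => if_pos hs)
  by_cases h2 : -1 < s
  · filter_upwards [ev_good h psi_smooth psi_zero s, e2 s,
      continuousAt_fst.eventually (lt_mem_nhds h2)] with z G Oz hz
    refine ray_outer h F (Oz hz) G ((hy0.continuousAt.eventually (lt_mem_nhds hz)).mono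
      fun y hy => a2 y (Or.inr hy)) ((lt_mem_nhds hz).mono fun s hs =>
        (if_neg (by linarith)).trans (if_pos hs))
  have hs : ((s, 0) : ℝ × (Fin (k + 1) → ℝ)) ∈ Icc (-3 : ℝ) (-1) ×ˢ {0} :=
    ⟨⟨not_lt.1 h1, not_lt.1 h2⟩, rfl⟩
  have q1 : ∀ᶠ y in 𝓝 (Phi W (s, 0)), ∃ z ∈ O, y = Phi W z ∧
      J (k + 1) (1, bb f θ z • mom (k + 1) z.1) = β z • vel (frm α) y (grad T y) ∧
      ∑ i, fderiv ℝ T y (frm α i y) ^ 2 = 1 := by
    filter_upwards [mem_nhdsSet_iff_forall.1 a1 _ ⟨_, hs, rfl⟩,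
      hΩ.mem_nhds (hKΩ ⟨_, hs, rfl⟩)] with y b1 b2
    have b3 := hpos y b2
    obtain ⟨⟨z, hz, rfl⟩, -⟩ := b2
    obtain ⟨p, P, b4, b5, b6, -⟩ := key z hz
    rw [hl z hz] at b1
    simp only [← grad_dot, b4]
    exact ⟨z, hz, rfl, lens_alg (hN hz).2.2 (Real.sqrt_pos.2 b3.1) b5
      (by rw [Real.sq_sqrt b3.1.le, sub_add_cancel]) b6 b1⟩
  filter_upwards [F.sΦ.continuous.continuousAt.eventually q1.eventually_nhds,
    hO.mem_nhds (hKO hs)] with z b1 hz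
  obtain ⟨w, hw, b2, b3, -⟩ := b1.self_of_nhds
  obtain rfl : z = w := by rw [← hl z hz, b2, hl w hw]
  have b4 := (hN hz).2.2
  rw [Ray, p1 z hz, ← b3]
  refine ⟨b4, F.dΦ z, ?_⟩
  have b5 := characteristics (frm_smooth sα) (x := fun s => Phi W (s, z.2)) (r := β z) (t := z.1)
    (hT' z hz) (b1.mono fun y ⟨_, _, _, _, hy⟩ => hy) (by rw [vel_smul, ← b3]; exact F.dΦ z)
  refine ((b5.const_smul (β z)⁻¹).congr_deriv ?_).congr_of_eventuallyEq ?_
  · rw [frce_smul, smul_smul, pow_two, inv_mul_cancel_left₀ b4.ne']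
  · filter_upwards [((continuous_id.prodMk continuous_const).tendsto' z.1 z rfl).eventually
      (hO.mem_nhds hz)] with r hr
    simp [p1 (r, z.2) hr, smul_smul, inv_mul_cancel₀ b4.ne']

end Pool.Agent.Work.MP_c4e502_gt
end

-- merged part: Pool.Agent.Work.MP_c4e502_gt.Exp
section
/-!
The exponential map of the lens structure near the chosen covector.
-/

namespace Pool.Agent.Work.MP_c4e502_gt

open scoped ContDiff Topology
open Filter Set Function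

variable {k : ℕ} {S f f' g : ℝ → ℝ} {θ : (Fin (k + 1) → ℝ) → Fin (k + 1) → ℝ}
  {W : ℝ × (Fin (k + 1) → ℝ) → Fin (k + 1) → ℝ} {τ β : ℝ × (Fin (k + 1) → ℝ) → ℝ}
  {α : (Fin (k + 2) → ℝ) → ℝ × ℝ} {𝔭 : ℝ × (Fin (k + 1) → ℝ) → Fin (k + 2) → ℝ}

theorem arc_of_ray (M : Tim f g θ W τ β) (sα : ContDiff ℝ ∞ α) {z : ℝ × (Fin (k + 1) → ℝ)}
    (h1 : -4 ≤ z.1) (h2 : 0 ≤ τ z) (h3 : ∀ s ∈ Icc (-4 : ℝ) z.1, Ray α W β 𝔭 (s, z.2)) :
    ∃ x p, IsNormalArc (frm α) x p ∧ x 0 = Phi W (-4, z.2) ∧ p 0 = τ z • 𝔭 (-4, z.2) ∧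
      x 1 = Phi W z := by
  obtain ⟨ζ, z0, z1, hζ⟩ := time_inv (h := fun s => τ (s, z.2)) (h' := fun s => β (s, z.2))
    (M.sτ.comp (contDiff_id.prodMk contDiff_const)) (fun s => M.dτ s z.2) h1 fun s hs => (h3 s hs).1
  simp only [M.τ4, Prod.mk.eta] at z0 z1 hζ
  refine ⟨fun t => Phi W (ζ (τ z * t), z.2), fun t => τ z • 𝔭 (ζ (τ z * t), z.2),
    (arc_iff (frm_smooth sα)).2 fun t ht => ?_, by simp [z0], by simp [z0], by simp [z1]⟩
  obtain ⟨a1, a2⟩ := hζ (τ z * t) ⟨mul_nonneg h2 ht.1, mul_le_of_le_one_right h2 ht.2⟩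
  obtain ⟨a3, a4, a5⟩ := h3 _ a1
  have a6 := a2.comp t ((hasDerivAt_id t).const_mul (τ z))
  have a7 := HasDerivAt.scomp (h := ζ ∘ (τ z * ·)) t a4 a6
  have a8 := HasDerivAt.scomp (h := ζ ∘ (τ z * ·)) t a5 a6
  refine ⟨a7.congr_deriv ?_, (a8.const_smul (τ z)).congr_deriv ?_⟩
  · rw [vel_smul, smul_smul]
    congr 1
    field_simp
  · rw [frce_smul, smul_smul, smul_smul]
    congr 1
    field_simp

theorem cov_eq {a b u v : ℝ} {P Q : Fin (k + 1) → ℝ} (hu : Good S f f' g u)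
    (hv : Good S f f' g v) {m : Fin (k + 1) → ℝ} (h1 : m ⬝ᵥ P = u) (h2 : m ⬝ᵥ Q = v) (ha : a ≠ 0)
    (h : a • J (k + 1) (S u, P) = b • J (k + 1) (S v, Q)) : P = Q := by
  rw [← map_smul, ← map_smul, (J (k + 1)).injective.eq_iff, Prod.smul_mk, Prod.smul_mk,
    Prod.mk.injEq, smul_eq_mul, smul_eq_mul] at h
  have h3 := congrArg (m ⬝ᵥ ·) h.2
  simp only [dotProduct_smul, smul_eq_mul, h1, h2] at h3
  have h4 : (a - b) * (a + b) = 0 := by
    linear_combination (a * S u + b * S v) * h.1 + (a * u + b * v) * h3 - a ^ 2 * hu.2.1 +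
      b ^ 2 * hv.2.1
  rcases mul_eq_zero.1 h4 with h5 | h5
  · obtain rfl := sub_eq_zero.1 h5
    exact smul_right_injective _ ha h.2
  · have h6 : a * (S u + S v) = 0 := by linear_combination h.1 + S v * h5
    exact absurd h6 (mul_ne_zero ha (add_pos hu.1 hv.1).ne')

theorem main (k : ℕ) : ∃ (X : Fin 2 → (Fin (k + 2) → ℝ) → Fin (k + 2) → ℝ) (q : Fin (k + 2) → ℝ)
    (U : Set (Fin (k + 2) → ℝ)) (e : (Fin (k + 2) → ℝ) → Fin (k + 2) → ℝ),
    IsSubRiemFrame X ∧ IsExpOn X q U e ∧ ContDiffOn ℝ ∞ e U ∧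
    ∃ l ∈ U, IsRegConj e l ∧ Module.finrank ℝ (fderiv ℝ e l).ker = k + 1 ∧
      ∃ F : (Fin (k + 2) → ℝ) → ℝ, ContDiffOn ℝ ∞ F U ∧ (∀ m ∈ U, IsRegConj e m ↔ F m = 0) ∧
        ∃ v ∈ (fderiv ℝ e l).ker, fderiv ℝ F l v ≠ 0 ∧
          v ∉ tangentConeAt ℝ {m | IsRegConj e m} l := by
  obtain ⟨S, f, f', g, h⟩ := exists_prof
  obtain ⟨θ, W, F⟩ := exists_fam h k
  obtain ⟨τ, β, M⟩ := exists_tim h F
  obtain ⟨α, 𝔭, sα, p4, hR⟩ := exists_lens h F M
  obtain ⟨O₁, Ψ₁, hO₁, h0₁, -, -, -, hl₁, -⟩ := inv_smooth rfl F.sθ (K := {0}) isCompact_singleton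
    univ_mem (injOn_singleton _ _) (by rintro _ rfl; exact F.injθ h)
  have sn : ContDiff ℝ ∞ fun z : ℝ × (Fin (k + 1) → ℝ) => cov S θ (-4, z.2) :=
    (J (k + 1)).contDiff.comp ((h.sS.comp ((uu_smooth F.sθ).comp
      (contDiff_const.prodMk contDiff_snd))).prodMk (F.sθ.comp contDiff_snd))
  have sΞ := M.sτ.smul sn
  have e1 : ∀ᶠ σ in 𝓝 (0 : Fin (k + 1) → ℝ), ∀ s ∈ Icc (-4 : ℝ) 1, Ray α W β 𝔭 (s, σ) :=
    isCompact_Icc.eventually_forall_of_forall_eventually fun s _ =>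
      (continuous_swap.tendsto' (0, s) _ rfl).eventually (hR s)
  have e2 : ∀ᶠ σ in 𝓝 (0 : Fin (k + 1) → ℝ), Good S f f' g (uu θ (-4, σ)) :=
    ((continuous_const.prodMk continuous_id).tendsto' 0 _ rfl).eventually
      (ev_good h F.sθ F.θ0 (-4))
  have e3 : ∀ᶠ x in 𝓝 (0 : ℝ), x ∈ Icc (-4 : ℝ) 1 := Icc_mem_nhds (by simp) (by simp)
  obtain ⟨O, Ψ, hO, h0, hN, hO', hΨ, hl, hb⟩ := inv_smooth (by simp; omega) sΞ (K := {(0, 0)})
    isCompact_singleton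
    (N := {z | (z.1 ∈ Icc (-4 : ℝ) 1 ∧ ((∀ s ∈ Icc (-4 : ℝ) 1, Ray α W β 𝔭 (s, z.2)) ∧
      Good S f f' g (uu θ (-4, z.2))) ∧ z.2 ∈ O₁) ∧ (Injective (dS W z) ↔ z.1 ≠ z.2 0) ∧ 0 < τ z})
    (by
      rw [nhdsSet_singleton]
      exact (e3.prod_nhds ((e1.and e2).and (hO₁.mem_nhds (h0₁ rfl)))).and ((F.conj h).and
        (M.sτ.continuous.continuousAt.eventually (lt_mem_nhds (by simp [M.τ0])))))
    (injOn_singleton _ _) (by
      rintro _ rfl
      have β0 : β (0, 0) = 1 := (M.dτ 0 0).unique (by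
        simp only [M.τ0]
        exact (hasDerivAt_id (0 : ℝ)).add_const 4)
      have d1 := ((J (k + 1)).hasFDerivAt.comp 0 ((uu_fderiv F.sθ h.dS (-4) 0).prodMk
        (F.sθ.differentiable (by simp) 0).hasFDerivAt)).comp ((0, 0) : ℝ × (Fin (k + 1) → ℝ))
        (f := Prod.snd) hasFDerivAt_snd
      have d2 := (M.sτ.differentiable (by simp) (0, 0)).hasFDerivAt.smul d1
      refine (injective_iff_map_eq_zero _).2 fun ⟨ξ, η⟩ hv => ?_
      replace hv := (congrArg (fun L => L (ξ, η)) d2.fderiv).symm.trans hv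
      replace hv : J (k + 1) ((4 : ℝ) • (0, fderiv ℝ θ 0 η) + ξ • (1, 0)) = 0 := by
        simpa [-Prod.smul_mk, fderiv_split M.sτ (z := (0, 0)) (M.dτ 0 0), M.D0, β0, M.τ0,
          uu_zero F.θ0, h.f0, h.S0, F.θ0] using hv
      simp only [map_eq_zero_iff _ (J (k + 1)).injective, Prod.smul_mk, Prod.mk_add_mk,
        Prod.mk_eq_zero, smul_zero, zero_add, add_zero, smul_eq_mul, mul_one, mul_zero,
        smul_eq_zero, OfNat.ofNat_ne_zero, false_or] at hv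
      exact Prod.ext hv.1 ((injective_iff_map_eq_zero _).1 (F.injθ h) _ hv.2))
  obtain ⟨Ξ, hΞ⟩ : ∃ Ξ, Ξ = fun z : ℝ × (Fin (k + 1) → ℝ) => τ z • cov S θ (-4, z.2) := ⟨_, rfl⟩
  replace sΞ : ContDiff ℝ ∞ Ξ := hΞ ▸ sΞ
  replace hO' : IsOpen (Ξ '' O) := hΞ ▸ hO'
  replace hΨ : ContDiffOn ℝ ∞ Ψ (Ξ '' O) := hΞ ▸ hΨ
  replace hl : ∀ z ∈ O, Ψ (Ξ z) = z := hΞ ▸ hl
  replace hb : ∀ z ∈ O, Bijective (fderiv ℝ Ξ z) := hΞ ▸ hb
  have arc : ∀ z ∈ O, ∃ x p, IsNormalArc (frm α) x p ∧ x 0 = J (k + 1) (-4, 0) ∧ p 0 = Ξ z ∧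
      x 1 = Phi W z := fun z hz => by
    simpa only [Phi, F.W4, p4, hΞ] using arc_of_ray M sα (hN hz).1.1.1 (hN hz).2.2.le
      fun s hs => (hN hz).1.2.1.1 s ⟨hs.1, hs.2.trans (hN hz).1.1.2⟩
  have chain : ∀ {C : Type} [NormedAddCommGroup C] [NormedSpace ℝ C]
      {G : ℝ × (Fin (k + 1) → ℝ) → C}, ContDiff ℝ ∞ G → ∀ z ∈ O, ∀ v,
      fderiv ℝ (G ∘ Ψ) (Ξ z) (fderiv ℝ Ξ z v) = fderiv ℝ G z v := fun hG z hz =>
    chain_eq (sΞ.differentiable (by simp) z) (((hG.comp_contDiffOn hΨ).contDiffAt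
      (hO'.mem_nhds ⟨z, hz, rfl⟩)).differentiableAt (by simp))
      (mem_of_superset (hO.mem_nhds hz) fun w hw => congrArg _ (hl w hw))
  have conj : ∀ z ∈ O, IsConj (Phi W ∘ Ψ) (Ξ z) ↔ z.1 = z.2 0 := by
    intro z hz
    have a1 : Ξ z ≠ 0 := fun a => by
      have := congrFun a 0
      simp only [hΞ, cov, Pi.smul_apply, J_zero, smul_eq_mul, Pi.zero_apply] at this
      exact (mul_pos (hN hz).2.2 (hN hz).1.2.1.2.1).ne' this
    rw [IsConj, and_iff_right a1, ← Injective.of_comp_iff' _ (hb z hz),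
      show _ ∘ _ = _ from funext (chain F.sΦ z hz), F.inj_iff, (hN hz).2.1, not_not]
  have reg : ∀ z ∈ O, IsRegConj (Phi W ∘ Ψ) (Ξ z) ↔ z.1 = z.2 0 := by
    refine fun z hz => ⟨fun a => (conj z hz).1 a.1, fun a => ⟨(conj z hz).2 a, _,
      hO'.mem_nhds ⟨z, hz, rfl⟩, ?_⟩⟩
    rintro v a b ⟨x, hx, h1⟩ ⟨y, hy, h2⟩ h3 h4
    have hb0 : b ≠ 0 := fun c => h4.1 (by rw [c, zero_smul])
    rw [← h1] at h3 ⊢
    rw [← h2] at h4 ⊢
    have h5 : (b * τ x) • cov S θ (-4, x.2) = (a * τ y) • cov S θ (-4, y.2) := by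
      have : b • Ξ x = a • Ξ y := by rw [h1, h2, smul_comm]
      simpa only [hΞ, smul_smul] using this
    have h6 := cov_eq (hN hx).1.2.1.2 (hN hy).1.2.1.2 rfl rfl (mul_ne_zero hb0 (hN hx).2.2.ne') h5
    have h7 : x.2 = y.2 := by rw [← hl₁ _ (hN hx).1.2.2, h6, hl₁ _ (hN hy).1.2.2]
    rw [Prod.ext (((conj x hx).1 h3).trans (h7 ▸ ((conj y hy).1 h4).symm)) h7]
  have hz := h0 rfl
  let L : ℝ × (Fin (k + 1) → ℝ) →L[ℝ] ℝ := ContinuousLinearMap.fst ℝ ℝ _ -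
    (ContinuousLinearMap.proj (R := ℝ) (φ := fun _ => ℝ) 0).comp (ContinuousLinearMap.snd ℝ ℝ _)
  have hL : ∀ z, L z = z.1 - z.2 0 := fun _ => rfl
  have hker : ∀ v, fderiv ℝ (Phi W ∘ Ψ) (Ξ (0, 0)) (fderiv ℝ Ξ (0, 0) v) = 0 ↔ v.1 = 0 := by
    rintro ⟨ξ, η⟩
    rw [chain F.sΦ _ hz, F.fΦ, F.D0, F.b0 h, map_eq_zero_iff _ (J (k + 1)).injective]
    simp
  have hF : ∀ m ∈ Ξ '' O, IsRegConj (Phi W ∘ Ψ) m ↔ (L ∘ Ψ) m = 0 := by
    rintro _ ⟨z, hz, rfl⟩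
    rw [reg z hz, comp_apply, hl z hz, hL, sub_eq_zero]
  have hv : fderiv ℝ (L ∘ Ψ) (Ξ (0, 0)) (fderiv ℝ Ξ (0, 0) (0, 1)) ≠ 0 := by
    rw [chain L.contDiff _ hz, L.fderiv, hL]
    simp
  refine ⟨frm α, J (k + 1) (-4, 0), Ξ '' O, Phi W ∘ Ψ, frm_ok sα, ⟨hO', ?_, ?_⟩,
    F.sΦ.comp_contDiffOn hΨ, _, ⟨_, hz, rfl⟩, (reg _ hz).2 rfl, ?_, L ∘ Ψ,
    L.contDiff.comp_contDiffOn hΨ, hF, _, (hker (0, 1)).2 rfl, hv, fun hc => hv ?_⟩
  · rintro _ ⟨z, hz, rfl⟩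
    obtain ⟨x, p, a1, a2, a3, -⟩ := arc z hz
    exact ⟨x, p, a1, a2, a3⟩
  · rintro x p a1 a2 ⟨z, hz, a3⟩
    obtain ⟨x', p', b1, b2, b3, b4⟩ := arc z hz
    rw [← a3, comp_apply, hl z hz, ← b4]
    exact arc_unique (frm_smooth sα) b1 a1 (b2.trans a2.symm) (b3.trans a3)
  · have a1 : (fderiv ℝ (Phi W ∘ Ψ) (Ξ (0, 0))).ker = LinearMap.range
        ((fderiv ℝ Ξ (0, 0)).toLinearMap ∘ₗ LinearMap.inr ℝ ℝ (Fin (k + 1) → ℝ)) := by
      ext w
      obtain ⟨⟨ξ, η⟩, rfl⟩ := (hb _ hz).2 w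
      refine (hker _).trans ⟨?_, ?_⟩
      · rintro rfl
        exact ⟨η, rfl⟩
      · rintro ⟨η', a⟩
        exact (congrArg Prod.fst ((hb _ hz).1 a)).symm
    rw [a1, LinearMap.finrank_range_of_inj]
    · simp
    · exact (hb _ hz).1.comp (LinearMap.inr_injective (R := ℝ))
  · have a1 := (((L.contDiff.comp_contDiffOn hΨ).contDiffAt
      (hO'.mem_nhds ⟨_, hz, rfl⟩)).differentiableAt (by simp)).hasFDerivAt
    refine a1.hasFDerivWithinAt.unique_on ((hasFDerivWithinAt_const (0 : ℝ) _ _).congr_of_eventuallyEq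
      ?_ ((hF _ ⟨_, hz, rfl⟩).1 ((reg _ hz).2 rfl))) hc
    filter_upwards [mem_nhdsWithin_of_mem_nhds (hO'.mem_nhds ⟨_, hz, rfl⟩), self_mem_nhdsWithin]
      with m h1 h2 using (hF m h1).1 h2

end Pool.Agent.Work.MP_c4e502_gt
end
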