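import Pool.Agent.Work.MP_c4e502_gt.Calc

-- merged part: Pool.Agent.Work.MP_c4e502_gt.Flow
section
namespace Pool.Agent.Work.MP_c4e502_gt

open scoped ContDiff Topology
open Filter Set

abbrev E : Type := Fin 8 → ℝ

noncomputable def AA : E →L[ℝ] E →L[ℝ] E :=
  (LinearMap.mk₂ ℝ (fun l v : E => (![-(5 * l 6 * v 1), 5 * l 6 * v 0 + l 7 * (v 3 + v 5), l 6 * v 3,
      -(l 6 * v 2) - l 7 * v 1, 7 * l 6 * v 5, -(7 * l 6 * v 4) - l 7 * v 1, 0, 0] : E))
    (by intros; ext i; fin_cases i <;> simp <;> ring)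
    (by intros; ext i; fin_cases i <;> simp <;> ring)
    (by intros; ext i; fin_cases i <;> simp <;> ring)
    (by intros; ext i; fin_cases i <;> simp <;> ring)).toContinuousBilinearMap

theorem AA_apply (l v : E) : AA l v = ![-(5 * l 6 * v 1), 5 * l 6 * v 0 + l 7 * (v 3 + v 5),
    l 6 * v 3, -(l 6 * v 2) - l 7 * v 1, 7 * l 6 * v 5, -(7 * l 6 * v 4) - l 7 * v 1, 0, 0] := rfl

noncomputable def BB : E →L[ℝ] E →L[ℝ] E :=
  (LinearMap.mk₂ ℝ (fun x u : E => (![0, 0, 0, 0, 0, 0, 5 * x 0 * u 1 + x 3 * u 2 + 7 * x 5 * u 4,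
      (x 3 + x 5) * u 1] : E))
    (by intros; ext i; fin_cases i <;> simp <;> ring)
    (by intros; ext i; fin_cases i <;> simp <;> ring)
    (by intros; ext i; fin_cases i <;> simp <;> ring)
    (by intros; ext i; fin_cases i <;> simp <;> ring)).toContinuousBilinearMap

theorem BB_apply (x u : E) : BB x u = ![0, 0, 0, 0, 0, 0,
    5 * x 0 * u 1 + x 3 * u 2 + 7 * x 5 * u 4, (x 3 + x 5) * u 1] := rfl

noncomputable def diag (c : E) : E →L[ℝ] E :=
  ContinuousLinearMap.pi fun i => c i • ContinuousLinearMap.proj i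

theorem diag_apply (c u : E) (i : Fin 8) : diag c u i = c i * u i := rfl

noncomputable def LL : E →L[ℝ] E := diag ![1, 1, 1, 1, 1, 1, 0, 0]
noncomputable def sg : E →L[ℝ] E := diag ![1, 1, -1, -1, -1, -1, 1, -1]

theorem LL_apply (u : E) : LL u = ![u 0, u 1, u 2, u 3, u 4, u 5, 0, 0] := by
  ext i; fin_cases i <;> simp [LL, diag_apply]

theorem sg_apply (u : E) : sg u = ![u 0, u 1, -u 2, -u 3, -u 4, -u 5, u 6, -u 7] := by
  ext i; fin_cases i <;> simp [sg, diag_apply]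

theorem AA_congr {l l' : E} (h6 : l 6 = l' 6) (h7 : l 7 = l' 7) (v : E) : AA l v = AA l' v := by
  rw [AA_apply, AA_apply, h6, h7]

theorem BB_LL (x u : E) : BB (LL x) u = BB x u := by simp [BB_apply, LL_apply]

theorem LL_BB (x u : E) : LL (BB x u) = 0 := by
  ext i; fin_cases i <;> simp [BB_apply, LL_apply]

theorem LL_LL (u : E) : LL (LL u) = LL u := by simp [LL_apply]

structure Sys (x U : ℝ → E) : Prop where
  hx : ∀ t, HasDerivAt x (LL (U t) + BB (x t) (U t)) t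
  hU : ∀ t, HasDerivAt U (AA (U t) (U t)) t

noncomputable def UU (w : ℝ × E) : E := NormedSpace.exp (w.1 • AA w.2) w.2
noncomputable def XI : ℝ × E → E := prim fun w => LL (UU w)
noncomputable def XX (w : ℝ × E) : E := XI w + prim (fun w => BB (XI w) (UU w)) w

@[fun_prop] theorem UU_smooth : ContDiff ℝ ∞ UU := by
  have h : ContDiff ℝ ∞ (NormedSpace.exp : (E →L[ℝ] E) → E →L[ℝ] E) :=
    contDiff_iff_contDiffAt.2 fun x => (NormedSpace.exp_analytic (𝕂 := ℝ) x).contDiffAt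
  exact (h.comp (contDiff_fst.smul (AA.contDiff.comp contDiff_snd))).clm_apply contDiff_snd

theorem XI_smooth : ContDiff ℝ ∞ XI := contDiff_prim (LL.contDiff.comp UU_smooth)

theorem BXI_smooth : ContDiff ℝ ∞ fun w => BB (XI w) (UU w) :=
  (BB.contDiff.comp XI_smooth).clm_apply UU_smooth

@[fun_prop] theorem XX_smooth : ContDiff ℝ ∞ XX := XI_smooth.add (contDiff_prim BXI_smooth)

theorem UU_deriv (t : ℝ) (l : E) : HasDerivAt (fun s => UU (s, l)) (AA l (UU (t, l))) t := by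
  simpa [UU] using (hasDerivAt_exp_smul_const' (𝕂 := ℝ) (AA l) t).clm_apply (hasDerivAt_const t l)

theorem UU_zero (l : E) : UU (0, l) = l := by simp [UU]

theorem XI_zero (l : E) : XI (0, l) = 0 := by simp [XI, prim]

theorem XX_zero (l : E) : XX (0, l) = 0 := by simp [XX, XI, prim]

theorem const_of_AA {U a b : ℝ → E} (h : ∀ t, HasDerivAt U (AA (a t) (b t)) t) (t : ℝ) :
    U t 6 = U 0 6 ∧ U t 7 = U 0 7 :=
  ⟨congrFun (int_unique (f := fun t => U t 6) (g := fun _ => U 0 6) (r := fun _ => 0)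
      (fun t => hasDerivAt_pi.1 (h t) 6) (fun t => hasDerivAt_const _ _) rfl) t,
    congrFun (int_unique (f := fun t => U t 7) (g := fun _ => U 0 7) (r := fun _ => 0)
      (fun t => hasDerivAt_pi.1 (h t) 7) (fun t => hasDerivAt_const _ _) rfl) t⟩

theorem XI_deriv (t : ℝ) (l : E) : HasDerivAt (fun s => XI (s, l)) (LL (UU (t, l))) t :=
  hasDerivAt_prim (LL.contDiff.comp UU_smooth) t l

theorem LL_eq {x : ℝ → E} {l : E}
    (hx : ∀ t, HasDerivAt x (LL (UU (t, l)) + BB (x t) (UU (t, l))) t ∨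
      HasDerivAt x (LL (UU (t, l)) + BB (XI (t, l)) (UU (t, l))) t) (h0 : x 0 = 0) (t : ℝ) :
    LL (x t) = XI (t, l) := by
  refine congrFun (int_unique (f := fun t => LL (x t)) (fun t => ?_) (fun t => XI_deriv t l) ?_) t
  · rcases hx t with h | h
    · exact (LL.hasFDerivAt.comp_hasDerivAt t h).congr_deriv (by simp [LL_BB, LL_LL])
    · exact (LL.hasFDerivAt.comp_hasDerivAt t h).congr_deriv (by simp [LL_BB, LL_LL])
  · simp [h0, XI_zero]

theorem XX_deriv' (t : ℝ) (l : E) :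
    HasDerivAt (fun s => XX (s, l)) (LL (UU (t, l)) + BB (XI (t, l)) (UU (t, l))) t :=
  (XI_deriv t l).add (hasDerivAt_prim BXI_smooth t l)

theorem XX_deriv (t : ℝ) (l : E) :
    HasDerivAt (fun s => XX (s, l)) (LL (UU (t, l)) + BB (XX (t, l)) (UU (t, l))) t := by
  rw [← BB_LL, LL_eq (x := fun s => XX (s, l)) (fun t => Or.inr (XX_deriv' t l)) (XX_zero l)]
  exact XX_deriv' t l

theorem sys_flow (l : E) : Sys (fun t => XX (t, l)) (fun t => UU (t, l)) where
  hx t := XX_deriv t l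
  hU t := by
    have := const_of_AA (fun t => UU_deriv t l) t
    simp only [UU_zero] at this
    rw [AA_congr this.1 this.2]
    exact UU_deriv t l

theorem Sys.unique {x U : ℝ → E} (h : Sys x U) (h0 : x 0 = 0) (t : ℝ) :
    x t = XX (t, U 0) ∧ U t = UU (t, U 0) := by
  have hU : U = fun t => UU (t, U 0) := by
    refine lin_unique (AA (U 0)) (r := fun _ => 0) (fun t => ?_) (fun t => ?_) (UU_zero _).symm
    · have := const_of_AA h.hU t
      rw [add_zero, ← AA_congr this.1 this.2]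
      exact h.hU t
    · simpa using UU_deriv t (U 0)
  have hx : ∀ t, HasDerivAt x (LL (UU (t, U 0)) + BB (x t) (UU (t, U 0))) t := fun t => by
    rw [← congrFun hU t]; exact h.hx t
  refine ⟨congrFun (int_unique (fun t => ?_) (fun t => XX_deriv' t (U 0)) ?_) t, congrFun hU t⟩
  · rw [← LL_eq (fun t => Or.inl (hx t)) h0, BB_LL]
    exact hx t
  · rw [h0, XX_zero]

theorem flow_scale (s : ℝ) (l : E) : XX (1, s • l) = XX (s, l) ∧ UU (1, s • l) = s • UU (s, l) := by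
  have hl : ∀ t : ℝ, HasDerivAt (fun t => s * t) s t := fun t => by
    simpa using (hasDerivAt_id t).const_mul s
  have h : Sys (fun t => XX (s * t, l)) (fun t => s • UU (s * t, l)) := by
    refine ⟨fun t => ?_, fun t => ?_⟩
    · exact (((sys_flow l).hx (s * t)).scomp t (hl t)).congr_deriv (by simp)
    · exact ((((sys_flow l).hU (s * t)).scomp t (hl t)).const_smul s).congr_deriv (by simp)
  have := h.unique (by simp [XX_zero]) 1
  simp only [mul_one, mul_zero, UU_zero] at this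
  exact ⟨this.1.symm, this.2.symm⟩

theorem flow_sg (l : E) : XX (1, sg l) = sg (XX (1, l)) := by
  have h : Sys (fun t => sg (XX (t, l))) (fun t => sg (UU (t, l))) := by
    refine ⟨fun t => ?_, fun t => ?_⟩
    · refine (sg.hasFDerivAt.comp_hasDerivAt t ((sys_flow l).hx t)).congr_deriv ?_
      ext i; fin_cases i <;> simp [sg_apply, LL_apply, BB_apply] <;> ring
    · refine (sg.hasFDerivAt.comp_hasDerivAt t ((sys_flow l).hU t)).congr_deriv ?_
      ext i; fin_cases i <;> simp [sg_apply, AA_apply] <;> ring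
  have := h.unique (by simp [XX_zero]) 1
  simp only [UU_zero] at this
  exact this.1.symm

/-- derivative of the position with respect to the initial covector -/
noncomputable def bX (t : ℝ) (l : E) : E →L[ℝ] E := fderiv ℝ (fun r => XX (t, r)) l
noncomputable def bU (t : ℝ) (l : E) : E →L[ℝ] E := fderiv ℝ (fun r => UU (t, r)) l

theorem hasF_XX (t : ℝ) (l : E) : HasFDerivAt (fun r => XX (t, r)) (bX t l) l :=
  (((XX_smooth.differentiable (by simp)).comp (f := fun r => (t, r)) (by fun_prop)) l).hasFDerivAt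

theorem hasF_UU (t : ℝ) (l : E) : HasFDerivAt (fun r => UU (t, r)) (bU t l) l :=
  (((UU_smooth.differentiable (by simp)).comp (f := fun r => (t, r)) (by fun_prop)) l).hasFDerivAt

theorem bX_deriv (t : ℝ) (l : E) : ∃ D : E →L[ℝ] E, HasDerivAt (fun s => bX s l) D t ∧
    ∀ v, D v = LL (bU t l v) + (BB (XX (t, l)) (bU t l v) + BB (bX t l v) (UU (t, l))) := by
  refine ⟨_, hasDerivAt_fderiv (W := fun w => LL (UU w) + BB (XX w) (UU w)) XX_smooth
    XX_deriv t l, fun v => ?_⟩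
  have h : fderiv ℝ (fun r => LL (UU (t, r)) + BB (XX (t, r)) (UU (t, r))) l = _ :=
    ((LL.hasFDerivAt.comp l (hasF_UU t l)).fun_add
      (BB.hasFDerivAt_of_bilinear (hasF_XX t l) (hasF_UU t l))).fderiv
  rw [h]
  simp

theorem bU_deriv (t : ℝ) (l : E) : ∃ D : E →L[ℝ] E, HasDerivAt (fun s => bU s l) D t ∧
    ∀ v, D v = AA l (bU t l v) + AA v (UU (t, l)) := by
  refine ⟨_, hasDerivAt_fderiv (W := fun w => AA w.2 (UU w)) UU_smooth UU_deriv t l, fun v => ?_⟩
  have h : fderiv ℝ (fun r => AA (t, r).2 (UU (t, r))) l = _ :=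
    (AA.hasFDerivAt_of_bilinear (hasFDerivAt_id l) (hasF_UU t l)).fderiv
  rw [h]
  simp

theorem jX (l v : E) (t : ℝ) : HasDerivAt (fun s => bX s l v)
    (LL (bU t l v) + (BB (XX (t, l)) (bU t l v) + BB (bX t l v) (UU (t, l)))) t := by
  obtain ⟨D, h1, h2⟩ := bX_deriv t l
  simpa [h2] using h1.clm_apply (hasDerivAt_const t v)

theorem jU (l v : E) (t : ℝ) : HasDerivAt (fun s => bU s l v)
    (AA l (bU t l v) + AA v (UU (t, l))) t := by
  obtain ⟨D, h1, h2⟩ := bU_deriv t l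
  simpa [h2] using h1.clm_apply (hasDerivAt_const t v)

theorem bX_zero (l : E) : bX 0 l = 0 := by simp [bX, XX_zero]

theorem bU_zero (l v : E) : bU 0 l v = v := by simp [bU, UU_zero]

theorem bX_scale (s : ℝ) (l v : E) : bX s l v = s • bX 1 (s • l) v := by
  have h1 := (hasF_XX 1 (s • l)).comp l ((hasFDerivAt_id l).const_smul s)
  have h2 : (fun r => XX (s, r)) = (fun r => XX (1, r)) ∘ (HSMul.hSMul s) :=
    funext fun r => (flow_scale s r).1.symm
  rw [bX, h2, h1.fderiv]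
  simp

theorem bX_sg (l v : E) : bX 1 (sg l) (sg v) = sg (bX 1 l v) := by
  have h1 := (hasF_XX 1 (sg l)).comp l sg.hasFDerivAt
  have h2 := sg.hasFDerivAt.comp l (hasF_XX 1 l)
  have h3 : (fun r => XX (1, r)) ∘ sg = sg ∘ fun r => XX (1, r) := funext flow_sg
  rw [h3] at h1
  exact congrArg (fun L : E →L[ℝ] E => L v) (h1.unique h2)

end Pool.Agent.Work.MP_c4e502_gt
end

-- merged part: Pool.Agent.Work.MP_c4e502_gt.Jac
section
namespace Pool.Agent.Work.MP_c4e502_gt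

open scoped ContDiff Topology
open Filter Set Real

/-- the left-trivialised Jacobi field -/
noncomputable def mm (t : ℝ) (l v : E) : E := bX t l v - BB (XX (t, l)) (bX t l v)

theorem all8 {P : Fin 8 → Prop} (h : P 0 ∧ P 1 ∧ P 2 ∧ P 3 ∧ P 4 ∧ P 5 ∧ P 6 ∧ P 7) (i : Fin 8) :
    P i := by
  obtain ⟨h0, h1, h2, h3, h4, h5, h6, h7⟩ := h
  fin_cases i
  exacts [h0, h1, h2, h3, h4, h5, h6, h7]

theorem LL_co (u : E) (i : Fin 8) : LL u i = (![1, 1, 1, 1, 1, 1, 0, 0] : E) i * u i := rfl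

theorem BB_LL2 (x u : E) : BB x (LL u) = BB x u := by simp [BB_apply, LL_apply]

theorem LL_mm (t : ℝ) (l v : E) : LL (mm t l v) = LL (bX t l v) := by simp [mm, LL_BB]

theorem jM (l v : E) (t : ℝ) : HasDerivAt (fun s => mm s l v)
    (LL (bU t l v) + (BB (mm t l v) (UU (t, l)) - BB (UU (t, l)) (mm t l v))) t := by
  refine ((jX l v t).fun_sub ((BB.hasFDerivAt.comp_hasDerivAt t (XX_deriv t l)).clm_apply
    (jX l v t))).congr_deriv ?_
  rw [← BB_LL (mm t l v), ← BB_LL2 _ (mm t l v), LL_mm, BB_LL, BB_LL2]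
  refine funext (all8 ⟨?_, ?_, ?_, ?_, ?_, ?_, ?_, ?_⟩) <;>
    simp only [BB_apply, LL_co, Pi.add_apply, Pi.sub_apply, Function.comp_apply,
      Matrix.cons_val] <;> ring

theorem mm_zero (l v : E) : mm 0 l v = 0 := by simp [mm, bX_zero]

theorem m_unique {l v : E} {M : ℝ → E} (h0 : M 0 = 0)
    (h : ∀ t, HasDerivAt M (LL (bU t l v) + (BB (M t) (UU (t, l)) - BB (UU (t, l)) (M t))) t)
    (t : ℝ) : mm t l v = M t := by
  have h1 : (fun t => LL (mm t l v)) = fun t => LL (M t) :=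
    int_unique (r := fun t => LL (bU t l v))
      (fun t => (LL.hasFDerivAt.comp_hasDerivAt t (jM l v t)).congr_deriv (by simp [LL_BB, LL_LL]))
      (fun t => (LL.hasFDerivAt.comp_hasDerivAt t (h t)).congr_deriv (by simp [LL_BB, LL_LL]))
      (by rw [h0, mm_zero])
  have h2 : ∀ x u, BB x (LL u) = BB x u := fun x u => by simp [BB_apply, LL_apply]
  refine congrFun (int_unique (f := fun t => mm t l v) (fun t => ?_) h (by rw [h0, mm_zero])) t
  rw [← BB_LL, ← h2 (UU (t, l)) (M t), ← congrFun h1 t, BB_LL, h2]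
  exact jM l v t

theorem hasDerivAt_dot {f g : ℝ → E} {f' g' : E} {t : ℝ} (hf : HasDerivAt f f' t)
    (hg : HasDerivAt g g' t) : HasDerivAt (fun s => f s ⬝ᵥ g s) (f' ⬝ᵥ g t + f t ⬝ᵥ g') t := by
  have := HasDerivAt.fun_sum (u := Finset.univ) fun i _ =>
    (hasDerivAt_pi.1 hf i).fun_mul (hasDerivAt_pi.1 hg i)
  rw [Finset.sum_add_distrib] at this
  exact this

theorem omega_zero (l v w : E) (t : ℝ) :
    mm t l v ⬝ᵥ LL (bU t l w) - mm t l w ⬝ᵥ LL (bU t l v) - mm t l v ⬝ᵥ AA l (mm t l w) +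
      (mm t l v ⬝ᵥ (w - LL w) - mm t l w ⬝ᵥ (v - LL v)) = 0 := by
  refine congrFun (int_unique (f := fun t => mm t l v ⬝ᵥ LL (bU t l w) - mm t l w ⬝ᵥ LL (bU t l v)
    - mm t l v ⬝ᵥ AA l (mm t l w) + (mm t l v ⬝ᵥ (w - LL w) - mm t l w ⬝ᵥ (v - LL v)))
    (g := fun _ => 0) (r := fun _ => 0) (fun t => ?_) (fun t => hasDerivAt_const _ _)
    (by simp [mm_zero])) t
  refine ((((hasDerivAt_dot (jM l v t) (LL.hasFDerivAt.comp_hasDerivAt t (jU l w t))).fun_sub
    (hasDerivAt_dot (jM l w t) (LL.hasFDerivAt.comp_hasDerivAt t (jU l v t)))).fun_sub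
    (hasDerivAt_dot (jM l v t) ((AA l).hasFDerivAt.comp_hasDerivAt t (jM l w t)))).fun_add
    ((hasDerivAt_dot (jM l v t) (hasDerivAt_const t (w - LL w))).fun_sub
    (hasDerivAt_dot (jM l w t) (hasDerivAt_const t (v - LL v))))).congr_deriv ?_
  simp only [dotProduct, Fin.sum_univ_eight]
  simp only [AA_apply, BB_apply, LL_co, Pi.add_apply, Pi.sub_apply, Pi.zero_apply,
    Function.comp_apply, Matrix.cons_val]
  ring

noncomputable def cs (j t : ℝ) : ℝ := cos (j * π * t)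
noncomputable def sn (j t : ℝ) : ℝ := sin (j * π * t)

theorem hcs (j t : ℝ) : HasDerivAt (fun s => cs j s) (-(j * π) * sn j t) t :=
  (((hasDerivAt_id t).const_mul (j * π)).cos).congr_deriv (by simp [sn]; ring)

theorem hsn (j t : ℝ) : HasDerivAt (fun s => sn j s) (j * π * cs j t) t :=
  (((hasDerivAt_id t).const_mul (j * π)).sin).congr_deriv (by simp [cs]; ring)

theorem sc (j t : ℝ) : sn j t ^ 2 + cs j t ^ 2 = 1 := sin_sq_add_cos_sq _

theorem at0 (j : ℝ) : cs j 0 = 1 ∧ sn j 0 = 0 := by simp [cs, sn]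

theorem at1 : cs 1 1 = -1 ∧ sn 1 1 = 0 ∧ cs 5 1 = -1 ∧ sn 5 1 = 0 ∧ cs 7 1 = -1 ∧ sn 7 1 = 0 := by
  have h5 : (5 : ℝ) * π = π + (2 : ℕ) * (2 * π) := by push_cast; ring
  have h7 : (7 : ℝ) * π = π + (3 : ℕ) * (2 * π) := by push_cast; ring
  simp only [cs, sn, mul_one, one_mul, h5, h7, cos_add_nat_mul_two_pi, sin_add_nat_mul_two_pi]
  simp

/-- linear combinations of the basic functions -/
noncomputable def lc (a : Fin 10 → ℝ) (t : ℝ) : ℝ :=
  a 0 + a 1 * cs 1 t + a 2 * sn 1 t + a 3 * cs 5 t + a 4 * sn 5 t + a 5 * cs 7 t + a 6 * sn 7 t +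
    a 7 * (t * cs 5 t) + a 8 * (t * sn 5 t) + a 9 * t

theorem hlc (a : Fin 10 → ℝ) (t : ℝ) : HasDerivAt (lc a)
    (a 9 + π * a 2 * cs 1 t - π * a 1 * sn 1 t + (5 * π * a 4 + a 7) * cs 5 t +
      (a 8 - 5 * π * a 3) * sn 5 t + 7 * π * a 6 * cs 7 t - 7 * π * a 5 * sn 7 t +
      5 * π * a 8 * (t * cs 5 t) - 5 * π * a 7 * (t * sn 5 t)) t := by
  refine ((((((((((hasDerivAt_const t (a 0)).fun_add ((hcs 1 t).const_mul _)).fun_add
    ((hsn 1 t).const_mul _)).fun_add ((hcs 5 t).const_mul _)).fun_add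
    ((hsn 5 t).const_mul _)).fun_add ((hcs 7 t).const_mul _)).fun_add
    ((hsn 7 t).const_mul _)).fun_add (((hasDerivAt_id' t).fun_mul (hcs 5 t)).const_mul _)).fun_add
    (((hasDerivAt_id' t).fun_mul (hsn 5 t)).const_mul _)).fun_add
    ((hasDerivAt_id' t).const_mul _)).congr_deriv ?_
  ring

theorem lc_zero (a : Fin 10 → ℝ) : lc a 0 = a 0 + a 1 + a 3 + a 5 := by
  simp [lc, at0]

theorem lc_one (a : Fin 10 → ℝ) : lc a 1 = a 0 - a 1 - a 3 - a 5 - a 7 + a 9 := by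
  simp only [lc, at1]
  ring

noncomputable def lam (α τ ε : ℝ) : E := ![α, τ, 0, ε, 0, 0, π, 0]

theorem UU_lam (α τ ε t : ℝ) : UU (t, lam α τ ε) = ![α * cs 5 t - τ * sn 5 t,
    τ * cs 5 t + α * sn 5 t, ε * sn 1 t, ε * cs 1 t, 0, 0, π, 0] := by
  have := lin_unique (AA (lam α τ ε)) (r := fun _ => 0) (f := fun t => UU (t, lam α τ ε))
    (g := fun t i => lc (![![0, 0, 0, α, -τ, 0, 0, 0, 0, 0], ![0, 0, 0, τ, α, 0, 0, 0, 0, 0],
      ![0, 0, ε, 0, 0, 0, 0, 0, 0, 0], ![0, ε, 0, 0, 0, 0, 0, 0, 0, 0], 0, 0,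
      ![π, 0, 0, 0, 0, 0, 0, 0, 0, 0], 0] i) t)
    (fun t => by simpa using UU_deriv t _)
    (fun t => hasDerivAt_pi.2 fun i => (hlc _ t).congr_deriv (by
      revert i
      refine all8 ⟨?_, ?_, ?_, ?_, ?_, ?_, ?_, ?_⟩ <;>
        simp only [AA_apply, lc, lam, Pi.add_apply, Pi.zero_apply, Matrix.cons_val] <;> ring))
    (by
      rw [UU_zero]
      refine funext (all8 ⟨?_, ?_, ?_, ?_, ?_, ?_, ?_, ?_⟩) <;> rw [lc_zero] <;>
        simp only [lam, Pi.zero_apply, Matrix.cons_val] <;> ring)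
  rw [congrFun this t]
  refine funext (all8 ⟨?_, ?_, ?_, ?_, ?_, ?_, ?_, ?_⟩) <;>
    simp only [lc, Pi.zero_apply, Matrix.cons_val] <;> ring

noncomputable def vv (α : ℝ) : E := ![0, 0, 0, α / (5 * π), 0, α / (5 * π), 0, 1]

theorem bU_lam (α τ ε t : ℝ) : bU t (lam α τ ε) (vv α) = fun i => lc (![
    ![0, -5 * ε / (24 * π), 0, 5 * ε / (24 * π), 0, 0, 0, 0, 0, 0],
    ![0, 0, -ε / (24 * π), 0, 5 * ε / (24 * π), 0, 0, 0, 0, 0],
    ![0, -τ / (24 * π), -α / (120 * π), τ / (24 * π), α / (24 * π), 0, 0, 0, 0, 0],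
    ![0, -α / (120 * π), τ / (24 * π), 5 * α / (24 * π), -5 * τ / (24 * π), 0, 0, 0, 0, 0],
    ![0, 0, 0, -7 * τ / (24 * π), -7 * α / (24 * π), 7 * τ / (24 * π), 49 * α / (120 * π), 0, 0, 0],
    ![0, 0, 0, -5 * α / (24 * π), 5 * τ / (24 * π), 49 * α / (120 * π), -7 * τ / (24 * π), 0, 0, 0],
    0, ![1, 0, 0, 0, 0, 0, 0, 0, 0, 0]] i) t := by
  have := pi_pos
  refine congrFun (lin_unique (AA (lam α τ ε)) (f := fun t => bU t (lam α τ ε) (vv α))
    (fun t => jU _ _ t) (fun t => hasDerivAt_pi.2 fun i => (hlc _ t).congr_deriv ?_) ?_) t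
  · rw [UU_lam]
    revert i
    refine all8 ⟨?_, ?_, ?_, ?_, ?_, ?_, ?_, ?_⟩ <;>
      simp only [AA_apply, lc, lam, vv, Pi.add_apply, Pi.zero_apply, Matrix.cons_val] <;>
      field_simp <;> ring
  · rw [bU_zero]
    refine funext (all8 ⟨?_, ?_, ?_, ?_, ?_, ?_, ?_, ?_⟩) <;> rw [lc_zero] <;>
      simp only [vv, Pi.zero_apply, Matrix.cons_val] <;> ring

noncomputable def M6 (α τ ε t : ℝ) : ℝ :=
  (-1 * τ * ε / (12 * π ^ 3)) * (cs 1 t * cs 5 t) +
    (-13 * τ * ε / (60 * π ^ 3)) * (sn 1 t * sn 5 t) +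
    (1 * α * ε / (5 * π ^ 2)) * t +
    (-1 * α * ε / (12 * π ^ 3)) * (cs 1 t * sn 5 t) +
    (13 * α * ε / (60 * π ^ 3)) * (cs 5 t * sn 1 t) +
    (1 * τ * ε / (12 * π ^ 3))

noncomputable def M7 (α τ ε t : ℝ) : ℝ :=
  (-5 * τ * τ / (576 * π ^ 3) - α * α / (2880 * π ^ 3) + 5 * ε * ε / (576 * π ^ 3)) *
      (cs 1 t * sn 5 t) +
    (τ * τ / (576 * π ^ 3) + α * α / (576 * π ^ 3) - ε * ε / (576 * π ^ 3)) * (cs 5 t * sn 1 t) +
    (7 * τ * τ / (576 * π ^ 3) + 7 * α * α / (576 * π ^ 3)) * (cs 5 t * sn 7 t) +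
    (-5 * τ * τ / (576 * π ^ 3) - 49 * α * α / (2880 * π ^ 3)) * (cs 7 t * sn 5 t) +
    (1 * τ * α / (120 * π ^ 3)) * (cs 1 t * cs 5 t) +
    (-1 * τ * α / (120 * π ^ 3)) * (cs 5 t * cs 7 t) +
    (-1 * ε * ε / (48 * π ^ 2)) * t +
    (-1 * ε * ε / (48 * π ^ 3)) * (cs 1 t * sn 1 t)

noncomputable def Mc (α τ ε : ℝ) : Fin 8 → Fin 10 → ℝ := ![
    ![0, 0, -5 * ε / (24 * π ^ 2), 0, ε / (24 * π ^ 2), 0, 0, 0, 0, 0],
    ![0, ε / (24 * π ^ 2), 0, -ε / (24 * π ^ 2), 0, 0, 0, 0, 0, 0],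
    ![0, α / (120 * π ^ 2), -τ / (24 * π ^ 2), -α / (120 * π ^ 2), τ / (120 * π ^ 2),
      0, 0, 0, 0, 0],
    ![0, -τ / (24 * π ^ 2), -α / (120 * π ^ 2), τ / (24 * π ^ 2), α / (24 * π ^ 2), 0, 0, 0, 0, 0],
    ![0, 0, 0, 7 * α / (120 * π ^ 2), -7 * τ / (120 * π ^ 2), -7 * α / (120 * π ^ 2),
      τ / (24 * π ^ 2), 0, 0, 0],
    ![0, 0, 0, -τ / (24 * π ^ 2), -α / (24 * π ^ 2), τ / (24 * π ^ 2), 7 * α / (120 * π ^ 2),
      0, 0, 0], 0, 0]

theorem mm_lam (α τ ε : ℝ) : mm 1 (lam α τ ε) (vv α) =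
    ![0, 0, 0, 0, 0, 0, α * ε / (5 * π ^ 2), -ε ^ 2 / (48 * π ^ 2)] := by
  have := pi_pos
  rw [m_unique (M := fun t i => lc (Mc α τ ε i) t + (M6 α τ ε t * (![0, 0, 0, 0, 0, 0, 1, 0] : E) i +
    M7 α τ ε t * (![0, 0, 0, 0, 0, 0, 0, 1] : E) i))]
  · have e6 : M6 α τ ε 1 = α * ε / (5 * π ^ 2) := by
      simp only [M6, at1]
      ring
    have e7 : M7 α τ ε 1 = -ε ^ 2 / (48 * π ^ 2) := by
      simp only [M7, at1]
      ring
    rw [e6, e7]
    refine funext (all8 ⟨?_, ?_, ?_, ?_, ?_, ?_, ?_, ?_⟩) <;> rw [lc_one] <;>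
      simp only [Mc, Pi.zero_apply, Matrix.cons_val] <;> ring
  · have e6 : M6 α τ ε 0 = 0 := by
      simp only [M6, at0]
      ring
    have e7 : M7 α τ ε 0 = 0 := by
      simp only [M7, at0]
      ring
    rw [e6, e7]
    refine funext (all8 ⟨?_, ?_, ?_, ?_, ?_, ?_, ?_, ?_⟩) <;> rw [lc_zero] <;>
      simp only [Mc, Pi.zero_apply, Matrix.cons_val] <;> ring
  intro t
  have h6 : HasDerivAt (fun t => M6 α τ ε t) _ t :=
    ((((((((hcs 1 t).fun_mul (hcs 5 t)).const_mul _).fun_add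
      (((hsn 1 t).fun_mul (hsn 5 t)).const_mul _)).fun_add
      ((hasDerivAt_id' t).const_mul _)).fun_add
      (((hcs 1 t).fun_mul (hsn 5 t)).const_mul _)).fun_add
      (((hcs 5 t).fun_mul (hsn 1 t)).const_mul _)).add_const _)
  have h7 : HasDerivAt (fun t => M7 α τ ε t) _ t :=
    ((((((((((hcs 1 t).fun_mul (hsn 5 t)).const_mul _).fun_add
      (((hcs 5 t).fun_mul (hsn 1 t)).const_mul _)).fun_add
      (((hcs 5 t).fun_mul (hsn 7 t)).const_mul _)).fun_add
      (((hcs 7 t).fun_mul (hsn 5 t)).const_mul _)).fun_add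
      (((hcs 1 t).fun_mul (hcs 5 t)).const_mul _)).fun_add
      (((hcs 5 t).fun_mul (hcs 7 t)).const_mul _)).fun_add
      ((hasDerivAt_id' t).const_mul _)).fun_add
      (((hcs 1 t).fun_mul (hsn 1 t)).const_mul _))
  refine hasDerivAt_pi.2 fun i =>
    ((hlc _ t).fun_add ((h6.mul_const _).fun_add (h7.mul_const _))).congr_deriv ?_
  have s1 := sc 1 t
  rw [UU_lam, bU_lam]
  revert i
  refine all8 ⟨?_, ?_, ?_, ?_, ?_, ?_, ?_, ?_⟩ <;>
    simp only [BB_apply, LL_co, lc, Mc, Pi.add_apply, Pi.sub_apply, Pi.zero_apply,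
      Matrix.cons_val]
  rotate_right 2
  · linear_combination (norm := (field_simp; ring)) (ε * α / (120 * π ^ 2)) * s1 -
      (25 * ε * α / (120 * π ^ 2)) * sc 5 t
  · linear_combination (norm := (field_simp; ring)) (ε ^ 2 / (48 * π ^ 2)) * s1
  all_goals field_simp; ring

theorem bU_zero_lam (v : E) (h7 : v 7 = 0) (t : ℝ) : bU t (lam 0 1 0) v = fun i => lc (![
    ![0, 0, 0, v 0, -v 1, 0, 0, -5 * v 6, 0, 0], ![0, 0, 0, v 1, v 0, 0, 0, 0, -5 * v 6, 0],
    ![0, v 2, v 3, 0, 0, 0, 0, 0, 0, 0], ![0, v 3, -v 2, 0, 0, 0, 0, 0, 0, 0],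
    ![0, 0, 0, 0, 0, v 4, v 5, 0, 0, 0], ![0, 0, 0, 0, 0, v 5, -v 4, 0, 0, 0],
    ![v 6, 0, 0, 0, 0, 0, 0, 0, 0, 0], 0] i) t := by
  refine congrFun (lin_unique (AA (lam 0 1 0)) (f := fun t => bU t (lam 0 1 0) v)
    (fun t => jU _ _ t) (fun t => hasDerivAt_pi.2 fun i => (hlc _ t).congr_deriv ?_) ?_) t
  · rw [UU_lam]
    revert i
    refine all8 ⟨?_, ?_, ?_, ?_, ?_, ?_, ?_, ?_⟩ <;>
      simp only [AA_apply, lc, lam, Pi.add_apply, Pi.zero_apply, Matrix.cons_val] <;>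
      (try rw [h7]) <;> ring
  · rw [bU_zero]
    refine funext (all8 ⟨?_, ?_, ?_, ?_, ?_, ?_, ?_, ?_⟩) <;> rw [lc_zero] <;>
      simp only [Pi.zero_apply, Matrix.cons_val] <;> (try rw [h7]) <;> ring

noncomputable def Nc (v : E) : Fin 8 → Fin 10 → ℝ := ![
    ![-v 1 / (5 * π) + v 6 / (5 * π ^ 2), 0, 0, v 1 / (5 * π) - v 6 / (5 * π ^ 2), v 0 / (5 * π),
      0, 0, 0, -v 6 / π, 0],
    ![v 0 / (5 * π), 0, 0, -v 0 / (5 * π), v 1 / (5 * π) - v 6 / (5 * π ^ 2), 0, 0, v 6 / π, 0, 0],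
    ![v 3 / π, -v 3 / π, v 2 / π, 0, 0, 0, 0, 0, 0, 0],
    ![-v 2 / π, v 2 / π, v 3 / π, 0, 0, 0, 0, 0, 0, 0],
    ![v 5 / (7 * π), 0, 0, 0, 0, -v 5 / (7 * π), v 4 / (7 * π), 0, 0, 0],
    ![-v 4 / (7 * π), 0, 0, 0, 0, v 4 / (7 * π), v 5 / (7 * π), 0, 0, 0],
    ![v 0 / (5 * π ^ 2), 0, 0, -v 0 / (5 * π ^ 2), -v 1 / (5 * π ^ 2) + v 6 / (5 * π ^ 3),
      0, 0, 0, 0, v 1 / π - v 6 / π ^ 2], 0]

theorem nondegH (v : E) (h7 : v 7 = 0) (h : ∀ i, i ≠ 7 → mm 1 (lam 0 1 0) v i = 0) : v = 0 := by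
  have hπ := pi_pos
  have key : ∀ i, i ≠ 7 → mm 1 (lam 0 1 0) v i = lc (Nc v i) 1 := by
    have h1 : (fun t => LL (mm t (lam 0 1 0) v)) = fun t => LL fun i => lc (Nc v i) t :=
      int_unique (r := fun t => LL (bU t (lam 0 1 0) v))
        (fun t => (LL.hasFDerivAt.comp_hasDerivAt t (jM _ v t)).congr_deriv
          (by simp [LL_BB, LL_LL]))
        (fun t => (LL.hasFDerivAt.comp_hasDerivAt t
          (hasDerivAt_pi.2 fun i => hlc (Nc v i) t)).congr_deriv (by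
            rw [bU_zero_lam v h7]
            refine funext (all8 ⟨?_, ?_, ?_, ?_, ?_, ?_, ?_, ?_⟩) <;>
              simp only [LL_co, lc, Nc, Pi.zero_apply, Matrix.cons_val] <;> field_simp <;> ring))
        (by
          rw [mm_zero]
          refine funext (all8 ⟨?_, ?_, ?_, ?_, ?_, ?_, ?_, ?_⟩) <;> rw [LL_co, LL_co, lc_zero] <;>
            simp only [Nc, Pi.zero_apply, Matrix.cons_val] <;> ring)
    have h2 : (fun t => mm t (lam 0 1 0) v 6) = lc (Nc v 6) :=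
      int_unique (fun t => hasDerivAt_pi.1 (jM _ v t) 6) (fun t => (hlc _ t).congr_deriv (by
          rw [← BB_LL, ← BB_LL2 _ (mm t _ v), congrFun h1 t, UU_lam]
          simp only [LL_co, BB_apply, lc, Nc, Pi.add_apply, Pi.sub_apply, Matrix.cons_val]
          linear_combination (norm := (field_simp; ring)) ((v 6 - π * v 1) / π ^ 2) * sc 5 t))
        (by
          rw [mm_zero, lc_zero]
          simp only [Nc, Pi.zero_apply, Matrix.cons_val]
          ring)
    have h3 := congrFun h1 1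
    have h4 : ∀ i, (![1, 1, 1, 1, 1, 1, 0, 0] : E) i = 1 →
        mm 1 (lam 0 1 0) v i = lc (Nc v i) 1 := fun i e => by
      have := congrFun h3 i
      rwa [LL_co, LL_co, e, one_mul, one_mul] at this
    exact all8 ⟨fun _ => h4 0 rfl, fun _ => h4 1 rfl, fun _ => h4 2 rfl, fun _ => h4 3 rfl,
      fun _ => h4 4 rfl, fun _ => h4 5 rfl, fun _ => congrFun h2 1, fun hi => absurd rfl hi⟩
  have k : ∀ i, i ≠ 7 → lc (Nc v i) 1 = 0 := fun i hi => by rw [← key i hi, h i hi]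
  have k0 := k 0 (by decide)
  have k1 := k 1 (by decide)
  have k2 := k 2 (by decide)
  have k3 := k 3 (by decide)
  have k4 := k 4 (by decide)
  have k5 := k 5 (by decide)
  have k6 := k 6 (by decide)
  rw [lc_one] at k0 k1 k2 k3 k4 k5 k6
  simp only [Nc, Matrix.cons_val] at k0 k1 k2 k3 k4 k5 k6
  field_simp at k0 k1 k2 k3 k4 k5 k6
  have v6 : v 6 = 0 := by linarith only [k0, k1, k6]
  have v1 : v 1 = 0 := (mul_eq_zero.1 (show v 1 * π = 0 by linarith only [k0, v6])).resolve_right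
    hπ.ne'
  exact funext (all8 ⟨show v 0 = 0 by linarith only [k1, v6], v1, show v 2 = 0 by linarith only [k3],
    show v 3 = 0 by linarith only [k2], show v 4 = 0 by linarith only [k5],
    show v 5 = 0 by linarith only [k4], v6, h7⟩)

end Pool.Agent.Work.MP_c4e502_gt
end

-- merged part: Pool.Agent.Work.MP_c4e502_gt.Ham
section
-- merged part: Pool.Agent.Work.MP_c4e502_gt.Phi
section
namespace Pool.Agent.Work.MP_c4e502_gt

open scoped ContDiff Topology
open Filter Set Real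

noncomputable def ex (l : E) : E := XX (1, l)

theorem ex_smooth : ContDiff ℝ ∞ ex := by unfold ex; fun_prop

noncomputable def LM (l : E) : E →L[ℝ] E :=
  (diag ![1, 1, 1, 1, 1, 1, 1, 0]).comp (bX 1 l) + diag ![0, 0, 0, 0, 0, 0, 0, 1]

theorem LM_apply (l v : E) : LM l v = ![bX 1 l v 0, bX 1 l v 1, bX 1 l v 2, bX 1 l v 3, bX 1 l v 4,
    bX 1 l v 5, bX 1 l v 6, v 7] := by
  ext i; fin_cases i <;> simp [LM, diag_apply]

theorem bX1_smooth : ContDiff ℝ ∞ (bX 1) := ex_smooth.fderiv_right (m := ∞) le_rfl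

theorem LM_smooth : ContDiff ℝ ∞ LM := (contDiff_const.clm_comp bX1_smooth).add contDiff_const

noncomputable def eta (l : E) : E := Ring.inverse (LM l) ![0, 0, 0, 0, 0, 0, 0, 1]
noncomputable def phi (l : E) : ℝ := bX 1 l (eta l) 7

theorem eta_smooth {l : E} (h : IsUnit (LM l)) : ContDiffAt ℝ ∞ eta l := by
  obtain ⟨u, hu⟩ := h
  have := contDiffAt_ringInverse ℝ (n := ∞) u
  rw [hu] at this
  exact (this.comp l LM_smooth.contDiffAt).clm_apply contDiffAt_const

theorem phi_smooth {l : E} (h : IsUnit (LM l)) : ContDiffAt ℝ ∞ phi l :=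
  contDiffAt_pi.1 (bX1_smooth.contDiffAt.clm_apply (eta_smooth h)) 7

theorem LM_inj {l v : E} (h : IsUnit (LM l)) (h7 : v 7 = 0) (hv : ∀ i, i ≠ 7 → bX 1 l v i = 0) :
    v = 0 := by
  have h1 : LM l v = 0 := by
    rw [LM_apply]; ext i; fin_cases i <;> simp [h7, hv]
  have h2 := congrArg (fun L : E →L[ℝ] E => L v) (Ring.inverse_mul_cancel _ h)
  simpa [h1] using h2.symm

theorem eta_spec {l : E} (h : IsUnit (LM l)) :
    eta l 7 = 1 ∧ ∀ i, i ≠ 7 → bX 1 l (eta l) i = 0 := by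
  have h2 : LM l (eta l) = ![0, 0, 0, 0, 0, 0, 0, 1] :=
    congrArg (fun L : E →L[ℝ] E => L ![0, 0, 0, 0, 0, 0, 0, 1]) (Ring.mul_inverse_cancel _ h)
  rw [LM_apply] at h2
  refine ⟨congrFun h2 7, fun i hi => ?_⟩
  fin_cases i
  exacts [congrFun h2 0, congrFun h2 1, congrFun h2 2, congrFun h2 3, congrFun h2 4,
    congrFun h2 5, congrFun h2 6, absurd rfl hi]

theorem eta_uniq {l v : E} (h : IsUnit (LM l)) (h7 : v 7 = 1)
    (hv : ∀ i, i ≠ 7 → bX 1 l v i = 0) : eta l = v :=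
  sub_eq_zero.1 (LM_inj h (by simp [h7, (eta_spec h).1]) fun i hi => by
    simp [hv i hi, (eta_spec h).2 i hi])

theorem conj_iff {l : E} (h : IsUnit (LM l)) :
    ¬ Function.Injective (fderiv ℝ ex l) ↔ phi l = 0 := by
  change ¬ Function.Injective (bX 1 l) ↔ _
  rw [injective_iff_map_eq_zero]
  push Not
  constructor
  · rintro ⟨v, h1, h2⟩
    have h7 : v 7 ≠ 0 := fun h7 => h2 (LM_inj h h7 fun i _ => by simp [h1])
    rw [phi, eta_uniq h (v := (v 7)⁻¹ • v) (by simp [h7]) fun i _ => by simp [h1]]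
    simp [h1]
  · intro h0
    refine ⟨eta l, funext fun i => ?_, fun h1 => ?_⟩
    · by_cases hi : i = 7
      · subst hi; exact h0
      · exact (eta_spec h).2 i hi
    · simpa [h1] using (eta_spec h).1

theorem mm_eq {t : ℝ} {l v : E} (h : LL (bX t l v) = 0) : mm t l v = bX t l v := by
  rw [mm, ← BB_LL2, h]; simp

theorem unit_lam : IsUnit (LM (lam 0 1 0)) := by
  refine ContinuousLinearMap.isUnit_iff_bijective.2 ?_
  have hi : Function.Injective (LM (lam 0 1 0)) := by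
    rw [injective_iff_map_eq_zero]
    intro v hv
    rw [LM_apply] at hv
    have h1 : ∀ i, i ≠ 7 → bX 1 (lam 0 1 0) v i = 0 := fun i hi => by
      fin_cases i
      exacts [congrFun hv 0, congrFun hv 1, congrFun hv 2, congrFun hv 3, congrFun hv 4,
        congrFun hv 5, congrFun hv 6, absurd rfl hi]
    refine nondegH v (congrFun hv 7) ?_
    rw [mm_eq (by ext i; fin_cases i <;> simp [LL_apply, h1])]
    exact h1
  exact ⟨hi, (LinearMap.injective_iff_surjective (f := (LM (lam 0 1 0)).toLinearMap)).1 hi⟩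

theorem unit_nhds {l : E} (h : IsUnit (LM l)) : ∀ᶠ r in 𝓝 l, IsUnit (LM r) :=
  LM_smooth.continuous.continuousAt.eventually (Units.isOpen.mem_nhds h)

theorem phi_lam {α τ ε : ℝ} (h0 : α * ε = 0) (h : IsUnit (LM (lam α τ ε))) :
    eta (lam α τ ε) = vv α ∧ phi (lam α τ ε) = -ε ^ 2 / (48 * π ^ 2) := by
  have h1 := mm_lam α τ ε
  rw [mm_eq (by rw [← LL_mm, h1]; ext i; fin_cases i <;> simp [LL_apply])] at h1
  have h2 := eta_uniq h (v := vv α) rfl fun i hi => by
    rw [h1]; fin_cases i <;> simp [h0] at hi ⊢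
  exact ⟨h2, by rw [phi, h2, h1]; rfl⟩

theorem phi_sg {l : E} (h : IsUnit (LM l)) (h' : IsUnit (LM (sg l))) : phi (sg l) = phi l := by
  have h1 := eta_spec h
  have h2 := eta_uniq h' (v := -sg (eta l)) (by simp [sg_apply, h1.1]) fun i hi => by
    rw [map_neg, bX_sg, sg_apply]
    fin_cases i <;> simp [h1.2] at hi ⊢
  rw [phi, h2, map_neg, bX_sg, sg_apply]
  simp [phi]

theorem ray_deriv {l : E} {s : ℝ} (h : IsUnit (LM (s • l))) :
    ∃ w, HasDerivAt (fun r : ℝ => eta (r • l)) w s ∧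
      HasDerivAt (fun r : ℝ => r * phi (r • l))
        (LL (bU s l (eta (s • l))) ⬝ᵥ LL (bU s l (eta (s • l)))) s ∧
      (s ≠ 0 → LL (bU s l (eta (s • l))) = 0 → w = 0) := by
  have hl : HasDerivAt (fun r : ℝ => r • l) l s := by simpa using (hasDerivAt_id s).smul_const l
  have h1 := ((eta_smooth h).differentiableAt (by simp)).hasFDerivAt.comp_hasDerivAt s hl
  set w := fderiv ℝ eta (s • l) l
  have hu : ∀ᶠ r in 𝓝 s, IsUnit (LM (r • l)) := hl.continuousAt.eventually (unit_nhds h)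
  obtain ⟨D, hD, hD2⟩ := bX_deriv s l
  have h2 := hasDerivAt_pi.1 (hD.clm_apply h1)
  simp only [Function.comp, hD2] at h2
  have h7 : w 7 = 0 := (hasDerivAt_pi.1 h1 7).unique
    ((hasDerivAt_const s (1 : ℝ)).congr_of_eventuallyEq (hu.mono fun r hr => (eta_spec hr).1))
  have h3 : ∀ r, IsUnit (LM (r • l)) → ∀ i, i ≠ 7 → bX r l (eta (r • l)) i = 0 := fun r hr i hi => by
    rw [bX_scale]; simp [(eta_spec hr).2 i hi]
  have h4 := fun i hi => (h2 i).unique
    ((hasDerivAt_const s (0 : ℝ)).congr_of_eventuallyEq (hu.mono fun r hr => h3 r hr i hi))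
  have h5 : (fun r : ℝ => r * phi (r • l)) = fun r => bX r l (eta (r • l)) 7 :=
    funext fun r => by rw [bX_scale]; rfl
  have h6 := h3 s h
  have h8 := omega_zero l (eta (s • l)) w s
  rw [mm_eq (by ext i; fin_cases i <;> simp [LL_apply, h6])] at h8
  have a0 := h4 0 (by decide)
  have a1 := h4 1 (by decide)
  have a2 := h4 2 (by decide)
  have a3 := h4 3 (by decide)
  have a4 := h4 4 (by decide)
  have a5 := h4 5 (by decide)
  have a6 := h4 6 (by decide)
  have h9 := (eta_spec h).1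
  set b := bU s l (eta (s • l))
  set c := bX s l w with hc
  simp [LL_apply, BB_apply, h6] at a0 a1 a2 a3 a4 a5 a6
  refine ⟨w, h1, h5 ▸ (h2 7).congr_deriv ?_, fun hs hb => LM_inj h h7 fun i hi => ?_⟩
  · simp [mm, ← hc, dotProduct, Fin.sum_univ_eight, LL_apply, BB_apply, AA_apply, h6, h7, h9,
      Matrix.vecHead, Matrix.vecTail] at h8 ⊢
    linear_combination -h8 + (XX (s, l) 3 + XX (s, l) 5) * a1 - b 0 * a0 - b 1 * a1 - b 2 * a2 -
      b 3 * a3 - b 4 * a4 - b 5 * a5 - eta (s • l) 6 *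
      (a6 - 5 * XX (s, l) 0 * a1 - XX (s, l) 3 * a2 - 7 * XX (s, l) 5 * a4)
  · have b0 := congrFun hb 0
    have b1 := congrFun hb 1
    have b2 := congrFun hb 2
    have b3 := congrFun hb 3
    have b4 := congrFun hb 4
    have b5 := congrFun hb 5
    simp [LL_apply] at b0 b1 b2 b3 b4 b5
    have h10 : c i = 0 := by
      fin_cases i <;> simp_all
    rw [hc, bX_scale] at h10
    simpa [hs] using h10

def GoodH (l : E) : Prop := IsUnit (LM l) ∧ UU (1, l) 1 ≠ 0 ∧ l ≠ 0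

theorem ray_strict {l : E} {a b : ℝ} (hab : a < b) (h : ∀ r ∈ Icc a b, GoodH (r • l)) :
    a * phi (a • l) < b * phi (b • l) := by
  choose! w h1 h2 h3 using fun r (hr : r ∈ Icc a b) => ray_deriv (h r hr).1
  have hm : MonotoneOn (fun r : ℝ => r * phi (r • l)) (Icc a b) := by
    refine monotoneOn_of_deriv_nonneg (convex_Icc _ _)
      (fun r hr => (h2 r hr).continuousAt.continuousWithinAt)
      (fun r hr => (h2 r (interior_subset hr)).differentiableAt.differentiableWithinAt)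
      fun r hr => ?_
    rw [(h2 r (interior_subset hr)).deriv]
    exact Finset.sum_nonneg fun i _ => mul_self_nonneg _
  refine (hm (left_mem_Icc.2 hab.le) (right_mem_Icc.2 hab.le) hab.le).lt_of_ne fun he => ?_
  have h4 : ∀ r ∈ Ioo a b, LL (bU r l (eta (r • l))) = 0 := by
    intro r hr
    refine dotProduct_self_eq_zero.1 ((h2 r (Ioo_subset_Icc_self hr)).unique
      ((hasDerivAt_const r (a * phi (a • l))).congr_of_eventuallyEq ?_))
    filter_upwards [Icc_mem_nhds hr.1 hr.2] with t ht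
    exact le_antisymm ((hm ht (right_mem_Icc.2 hab.le) ht.2).trans he.ge)
      (hm (left_mem_Icc.2 hab.le) ht ht.1)
  obtain ⟨s, hs⟩ := nonempty_Ioo.2 hab
  have hs' := Ioo_subset_Icc_self hs
  have hs0 : s ≠ 0 := fun h0 => (h s hs').2.2 (by simp [h0])
  obtain ⟨D, hD, hD2⟩ := bU_deriv s l
  have h5 := (LL.hasFDerivAt.comp_hasDerivAt s (hD.clm_apply (h1 s hs'))).unique
    ((hasDerivAt_const s (0 : E)).congr_of_eventuallyEq (by
      filter_upwards [Ioo_mem_nhds hs.1 hs.2] with t ht using h4 t ht))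
  rw [h3 s hs' hs0 (h4 s hs), hD2] at h5
  have h6 := (h s hs').2.1
  rw [(flow_scale s l).2] at h6
  have b1 := congrFun (h4 s hs) 1
  have b2 := congrFun (h4 s hs) 2
  have c0 := congrFun h5 0
  have c3 := congrFun h5 3
  have h9 := (eta_spec (h s hs').1).1
  simp [LL_apply, AA_apply] at b1 b2 c0 c3 h6
  simp [b1, b2, h9, h6.2] at c0 c3
  simp [c0, h6.2] at c3

theorem good_nhds : ∀ᶠ l in 𝓝 (lam 0 1 0), GoodH l := by
  have hc : Continuous fun l : E => UU (1, l) 1 :=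
    (continuous_apply 1).comp (UU_smooth.continuous.comp (by fun_prop))
  refine (unit_nhds unit_lam).and (Eventually.and (hc.continuousAt.eventually_ne ?_)
    (eventually_ne_nhds fun h => ?_))
  · simp [UU_lam, at1]
  · simpa [lam] using congrFun h 1

theorem reg_iff : ∀ᶠ l in 𝓝 (lam 0 1 0), l ∈ {l | IsRegConj ex l} ↔ -phi l = 0 := by
  obtain ⟨ρ, hρ, hg⟩ := Metric.eventually_nhds_iff_ball.1 good_nhds
  filter_upwards [Metric.ball_mem_nhds _ hρ] with l hl
  rw [neg_eq_zero, ← conj_iff (hg l hl).1]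
  refine ⟨fun h => h.1.2, fun h => ⟨⟨(hg l hl).2.2, h⟩, _, Metric.isOpen_ball.mem_nhds hl, ?_⟩⟩
  have key : ∀ (v : E) (a b : ℝ), a < b → a • v ∈ Metric.ball (lam 0 1 0) ρ →
      b • v ∈ Metric.ball (lam 0 1 0) ρ → IsConj ex (a • v) → IsConj ex (b • v) → False := by
    intro v a b hab ha hb ca cb
    have := ray_strict (l := v) hab fun r hr => hg _ (by
      obtain ⟨x, y, hx, hy, hxy, rfl⟩ := (segment_eq_Icc hab.le ▸ hr : r ∈ segment ℝ a b)
      have := convex_ball _ _ ha hb hx hy hxy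
      rwa [smul_smul, smul_smul, ← add_smul] at this)
    rw [(conj_iff (hg _ ha).1).1 ca.2, (conj_iff (hg _ hb).1).1 cb.2] at this
    simp at this
  intro v a b ha hb ca cb
  rcases lt_trichotomy a b with h | h | h
  · exact (key v a b h ha hb ca cb).elim
  · rw [h]
  · exact (key v b a h hb ha cb ca).elim

theorem phi_lam0 : phi (lam 0 1 0) = 0 := by simpa using (phi_lam (by simp) unit_lam).2

theorem line_tendsto (x v : E) : HasDerivAt (fun s : ℝ => x + s • v) v 0 ∧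
    Tendsto (fun s : ℝ => x + s • v) (𝓝 0) (𝓝 x) := by
  have hl : HasDerivAt (fun s : ℝ => x + s • v) v 0 := by
    simpa using ((hasDerivAt_id (0 : ℝ)).smul_const v).const_add x
  exact ⟨hl, by simpa using hl.continuousAt.tendsto⟩

theorem fderiv_phi : fderiv ℝ phi (lam 0 1 0) = 0 := by
  have hF := ((phi_smooth unit_lam).differentiableAt (by simp)).hasFDerivAt
  set D := fderiv ℝ phi (lam 0 1 0)
  have key : ∀ v, (∀ s : ℝ, IsUnit (LM (lam 0 1 0 + s • v)) → phi (lam 0 1 0 + s • v) = 0) →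
      D v = 0 := fun v hv =>
    (HasFDerivAt.comp_hasDerivAt (l := phi) (0 : ℝ) (by simpa using hF)
      (line_tendsto _ v).1).unique ((hasDerivAt_const (0 : ℝ) (0 : ℝ)).congr_of_eventuallyEq
      (((line_tendsto _ v).2.eventually (unit_nhds unit_lam)).mono hv))
  have d0 : D ![1, 0, 0, 0, 0, 0, 0, 0] = 0 := key _ fun s hs => by
    have e : lam 0 1 0 + s • (![1, 0, 0, 0, 0, 0, 0, 0] : E) = lam s 1 0 := by
      ext i; fin_cases i <;> simp [lam]
    rw [e] at hs ⊢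
    simpa using (phi_lam (by simp) hs).2
  have d1 : D ![0, 1, 0, 0, 0, 0, 0, 0] = 0 := key _ fun s hs => by
    have e : lam 0 1 0 + s • (![0, 1, 0, 0, 0, 0, 0, 0] : E) = lam 0 (1 + s) 0 := by
      ext i; fin_cases i <;> simp [lam]
    rw [e] at hs ⊢
    simpa using (phi_lam (by simp) hs).2
  have d2 : D (lam 0 1 0) = 0 := by
    obtain ⟨w, -, h2, -⟩ := ray_deriv (l := lam 0 1 0) (s := 1) (by simpa using unit_lam)
    have hl : HasDerivAt (fun r : ℝ => r • lam 0 1 0) (lam 0 1 0) 1 := by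
      simpa using (hasDerivAt_id (1 : ℝ)).smul_const (lam 0 1 0)
    have h3 := h2.unique ((hasDerivAt_id' (1 : ℝ)).fun_mul
      (HasFDerivAt.comp_hasDerivAt (l := phi) (1 : ℝ) (by simpa using hF) hl))
    have h4 : LL (bU 1 (lam 0 1 0) (vv 0)) = 0 := by
      rw [bU_lam]; ext i; fin_cases i <;> simp [LL_apply, lc, at1] <;> ring
    simp only [one_smul, (phi_lam (by simp) unit_lam).1, h4, Function.comp, phi_lam0] at h3
    simpa using h3.symm
  have d3 : ∀ v, D (sg v) = D v := by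
    have e : sg (lam 0 1 0) = lam 0 1 0 := by simp [sg_apply, lam]
    have h1 : HasFDerivAt (phi ∘ sg) (D.comp sg) (lam 0 1 0) :=
      HasFDerivAt.comp _ (by rw [e]; exact hF) sg.hasFDerivAt
    have h2 : Tendsto sg (𝓝 (lam 0 1 0)) (𝓝 (lam 0 1 0)) := by
      simpa [e] using sg.continuous.tendsto (lam 0 1 0)
    intro v
    refine congrArg (fun L : E →L[ℝ] ℝ => L v) (h1.unique (hF.congr_of_eventuallyEq ?_))
    filter_upwards [unit_nhds unit_lam, h2.eventually (unit_nhds unit_lam)] with l a b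
    exact phi_sg a b
  ext v
  have e : v + sg v = (2 * v 0) • (![1, 0, 0, 0, 0, 0, 0, 0] : E) +
      (2 * v 1 - 2 * v 6 / π) • (![0, 1, 0, 0, 0, 0, 0, 0] : E) + (2 * v 6 / π) • lam 0 1 0 := by
    have := pi_pos
    ext i; fin_cases i <;> simp [sg_apply, lam] <;> field_simp <;> ring
  have h1 := congrArg D e
  simp only [map_add, map_smul, d0, d1, d2, d3, smul_zero, add_zero] at h1
  change D v = 0
  linarith

theorem not_sub : ¬ IsSubmanifoldAt {l | IsRegConj ex l} (lam 0 1 0) := by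
  have hs : ∀ᶠ l in 𝓝 (lam 0 1 0), ContDiffAt ℝ ∞ (fun l => -phi l) l :=
    (unit_nhds unit_lam).mono fun l hl => (phi_smooth hl).neg
  have hd := hs.mono fun l hl => hl.differentiableAt (by simp)
  have hB := ((hs.self_of_nhds.fderiv_right (m := ∞) le_rfl).differentiableAt (by simp)).hasFDerivAt
  refine not_submanifold (a := ![0, 0, 0, 1, 0, 0, 0, 0]) hd hB (by simp [fderiv_fun_neg, fderiv_phi])
    ?_ (by simp [phi_lam0]) reg_iff ?_
  · obtain ⟨l1, l2⟩ := line_tendsto (lam 0 1 0) ![0, 0, 0, 1, 0, 0, 0, 0]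
    set a : E := ![0, 0, 0, 1, 0, 0, 0, 0] with ha
    have h1 := (HasFDerivAt.comp_hasDerivAt (l := fderiv ℝ fun l => -phi l) (0 : ℝ)
      (by simpa using hB) l1).clm_apply (hasDerivAt_const (0 : ℝ) a)
    have h2 : ∀ᶠ s in 𝓝 (0 : ℝ), -phi (lam 0 1 0 + s • a) = s ^ 2 / (48 * π ^ 2) := by
      filter_upwards [l2.eventually (unit_nhds unit_lam)] with s hs
      have e : lam 0 1 0 + s • a = lam 0 1 s := by ext i; fin_cases i <;> simp [lam, ha]
      rw [e] at hs ⊢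
      rw [(phi_lam (by simp) hs).2]; ring
    have h3 : ∀ᶠ s in 𝓝 (0 : ℝ),
        fderiv ℝ (fun l => -phi l) (lam 0 1 0 + s • a) a = s / (24 * π ^ 2) := by
      filter_upwards [h2.eventually_nhds, l2.eventually hd] with s h4 h5
      have h6 : HasDerivAt (fun s : ℝ => lam 0 1 0 + s • a) a s := by
        simpa using ((hasDerivAt_id s).smul_const a).const_add (lam 0 1 0)
      refine (h5.hasFDerivAt.comp_hasDerivAt s h6).unique ((((hasDerivAt_pow 2 s).div_const
        (48 * π ^ 2)).congr_of_eventuallyEq h4).congr_deriv ?_)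
      norm_num; ring
    have h4 := h1.unique (((hasDerivAt_id' (0 : ℝ)).div_const (24 * π ^ 2)).congr_of_eventuallyEq h3)
    simp only [map_zero, add_zero] at h4
    rw [h4]
    have := pi_pos
    positivity
  · have h1 : Tendsto (fun r : ℝ => r • lam 0 1 0) (𝓝 1) (𝓝 (lam 0 1 0)) := by
      have : Continuous fun r : ℝ => r • lam 0 1 0 := by fun_prop
      simpa using this.tendsto 1
    obtain ⟨δ, hδ, h2⟩ := Metric.eventually_nhds_iff.1 (h1.eventually good_nhds)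
    refine (h1.mono_left (nhdsWithin_le_nhds (s := Ioi 1))).frequently (Eventually.frequently ?_)
    filter_upwards [Ioo_mem_nhdsGT (show 1 < 1 + δ by linarith)] with r hr
    have h3 := ray_strict (l := lam 0 1 0) hr.1 fun t ht => h2 (by
      rw [Real.dist_eq, abs_of_nonneg (by linarith [ht.1])]; linarith [ht.2, hr.2])
    rw [one_smul, phi_lam0, mul_zero] at h3
    exact neg_lt_zero.2 ((mul_pos_iff_of_pos_left (one_pos.trans hr.1)).1 h3)

end Pool.Agent.Work.MP_c4e502_gt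
end

-- merged part: Pool.Agent.Work.MP_c4e502_gt.Ham
section
namespace Pool.Agent.Work.MP_c4e502_gt

open scoped ContDiff Topology
open Filter Set

/-- the `i`-th horizontal basis vector -/
def hb (i : Fin 6) : E := ![![1, 0, 0, 0, 0, 0, 0, 0], ![0, 1, 0, 0, 0, 0, 0, 0],
  ![0, 0, 1, 0, 0, 0, 0, 0], ![0, 0, 0, 1, 0, 0, 0, 0], ![0, 0, 0, 0, 1, 0, 0, 0],
  ![0, 0, 0, 0, 0, 1, 0, 0]] i

/-- the orthonormal frame -/
noncomputable def fr (i : Fin 6) (x : E) : E := hb i + BB x (hb i)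

theorem hasF_fr (i : Fin 6) (x : E) : HasFDerivAt (fr i) (BB.flip (hb i)) x :=
  (BB.flip (hb i)).hasFDerivAt.const_add (hb i)

theorem fr_smooth (i : Fin 6) : ContDiff ℝ ∞ (fr i) :=
  contDiff_const.add (BB.flip (hb i)).contDiff

theorem frame_ok : IsSubRiemFrame fr where
  smooth := fr_smooth
  indep x := by
    rw [Fintype.linearIndependent_iff]
    intro g hg i
    have := congrFun hg (Fin.castLE (by norm_num) i)
    fin_cases i <;> simpa [fr, hb, BB_apply, Fin.sum_univ_six] using this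
  gen x := by
    set S := Submodule.span ℝ {v | ∃ Y, IsBracket fr Y ∧ Y x = v}
    have h1 : ∀ i, fr i x ∈ S := fun i => Submodule.subset_span ⟨_, IsBracket.base i, rfl⟩
    have h2 : ∀ i j, VectorField.lieBracket ℝ (fr i) (fr j) x ∈ S := fun i j =>
      Submodule.subset_span ⟨_, (IsBracket.base i).lie (IsBracket.base j), rfl⟩
    refine eq_top_iff.2 fun v _ => ?_
    have e : v = ∑ i : Fin 6, v (Fin.castLE (by norm_num) i) • fr i x +
        ((v - BB x v) 6 / 5) • VectorField.lieBracket ℝ (fr 0) (fr 1) x +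
        (v - BB x v) 7 • VectorField.lieBracket ℝ (fr 3) (fr 1) x := by
      simp only [VectorField.lieBracket, (hasF_fr _ _).fderiv]
      ext j
      fin_cases j <;> simp [fr, hb, BB_apply, Fin.sum_univ_six, Matrix.vecHead, Matrix.vecTail] <;>
        ring
    rw [e]
    exact S.add_mem (S.add_mem (S.sum_mem fun i _ => S.smul_mem _ (h1 i)) (S.smul_mem _ (h2 _ _)))
      (S.smul_mem _ (h2 _ _))

/-- left-trivialised covector -/
noncomputable def toU (x p : E) : E := ![p 0, p 1 + 5 * x 0 * p 6 + (x 3 + x 5) * p 7,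
  p 2 + x 3 * p 6, p 3, p 4 + 7 * x 5 * p 6, p 5, p 6, p 7]

noncomputable def ofU (x p : E) : E := ![p 0, p 1 - 5 * x 0 * p 6 - (x 3 + x 5) * p 7,
  p 2 - x 3 * p 6, p 3, p 4 - 7 * x 5 * p 6, p 5, p 6, p 7]

noncomputable def frc (u : E) : E := ![-(5 * u 6 * u 1), 0, 0, -(u 6 * u 2) - u 7 * u 1, 0,
  -(7 * u 6 * u 4) - u 7 * u 1, 0, 0]

theorem toU_ofU (x u : E) : toU x (ofU x u) = u := by
  ext i; fin_cases i <;> simp [toU, ofU]; ring

theorem dot_clm (a : E) : ∃ L : E →L[ℝ] ℝ, ∀ v, L v = a ⬝ᵥ v :=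
  ⟨LinearMap.toContinuousLinearMap (dotProductBilin ℝ ℝ a), fun _ => rfl⟩

theorem ham_p (x p : E) : (fun j => fderiv ℝ (fun r => ham fr x r) p (Pi.single j 1)) =
    LL (toU x p) + BB x (toU x p) := by
  choose L hL using dot_clm
  have h := (HasFDerivAt.fun_sum (u := Finset.univ) fun i _ =>
    ((L (fr i x)).hasFDerivAt (x := p)).pow 2).const_mul (1 / 2 : ℝ)
  have e : (fun r => ham fr x r) = fun r => 1 / 2 * ∑ i, L (fr i x) r ^ 2 := by
    simp only [ham, dotProduct_comm _ (fr _ x), hL]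
  rw [e, h.fderiv]
  ext j
  fin_cases j <;>
    simp [hL, fr, hb, BB_apply, LL_apply, toU, Fin.sum_univ_six, dotProduct, Fin.sum_univ_eight] <;>
    ring

theorem ham_x (x p : E) : (fun j => -fderiv ℝ (fun y => ham fr y p) x (Pi.single j 1)) =
    frc (toU x p) := by
  choose L hL using dot_clm
  have h := (HasFDerivAt.fun_sum (u := Finset.univ) fun i _ =>
    ((L p).hasFDerivAt.comp x (hasF_fr i x)).pow 2).const_mul (1 / 2 : ℝ)
  have e : (fun y => ham fr y p) = fun y => 1 / 2 * ∑ i, (L p ∘ fr i) y ^ 2 := by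
    simp only [ham, Function.comp, hL]
  rw [e, h.fderiv]
  ext j
  fin_cases j <;>
    simp [hL, fr, hb, BB_apply, frc, toU, Fin.sum_univ_six, dotProduct, Fin.sum_univ_eight] <;>
    ring

theorem traj_iff (x p : ℝ → E) : IsNormalTraj fr x p ↔
    ∀ t, HasDerivAt x (LL (toU (x t) (p t)) + BB (x t) (toU (x t) (p t))) t ∧
      HasDerivAt p (frc (toU (x t) (p t))) t := by
  simp only [IsNormalTraj, ham_p, ham_x]

theorem deriv_aux {x p : ℝ → E} {x' p' : E} {t : ℝ} (c : ℝ) (hx : HasDerivAt x x' t)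
    (hp : HasDerivAt p p' t) :
    HasDerivAt (fun s => (![p s 0, p s 1 + c * (5 * x s 0 * p s 6 + (x s 3 + x s 5) * p s 7),
      p s 2 + c * (x s 3 * p s 6), p s 3, p s 4 + c * (7 * x s 5 * p s 6), p s 5, p s 6, p s 7] : E))
      ![p' 0, p' 1 + c * (5 * x' 0 * p t 6 + 5 * x t 0 * p' 6 +
        ((x' 3 + x' 5) * p t 7 + (x t 3 + x t 5) * p' 7)),
      p' 2 + c * (x' 3 * p t 6 + x t 3 * p' 6), p' 3,
      p' 4 + c * (7 * x' 5 * p t 6 + 7 * x t 5 * p' 6), p' 5, p' 6, p' 7] t := by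
  have a := hasDerivAt_pi.1 hx
  have b := hasDerivAt_pi.1 hp
  refine hasDerivAt_pi.2 fun i => ?_
  fin_cases i
  exacts [b 0, (b 1).fun_add (((((a 0).const_mul 5).fun_mul (b 6)).fun_add
    (((a 3).fun_add (a 5)).fun_mul (b 7))).const_mul c),
    (b 2).fun_add (((a 3).fun_mul (b 6)).const_mul c), b 3,
    (b 4).fun_add ((((a 5).const_mul 7).fun_mul (b 6)).const_mul c), b 5, b 6, b 7]

theorem isExp : IsExp fr 0 ex := by
  constructor
  · intro l
    refine ⟨fun t => XX (t, l), fun t => ofU (XX (t, l)) (UU (t, l)), (traj_iff _ _).2 fun t => ?_,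
      XX_zero l, ?_⟩
    · simp only [toU_ofU]
      refine ⟨XX_deriv t l, ?_⟩
      refine ((deriv_aux (-1) (XX_deriv t l) ((sys_flow l).hU t)).congr_deriv ?_
        ).congr_of_eventuallyEq (Eventually.of_forall fun s => ?_)
      · ext i; fin_cases i <;> simp [AA_apply, BB_apply, LL_apply, frc] <;> ring
      · ext i; fin_cases i <;> simp [ofU] <;> ring
    · ext i; fin_cases i <;> simp [ofU, XX_zero, UU_zero]
  · intro x p h h0
    rw [traj_iff] at h
    have hs : Sys x fun t => toU (x t) (p t) := by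
      refine ⟨fun t => (h t).1, fun t => ((deriv_aux 1 (h t).1 (h t).2).congr_deriv ?_
        ).congr_of_eventuallyEq (Eventually.of_forall fun s => ?_)⟩
      · ext i; fin_cases i <;> simp [AA_apply, BB_apply, LL_apply, frc, toU] <;> ring
      · ext i; fin_cases i <;> simp [toU] <;> ring
    have h1 := (hs.unique h0 1).1
    have h2 : toU (x 0) (p 0) = p 0 := by
      ext i; fin_cases i <;> simp [toU, h0]
    rw [h1, h2]
    rfl

end Pool.Agent.Work.MP_c4e502_gt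
end
end
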